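import Pool.Agent.Helper79.SV.Pair

/-!
# SB-V-13: a cyclic extension of degree `ℓ` fixed by `σ` and by inertia does not exist

`L' = L(α)`... : `L'` an intermediate field, Galois of degree `ℓ` over `L`, fixed by `σ` (`hσ`) and by every `t ∈ Gal(Ω/L)` which is
trivial on the residue field of `V` (`hT`).  CLAIM: contradiction.  `τ` does not fix `L'` (`fix`), so `ρ = τ|L'` generates
`Gal(L'/L)`.  `V` is stable under `Gal(Ω/L)` (`hV`: integrality over `O`), `V ∩ L = O`, `O' = V ∩ L'`.  Residue fields: `κ(V)`, `κ' = κ(O')`,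
`κ = κ(O)`, of characteristic `0` (`V` contains `ℚ`).
(1) `ρ` acts nontrivially on `κ'`.  Suppose `τ b - b` is a nonunit for all `b ∈ O'`.  Then `κ' = κ`: for `b ∈ O'` the mean
`(1/ℓ) ∑ ρ^i b` is in `O` and congruent to `b`.  The group `G' = Gal(Ω/L')` (profinite, acting on `V` with open stabilisers, invariants
`V ∩ L' = O'`) maps ONTO `Aut(κ(V)/κ')` (Mathlib: `Ideal.Quotient.stabilizerHom_surjective_of_profinite` in
`RingTheory/Invariant/Profinite.lean`, the stabiliser of the maximal ideal being everything).  `τ` induces an automorphism of `κ(V)`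
over `κ = κ'`, so there is `g ∈ G'` with the same action on `κ(V)`: `g⁻¹ τ` is trivial on `κ(V)`, so it fixes `L'` by `hT`, so `τ` fixes `L'`, contradiction.
(2) So `ρ` induces an automorphism of order `ℓ` of `κ'`; the powers `ρ^i`, `0 ≤ i < ℓ`, are distinct on `κ'`, so by independence of
characters there is `b ∈ O'` with `w = ∑_i ζ^(-i) ρ^i b` a unit of `O'` (`ζ ∈ L` primitive, `ζ ∈ O`).  `τ w = ζ w ≠ w`, `σ w = w`; `u = w ^ ℓ` is
fixed by `σ` and `τ`, so it is in `L`, a unit of `O`.  By `hU` `τ w = w`, contradiction.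
-/

set_option autoImplicit false

open IntermediateField

namespace Pool.Agent.SB

private theorem v7a_lift {F Ω : Type} [Field F] [Field Ω] [Algebra F Ω] [IsGalois F Ω]
    (V : ValuationSubring Ω) (hG : ∀ (g : Ω ≃ₐ[F] Ω), ∀ x ∈ V, g x ∈ V) (φ : Ω ≃+* Ω)
    (hφ : ∀ x ∈ V, φ x ∈ V) (hφ' : ∀ x ∈ V, φ.symm x ∈ V)
    (h : ∀ b : F, algebraMap F Ω b ∈ V → V.valuation (φ (algebraMap F Ω b) - algebraMap F Ω b) < 1) :
    ∃ g : Ω ≃ₐ[F] Ω, ∀ x ∈ V, V.valuation (g x - φ x) < 1 := by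
  let A : ValuationSubring F := V.comap (algebraMap F Ω)
  let f : A →+* V :=
    { toFun := fun a => ⟨algebraMap F Ω a.1, a.2⟩
      map_one' := by ext; simp
      map_zero' := by ext; simp
      map_add' := fun a b => by ext; simp
      map_mul' := fun a b => by ext; simp }
  let algAV : Algebra A V := f.toAlgebra
  let act : MulSemiringAction (Ω ≃ₐ[F] Ω) V :=
    { smul := fun g v => ⟨g v.1, hG g v.1 v.2⟩
      one_smul := fun v => rfl
      mul_smul := fun g g' v => rfl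
      smul_zero := fun g => Subtype.ext (map_zero g)
      smul_add := fun g v w => Subtype.ext (map_add g v.1 w.1)
      smul_one := fun g => Subtype.ext (map_one g)
      smul_mul := fun g v w => Subtype.ext (map_mul g v.1 w.1) }
  have hact : ∀ (g : Ω ≃ₐ[F] Ω) (v : V), ((g • v : V) : Ω) = g v.1 := fun g v => rfl
  have halg : ∀ a : A, ((algebraMap A V a : V) : Ω) = algebraMap F Ω a.1 := fun a => rfl
  have scc : SMulCommClass (Ω ≃ₐ[F] Ω) A V := by
    refine ⟨fun g a v => ?_⟩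
    apply Subtype.ext
    rw [hact, Algebra.smul_def, Algebra.smul_def]
    show g (((algebraMap A V a : V) : Ω) * (v : Ω)) = ((algebraMap A V a : V) : Ω) * ((g • v : V) : Ω)
    rw [map_mul, halg, AlgEquiv.commutes, hact]
  let top : TopologicalSpace V := ⊥
  have dt : DiscreteTopology V := ⟨rfl⟩
  have cs : ContinuousSMul (Ω ≃ₐ[F] Ω) V := by
    rw [continuousSMul_iff_stabilizer_isOpen]
    intro v
    have h1 := stabilizer_isOpen_of_isIntegral (K := F) (L := Ω) v.1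
    convert h1 using 1
    ext g
    simp only [SetLike.mem_coe, MulAction.mem_stabilizer_iff]
    constructor
    · intro h2
      exact congrArg Subtype.val h2
    · intro h2
      exact Subtype.ext h2
  have inv : Algebra.IsInvariant A V (Ω ≃ₐ[F] Ω) := by
    refine ⟨fun v hv => ?_⟩
    have h1 : (v : Ω) ∈ Set.range (algebraMap F Ω) := by
      rw [InfiniteGalois.mem_range_algebraMap_iff_fixed]
      intro g
      exact congrArg Subtype.val (hv g)
    obtain ⟨a, ha⟩ := h1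
    refine ⟨⟨a, ?_⟩, ?_⟩
    · show algebraMap F Ω a ∈ V
      rw [ha]
      exact v.2
    · apply Subtype.ext
      rw [halg]
      exact ha
  let Q : Ideal V := IsLocalRing.maximalIdeal V
  let P : Ideal A := Q.under A
  let φV : V ≃+* V :=
    { toFun := fun v => ⟨φ v.1, hφ v.1 v.2⟩
      invFun := fun v => ⟨φ.symm v.1, hφ' v.1 v.2⟩
      left_inv := fun v => Subtype.ext (φ.symm_apply_apply v.1)
      right_inv := fun v => Subtype.ext (φ.apply_symm_apply v.1)
      map_mul' := fun v w => Subtype.ext (map_mul φ v.1 w.1)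
      map_add' := fun v w => Subtype.ext (map_add φ v.1 w.1) }
  have hQ : Q = Ideal.map (φV : V →+* V) Q := by
    have h1 : (Ideal.map (φV : V →+* V) Q).IsMaximal := by
      have := Ideal.map_isMaximal_of_equiv (p := Q) φV
      exact this
    exact (IsLocalRing.eq_maximalIdeal h1).symm
  let s0 : (V ⧸ Q) ≃+* (V ⧸ Q) := Ideal.quotientEquiv Q Q φV hQ
  have hs0 : ∀ v : V, s0 (Ideal.Quotient.mk Q v) = Ideal.Quotient.mk Q (φV v) := fun v => rfl
  let s : (V ⧸ Q) ≃ₐ[A ⧸ P] (V ⧸ Q) := AlgEquiv.ofRingEquiv (f := s0) (by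
    intro a
    obtain ⟨a, rfl⟩ := Ideal.Quotient.mk_surjective a
    have h1 : algebraMap (A ⧸ P) (V ⧸ Q) (Ideal.Quotient.mk P a) = Ideal.Quotient.mk Q (algebraMap A V a) := rfl
    rw [h1, hs0, Ideal.Quotient.eq]
    rw [ValuationSubring.valuation_lt_one_iff]
    exact h a.1 a.2)
  obtain ⟨g, hg⟩ := Ideal.Quotient.stabilizerHom_surjective_of_profinite (G := Ω ≃ₐ[F] Ω) P Q s
  refine ⟨g.1, fun x hx => ?_⟩
  have h1 := congrArg (fun e => e (Ideal.Quotient.mk Q ⟨x, hx⟩)) hg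
  have h2 : Ideal.Quotient.mk Q (g.1 • (⟨x, hx⟩ : V)) = Ideal.Quotient.mk Q (φV ⟨x, hx⟩) := h1
  rw [Ideal.Quotient.eq, ValuationSubring.valuation_lt_one_iff] at h2
  exact h2

theorem no_cyclic (k : Type) [Field k] [CharZero k] {L Ω : Type} [Field L] [Field Ω]
    [Algebra k L] [Algebra L Ω] [Algebra k Ω] [IsScalarTower k L Ω] [IsAlgClosed Ω]
    [Algebra.IsAlgebraic L Ω] {ℓ : ℕ} (hℓ : ℓ.Prime) {σ τ : Ω ≃ₐ[L] Ω} (P : TPair k ℓ σ τ)
    (O : ValuationSubring L) (hk : ∀ c : L, IsAlgebraic k c → c ∈ O)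
    (hU : ∀ (u : L) (y : Ω), u ≠ 0 → u ∈ O → u⁻¹ ∈ O → y ^ ℓ = algebraMap L Ω u → τ y = y)
    (V : ValuationSubring Ω) (hV : ∀ x : Ω, x ∈ V ↔ IsIntegral O x)
    (L' : IntermediateField L Ω) [FiniteDimensional L L'] [IsGalois L L']
    (hL' : Module.finrank L L' = ℓ) (hσ : ∀ x ∈ L', σ x = x)
    (hT : ∀ t : Ω ≃ₐ[L] Ω, (∀ x ∈ V, V.valuation (t x - x) < 1) → ∀ x ∈ L', t x = x) :
    False := by
  classical
  have : CharZero Ω := charZero_of_injective_algebraMap (algebraMap k Ω).injective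
  have : CharZero L := charZero_of_injective_algebraMap (algebraMap k L).injective
  have : CharZero L' := charZero_of_injective_algebraMap (algebraMap L L').injective
  have : IsAlgClosure L' Ω := ⟨inferInstance, inferInstance⟩
  have : Normal L' Ω := IsAlgClosure.normal L' Ω
  have : IsGalois L' Ω := ⟨⟩
  have hst : ∀ (t : Ω ≃ₐ[L] Ω) (x : Ω), x ∈ V → t x ∈ V := by
    intro t x hx
    rw [hV] at hx ⊢
    exact hx.map ((t : Ω →ₐ[L] Ω).restrictScalars O)
  have hnf : ¬ ∀ x ∈ L', τ x = x := by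
    intro h
    have h1 : L' = ⊥ := by
      rw [eq_bot_iff]
      intro x hx
      rw [IntermediateField.mem_bot]
      obtain ⟨y, hy⟩ := P.fix x (hσ x hx) (h x hx)
      exact ⟨y, hy⟩
    rw [h1, IntermediateField.finrank_bot] at hL'
    exact hℓ.one_lt.ne hL'
  -- the powers of `τ` on `L'`
  have hpow : ∀ (n : ℕ) (x : L'), (τ ^ n) (x : Ω) = (((τ.restrictNormal L') ^ n : L' ≃ₐ[L] L') x : L') := by
    intro n x
    have h1 := AlgEquiv.restrictNormal_commutes (τ ^ n) L' x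
    have h2 : (τ ^ n).restrictNormal L' = (τ.restrictNormal L') ^ n :=
      map_pow (AlgEquiv.restrictNormalHom L') τ n
    rw [h2] at h1
    exact h1.symm
  have hmem : ∀ (n : ℕ) (x : Ω), x ∈ L' → (τ ^ n) x ∈ L' := by
    intro n x hx
    rw [hpow n ⟨x, hx⟩]
    exact Subtype.property _
  have hord : ∀ x ∈ L', (τ ^ ℓ) x = x := by
    intro x hx
    have h1 : (τ.restrictNormal L') ^ ℓ = 1 := by
      have h2 := IsGalois.card_aut_eq_finrank L L'
      rw [hL'] at h2
      rw [← h2]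
      exact pow_card_eq_one'
    rw [hpow ℓ ⟨x, hx⟩, h1]
    rfl
  -- step 1
  obtain ⟨b, hb, hbV, hbu⟩ : ∃ b ∈ L', b ∈ V ∧ ¬ V.valuation (τ b - b) < 1 := by
    by_contra hcon
    push Not at hcon
    obtain ⟨g, hg⟩ := v7a_lift (F := L') V (fun g x hx => hst (g.restrictScalars L) x hx) (τ : Ω ≃+* Ω)
      (fun x hx => hst τ x hx) (fun x hx => hst τ.symm x hx) (fun b hb => hcon b b.2 hb)
    apply hnf
    have h1 := hT (τ * (g.restrictScalars L)⁻¹) (by
      intro x hx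
      have h2 : g.symm x ∈ V := hst (g.symm.restrictScalars L) x hx
      have h3 := hg _ h2
      have h4 : (τ * (g.restrictScalars L)⁻¹) x - x = -(g (g.symm x) - τ (g.symm x)) := by
        rw [AlgEquiv.apply_symm_apply, neg_sub]
        rfl
      rw [h4, Valuation.map_neg]
      exact h3)
    intro x hx
    have h2 := h1 x hx
    have h3 : g.symm x = x := g.symm.commutes ⟨x, hx⟩
    have h4 : (τ * (g.restrictScalars L)⁻¹) x = τ (g.symm x) := rfl
    rw [h4, h3] at h2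
    exact h2
  -- roots of unity
  have hℓ0 : (ℓ : Ω) ≠ 0 := Nat.cast_ne_zero.2 hℓ.ne_zero
  have : NeZero (ℓ : Ω) := ⟨hℓ0⟩
  have : NeZero ℓ := ⟨hℓ.ne_zero⟩
  obtain ⟨ζ, hζ⟩ := HasEnoughRootsOfUnity.exists_primitiveRoot Ω ℓ
  have hζ1 : ζ ^ ℓ = 1 := hζ.pow_eq_one
  have hζk : IsAlgebraic k ζ := by
    have h1 : IsIntegral k ζ :=
      ⟨Polynomial.X ^ ℓ - 1, Polynomial.monic_X_pow_sub_C 1 hℓ.ne_zero, by simp [hζ1]⟩
    exact h1.isAlgebraic
  have hτζ : τ ζ = ζ := P.bar ζ hζk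
  obtain ⟨ζ0, hζ0⟩ := P.fix ζ (P.mu ζ hζ1) hτζ
  have hζV : ζ ∈ V := (hV ζ).2
    ⟨Polynomial.X ^ ℓ - 1, Polynomial.monic_X_pow_sub_C 1 hℓ.ne_zero, by simp [hζ1]⟩
  have hζL : ζ ∈ L' := by
    rw [← hζ0]
    exact L'.algebraMap_mem ζ0
  have hvζ : V.valuation ζ = 1 := by
    have h1 : V.valuation ζ ^ ℓ = 1 := by rw [← map_pow, hζ1, map_one]
    exact (pow_eq_one_iff.1 h1).resolve_right hℓ.ne_zero
  have hvℓ : V.valuation ((ℓ : Ω)⁻¹) ≤ 1 := by
    rw [ValuationSubring.valuation_le_one_iff, hV]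
    have h1 : ((ℓ : L)⁻¹) ∈ O := hk _ (by
      have h2 : ((ℓ : L)⁻¹) = algebraMap k L ((ℓ : k)⁻¹) := by simp
      rw [h2]
      exact isAlgebraic_algebraMap _)
    have h2 : ((ℓ : Ω)⁻¹) = algebraMap O Ω ⟨(ℓ : L)⁻¹, h1⟩ := by
      have h3 : algebraMap O Ω ⟨(ℓ : L)⁻¹, h1⟩ = algebraMap L Ω ((ℓ : L)⁻¹) := rfl
      rw [h3]
      simp
    rw [h2]
    exact isIntegral_algebraMap
  -- Lagrange resolvents
  let w : ℕ → Ω := fun j => ∑ i ∈ Finset.range ℓ, ζ ^ (i * j) * (τ ^ i) b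
  have hwL : ∀ j, w j ∈ L' := fun j =>
    sum_mem fun i _ => mul_mem (pow_mem hζL _) (hmem i b hb)
  have hwV : ∀ j, w j ∈ V := fun j =>
    sum_mem fun i _ => mul_mem (pow_mem hζV _) (hst (τ ^ i) b hbV)
  have hwτ : ∀ j, ζ ^ j * τ (w j) = w j := by
    intro j
    have h1 : ζ ^ j * τ (w j) = ∑ i ∈ Finset.range ℓ, ζ ^ ((i + 1) * j) * (τ ^ (i + 1)) b := by
      show ζ ^ j * τ (∑ i ∈ Finset.range ℓ, ζ ^ (i * j) * (τ ^ i) b) = _
      rw [map_sum, Finset.mul_sum]
      refine Finset.sum_congr rfl fun i _ => ?_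
      rw [map_mul, map_pow, hτζ, pow_succ' τ i]
      have h2 : (τ * τ ^ i) b = τ ((τ ^ i) b) := rfl
      rw [h2]
      ring
    rw [h1]
    have h2 := Finset.sum_range_succ (fun i => ζ ^ (i * j) * (τ ^ i) b) ℓ
    have h3 := Finset.sum_range_succ' (fun i => ζ ^ (i * j) * (τ ^ i) b) ℓ
    rw [h2] at h3
    have h4 : ζ ^ (ℓ * j) * (τ ^ ℓ) b = ζ ^ (0 * j) * (τ ^ 0) b := by
      rw [hord b hb, pow_mul, hζ1]
      simp
    rw [h4] at h3
    exact (add_right_cancel h3).symm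
  have hsum : ∑ j ∈ Finset.range ℓ, w j = (ℓ : Ω) * b := by
    show ∑ j ∈ Finset.range ℓ, ∑ i ∈ Finset.range ℓ, ζ ^ (i * j) * (τ ^ i) b = _
    rw [Finset.sum_comm]
    have h1 : ∀ i ∈ Finset.range ℓ, ∑ j ∈ Finset.range ℓ, ζ ^ (i * j) * (τ ^ i) b = if i = 0 then (ℓ : Ω) * b else 0 := by
      intro i hi
      rw [← Finset.sum_mul]
      by_cases hi0 : i = 0
      · subst hi0
        simp
      · rw [if_neg hi0]
        have h2 : IsPrimitiveRoot (ζ ^ i) ℓ := by
          apply hζ.pow_of_coprime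
          exact (Nat.coprime_of_lt_prime hi0 (Finset.mem_range.1 hi) hℓ).symm
        have h3 := h2.geom_sum_eq_zero hℓ.one_lt
        have h4 : ∑ j ∈ Finset.range ℓ, ζ ^ (i * j) = 0 := by
          rw [← h3]
          exact Finset.sum_congr rfl fun j _ => by rw [pow_mul]
        rw [h4, zero_mul]
    rw [Finset.sum_congr rfl h1]
    simp [hℓ.pos]
  -- some resolvent is a unit
  obtain ⟨j, hj1, hj2, hju⟩ : ∃ j, 0 < j ∧ j < ℓ ∧ ¬ V.valuation (w j) < 1 := by
    by_contra hcon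
    push Not at hcon
    apply hbu
    have h1 : V.valuation ((ℓ : Ω) * (τ b - b)) < 1 := by
      have h2 : (ℓ : Ω) * (τ b - b) = ∑ j ∈ Finset.range ℓ, (τ (w j) - w j) := by
        rw [Finset.sum_sub_distrib, ← map_sum, hsum, map_mul, map_natCast]
        ring
      rw [h2]
      apply Valuation.map_sum_lt _ one_ne_zero
      intro j hj
      rw [Finset.mem_range] at hj
      rcases Nat.eq_zero_or_pos j with rfl | hj0
      · have h3 := hwτ 0
        rw [pow_zero, one_mul] at h3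
        rw [h3, sub_self, map_zero]
        exact zero_lt_one
      · have h3 := hcon j hj0 hj
        have h4 : V.valuation (τ (w j)) < 1 := by
          have h5 := congrArg V.valuation (hwτ j)
          rw [map_mul, map_pow, hvζ, one_pow, one_mul] at h5
          rw [h5]
          exact h3
        exact Valuation.map_sub_lt _ h4 h3
    have h3 : τ b - b = (ℓ : Ω)⁻¹ * ((ℓ : Ω) * (τ b - b)) := by
      rw [inv_mul_cancel_left₀ hℓ0]
    rw [h3, map_mul]
    calc V.valuation ((ℓ : Ω)⁻¹) * V.valuation ((ℓ : Ω) * (τ b - b))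
        ≤ 1 * V.valuation ((ℓ : Ω) * (τ b - b)) := mul_le_mul_left hvℓ _
      _ < 1 := by rw [one_mul]; exact h1
  have hv1 : V.valuation (w j) = 1 :=
    le_antisymm ((V.valuation_le_one_iff _).2 (hwV j)) (not_lt.1 hju)
  have hw0 : w j ≠ 0 := by
    intro h
    rw [h, map_zero] at hv1
    exact zero_ne_one hv1
  have hτu : τ (w j ^ ℓ) = w j ^ ℓ := by
    have h1 := congrArg (fun x => x ^ ℓ) (hwτ j)
    simp only [mul_pow] at h1
    rw [← pow_mul, mul_comm j ℓ, pow_mul, hζ1, one_pow, one_mul] at h1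
    rw [map_pow]
    exact h1
  have hσu : σ (w j ^ ℓ) = w j ^ ℓ := hσ _ (pow_mem (hwL j) _)
  obtain ⟨u, hu⟩ := P.fix _ hσu hτu
  have hu0 : u ≠ 0 := by
    intro h
    rw [h, map_zero] at hu
    exact pow_ne_zero ℓ hw0 hu.symm
  have hint : ∀ x : L, algebraMap L Ω x ∈ V → x ∈ O := by
    intro x hx
    rw [hV] at hx
    have h1 : IsIntegral O x := (isIntegral_algebraMap_iff (algebraMap L Ω).injective).1 hx
    obtain ⟨y, hy⟩ := IsIntegrallyClosed.algebraMap_eq_of_integral h1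
    rw [← hy]
    exact y.2
  have huO : u ∈ O := hint u (by rw [hu]; exact pow_mem (hwV j) _)
  have huO' : u⁻¹ ∈ O := hint u⁻¹ (by
    rw [map_inv₀, hu, ← V.valuation_le_one_iff, map_inv₀, map_pow, hv1, one_pow, inv_one])
  have hfin := hU u (w j) hu0 huO huO' hu.symm
  have h1 := hwτ j
  rw [hfin] at h1
  have h2 : ζ ^ j = 1 := mul_right_cancel₀ hw0 (by rw [h1, one_mul])
  have h3 := (hζ.pow_eq_one_iff_dvd j).1 h2
  exact absurd (Nat.le_of_dvd hj1 h3) (not_le.2 hj2)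

end Pool.Agent.SB
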