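import Pool.Agent.Helper79.SV.V6
import Pool.Agent.Helper79.SV.V7a

set_option autoImplicit false

/-!
# SB-V-14: `τ = c t` with `c` in the closure of `⟨σ⟩` and `t` in the inertia group of `V`

`G = Gal(Ω/L)` profinite.  `T = {t ∈ G : t trivial on the residue field of V}` is a closed normal subgroup (`V` is `G`-stable; closed:
`t x - x` depends only on `t x`).  `Z` = topological closure of `⟨σ⟩`, compact.  `H = Z T` is a closed subgroup of `G`.  Suppose `τ ∉ H`.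
Then there is a finite Galois `M/L` with `τ|M ∉ H|M` (`H` closed: intersection of the `H Gal(Ω/M)`).  `Gal(M/L)` is an `ℓ`-group
generated by `σ|M`, `τ|M` (as in SB-V-12), `H|M` is a proper subgroup, so it is contained in a normal subgroup `N` of index `ℓ`;
`L' = M^N`: Galois of degree `ℓ` over `L`, fixed by `σ` and `T`: contradiction to `no_cyclic`.
So `τ = c t`, `c ∈ Z`, `t ∈ T`.  `c ∈ Z`: for every finite `M` the element `c` agrees with an integral power of `σ` on (the Galois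
closure of) `M`, and with a natural power since `σ|M` has finite order.
-/

open IntermediateField

namespace Pool.Agent.SB

private theorem v7_fix_pow {L Ω : Type} [Field L] [Field Ω] [Algebra L Ω] (g : Ω ≃ₐ[L] Ω)
    (x : Ω) (h : g x = x) (k : ℕ) : (g ^ k) x = x := by
  induction k with
  | zero => rfl
  | succ k ih => rw [pow_succ, AlgEquiv.mul_apply, h, ih]

private theorem v7_fix_mono {L Ω : Type} [Field L] [Field Ω] [Algebra L Ω] (g : Ω ≃ₐ[L] Ω)
    {ℓ n m : ℕ} (x : Ω) (h : (g ^ (ℓ ^ n)) x = x) (hnm : n ≤ m) : (g ^ (ℓ ^ m)) x = x := by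
  obtain ⟨d, rfl⟩ := Nat.exists_eq_add_of_le hnm
  rw [pow_add, pow_mul]
  exact v7_fix_pow _ x h _

private theorem v7_gen {L Ω : Type} [Field L] [Field Ω] [Algebra L Ω]
    (M : IntermediateField L Ω) [FiniteDimensional L M] :
    ∃ s : Finset Ω, ∀ g h : Ω ≃ₐ[L] Ω, (∀ x ∈ s, g x = h x) → ∀ x ∈ M, g x = h x := by
  have hfg : (Subalgebra.toSubmodule M.toSubalgebra).FG :=
    (Submodule.fg_iff_finiteDimensional _).2 (inferInstanceAs (FiniteDimensional L M))
  obtain ⟨s, hs⟩ := hfg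
  refine ⟨s, fun g h hgh x hx => ?_⟩
  have hx' : x ∈ Submodule.span L (s : Set Ω) := by
    rw [hs]
    exact hx
  clear hx hs
  induction hx' using Submodule.span_induction with
  | mem x hx => exact hgh x hx
  | zero => rw [map_zero, map_zero]
  | add x y hx hy ihx ihy => rw [map_add, map_add, ihx, ihy]
  | smul c x hx ih => rw [map_smul, map_smul, ih]

private theorem v7_bound {α : Type} (s : Finset α) (P : ℕ → α → Prop)
    (hmono : ∀ n m x, n ≤ m → P n x → P m x) (hP : ∀ x, ∃ n, P n x) :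
    ∃ N, ∀ x ∈ s, P N x := by
  choose f hf using hP
  exact ⟨s.sup f, fun x hx => hmono _ _ x (Finset.le_sup hx) (hf x)⟩

private theorem v7_order {L Ω : Type} [Field L] [Field Ω] [Algebra L Ω] {ℓ : ℕ}
    (g : Ω ≃ₐ[L] Ω) (hg : ∀ x : Ω, ∃ n : ℕ, (g ^ (ℓ ^ n)) x = x)
    (M : IntermediateField L Ω) [FiniteDimensional L M] :
    ∃ n : ℕ, ∀ x ∈ M, (g ^ (ℓ ^ n)) x = x := by
  obtain ⟨s, hs⟩ := v7_gen M
  obtain ⟨N, hN⟩ := v7_bound s (fun n x => (g ^ (ℓ ^ n)) x = x)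
    (fun n m x hnm h => v7_fix_mono g x h hnm) hg
  exact ⟨N, fun x hx => hs (g ^ (ℓ ^ N)) 1 (fun y hy => hN y hy) x hx⟩

private theorem v7_rel (k : Type) [Field k] [CharZero k] {L Ω : Type} [Field L] [Field Ω]
    [Algebra k L] [Algebra L Ω] [Algebra k Ω] [IsScalarTower k L Ω] [IsAlgClosed Ω]
    {ℓ : ℕ} (hℓ : ℓ.Prime) {σ τ : Ω ≃ₐ[L] Ω} (P : TPair k ℓ σ τ)
    (M : IntermediateField L Ω) [FiniteDimensional L M] :
    ∃ q : ℕ, ∀ x ∈ M, (σ * τ * σ⁻¹) x = (τ ^ q) x := by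
  obtain ⟨s, hs⟩ := v7_gen M
  obtain ⟨N, hN⟩ := v7_bound s
    (fun N x => ∀ q : ℕ, (∀ ζ : Ω, ζ ^ (ℓ ^ N) = 1 → σ ζ = ζ ^ q) →
      (σ * τ * σ⁻¹) x = (τ ^ q) x)
    (fun n m x hnm h q hq => h q (fun ζ hζ => hq ζ (by
      obtain ⟨d, rfl⟩ := Nat.exists_eq_add_of_le hnm
      rw [pow_add, pow_mul, hζ, one_pow]))) P.rel
  haveI : CharZero Ω := charZero_of_injective_algebraMap (algebraMap k Ω).injective
  haveI : NeZero (ℓ ^ N) := ⟨pow_ne_zero _ hℓ.ne_zero⟩
  haveI : NeZero ((ℓ ^ N : ℕ) : Ω) := ⟨Nat.cast_ne_zero.2 (pow_ne_zero _ hℓ.ne_zero)⟩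
  obtain ⟨ζ, hζ⟩ := HasEnoughRootsOfUnity.exists_primitiveRoot Ω (ℓ ^ N)
  have h1 : (σ ζ) ^ (ℓ ^ N) = 1 := by rw [← map_pow, hζ.pow_eq_one, map_one]
  obtain ⟨q, _, hq⟩ := hζ.eq_pow_of_pow_eq_one h1
  refine ⟨q, fun x hx => hs _ _ (fun y hy => hN y hy q ?_) x hx⟩
  intro ξ hξ
  obtain ⟨i, _, rfl⟩ := hζ.eq_pow_of_pow_eq_one hξ
  rw [map_pow, ← hq, ← pow_mul, ← pow_mul, mul_comm]

/-- finite group generated by two elements of `ℓ`-power order with `a b a⁻¹ ∈ ⟨b⟩` -/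
private theorem v7_pgroup {G : Type} [Group G] [Finite G] {ℓ : ℕ} (a b : G) (n m q : ℕ)
    (ha : a ^ (ℓ ^ n) = 1) (hb : b ^ (ℓ ^ m) = 1) (hab : a * b * a⁻¹ = b ^ q)
    (htop : Subgroup.zpowers a ⊔ Subgroup.zpowers b = ⊤) : IsPGroup ℓ G := by
  have hp : ∀ (c : G) (r : ℕ), c ^ (ℓ ^ r) = 1 → IsPGroup ℓ (Subgroup.zpowers c) := by
    intro c r hc
    rintro ⟨g, i, rfl⟩
    refine ⟨r, Subtype.ext ?_⟩
    show (c ^ i) ^ (ℓ ^ r) = 1
    rw [← zpow_natCast, ← zpow_mul, mul_comm, zpow_mul, zpow_natCast, hc, one_zpow]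
  -- `a` normalises `⟨b⟩`
  have hle : (Subgroup.zpowers b).map (MulAut.conj a).toMonoidHom ≤ Subgroup.zpowers b := by
    rintro _ ⟨_, ⟨i, rfl⟩, rfl⟩
    refine ⟨q * i, ?_⟩
    show b ^ ((q : ℤ) * i) = a * b ^ i * a⁻¹
    rw [zpow_mul, zpow_natCast, ← hab, conj_zpow]
  have heq : (Subgroup.zpowers b).map (MulAut.conj a).toMonoidHom = Subgroup.zpowers b := by
    refine Subgroup.eq_of_le_of_card_ge hle ?_
    exact (Nat.card_congr ((Subgroup.zpowers b).equivMapOfInjective _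
      (MulAut.conj a).injective).toEquiv).le
  have ha' : a ∈ Subgroup.normalizer (Subgroup.zpowers b : Set G) := by
    rw [Subgroup.mem_normalizer_iff]
    intro h
    constructor
    · intro hh
      exact hle ⟨h, hh, rfl⟩
    · intro hh
      have hh' := hh
      rw [← heq] at hh'
      obtain ⟨h', hh1, hh2⟩ := hh'
      have : h' = h := (MulAut.conj a).injective hh2
      rw [← this]
      exact hh1
  have hN : (Subgroup.zpowers b).Normal := by
    rw [← Subgroup.normalizer_eq_top_iff, eq_top_iff, ← htop]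
    refine sup_le ?_ Subgroup.le_normalizer
    rw [Subgroup.zpowers_le]
    exact ha'
  have h := (hp a n ha).to_sup_of_normal_right (hp b m hb)
  rw [htop] at h
  exact h.of_equiv Subgroup.topEquiv

/-- a proper subgroup of a finite `ℓ`-group is in a normal subgroup of index `ℓ` -/
private theorem v7_index {G : Type} [Group G] [Finite G] {ℓ : ℕ} (hℓ : ℓ.Prime)
    (hG : IsPGroup ℓ G) (H : Subgroup G) (hH : H ≠ ⊤) :
    ∃ N : Subgroup G, N.Normal ∧ N.index = ℓ ∧ H ≤ N := by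
  haveI : Fact ℓ.Prime := ⟨hℓ⟩
  obtain ⟨r, hr⟩ := IsPGroup.iff_card.1 hG
  obtain ⟨n, hn⟩ := IsPGroup.iff_card.1 (hG.to_subgroup H)
  have hlt : n < r := by
    by_contra hle
    push Not at hle
    have h1 : Nat.card G ≤ Nat.card H := by
      rw [hr, hn]
      exact Nat.pow_le_pow_right hℓ.pos hle
    exact hH (Subgroup.eq_top_of_le_card H h1)
  obtain ⟨s, rfl⟩ : ∃ s, r = s + 1 := ⟨r - 1, by omega⟩
  obtain ⟨N, hN, hHN⟩ := Sylow.exists_subgroup_card_pow_prime_le (G := G) ℓ (n := n) (m := s)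
    (by rw [hr]; exact pow_dvd_pow _ (by omega)) H hn (by omega)
  have hi : N.index = ℓ := by
    have h1 := N.card_mul_index
    rw [hN, hr, pow_succ] at h1
    exact Nat.eq_of_mul_eq_mul_left (pow_pos hℓ.pos s) h1
  refine ⟨N, ?_, hi, hHN⟩
  refine Subgroup.normal_of_index_eq_minFac_card ?_
  rw [hi, hr, hℓ.pow_minFac (by omega)]

/-- `Gal(M/L)` is an `ℓ`-group -/
private theorem v7_gal (k : Type) [Field k] [CharZero k] {L Ω : Type} [Field L] [Field Ω]
    [Algebra k L] [Algebra L Ω] [Algebra k Ω] [IsScalarTower k L Ω] [IsAlgClosed Ω]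
    {ℓ : ℕ} (hℓ : ℓ.Prime) {σ τ : Ω ≃ₐ[L] Ω} (P : TPair k ℓ σ τ)
    (M : IntermediateField L Ω) [FiniteDimensional L M] [IsGalois L M] :
    IsPGroup ℓ (M ≃ₐ[L] M) := by
  obtain ⟨n, hn⟩ := v7_order σ P.pσ M
  obtain ⟨m, hm⟩ := v7_order τ P.pτ M
  obtain ⟨q, hq⟩ := v7_rel k hℓ P M
  have hr : ∀ (g : Ω ≃ₐ[L] Ω) (x : M), ((AlgEquiv.restrictNormalHom M g x : M) : Ω) = g x :=
    fun g x => AlgEquiv.restrictNormalHom_apply M g x
  refine v7_pgroup (AlgEquiv.restrictNormalHom M σ) (AlgEquiv.restrictNormalHom M τ) n m q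
    ?_ ?_ ?_ ?_
  · ext x
    rw [← map_pow, hr, hn x x.2]
    rfl
  · ext x
    rw [← map_pow, hr, hm x x.2]
    rfl
  · ext x
    rw [← map_inv, ← map_mul, ← map_mul, ← map_pow, hr, hr, hq x x.2]
  · set H := Subgroup.zpowers (AlgEquiv.restrictNormalHom M σ) ⊔
      Subgroup.zpowers (AlgEquiv.restrictNormalHom M τ) with hH
    have h0 : fixedField H = ⊥ := by
      rw [eq_bot_iff]
      intro x hx
      rw [IntermediateField.mem_fixedField_iff] at hx
      have h1 := hx (AlgEquiv.restrictNormalHom M σ)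
        (le_sup_left (a := Subgroup.zpowers (AlgEquiv.restrictNormalHom M σ))
          (Subgroup.mem_zpowers _))
      have h2 := hx (AlgEquiv.restrictNormalHom M τ)
        (le_sup_right (b := Subgroup.zpowers (AlgEquiv.restrictNormalHom M τ))
          (Subgroup.mem_zpowers _))
      have h3 : σ x = x := by rw [← hr, h1]
      have h4 : τ x = x := by rw [← hr, h2]
      obtain ⟨y, hy⟩ := P.fix x h3 h4
      rw [IntermediateField.mem_bot]
      exact ⟨y, Subtype.ext hy⟩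
    have h5 := IntermediateField.fixingSubgroup_fixedField H
    rw [h0, IntermediateField.fixingSubgroup_bot] at h5
    exact h5.symm

/-- an element fixed by `σ` and `T` is fixed by `τ` -/
private theorem v7_main (k : Type) [Field k] [CharZero k] {L Ω : Type} [Field L] [Field Ω]
    [Algebra k L] [Algebra L Ω] [Algebra k Ω] [IsScalarTower k L Ω] [IsAlgClosed Ω]
    [Algebra.IsAlgebraic L Ω] {ℓ : ℕ} (hℓ : ℓ.Prime) {σ τ : Ω ≃ₐ[L] Ω} (P : TPair k ℓ σ τ)
    (O : ValuationSubring L) (hk : ∀ c : L, IsAlgebraic k c → c ∈ O)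
    (hU : ∀ (u : L) (y : Ω), u ≠ 0 → u ∈ O → u⁻¹ ∈ O → y ^ ℓ = algebraMap L Ω u → τ y = y)
    (V : ValuationSubring Ω) (hV : ∀ x : Ω, x ∈ V ↔ IsIntegral O x) (x : Ω) (hσx : σ x = x)
    (hTx : ∀ t : Ω ≃ₐ[L] Ω, (∀ y ∈ V, V.valuation (t y - y) < 1) → t x = x) : τ x = x := by
  by_contra hτx
  haveI : CharZero L := charZero_of_injective_algebraMap (algebraMap k L).injective
  haveI : IsAlgClosure L Ω := ⟨inferInstance, inferInstance⟩
  haveI : Normal L Ω := IsAlgClosure.normal L Ω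
  haveI : IsGalois L Ω := ⟨⟩
  set M : IntermediateField L Ω := (FiniteGaloisIntermediateField.adjoin L {x}).1 with hM
  haveI : FiniteDimensional L M := (FiniteGaloisIntermediateField.adjoin L {x}).finiteDimensional
  haveI : IsGalois L M := (FiniteGaloisIntermediateField.adjoin L {x}).isGalois
  have hxM : x ∈ M := FiniteGaloisIntermediateField.subset_adjoin L {x} rfl
  have hr : ∀ (g : Ω ≃ₐ[L] Ω) (y : M), ((AlgEquiv.restrictNormalHom M g y : M) : Ω) = g y :=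
    fun g y => AlgEquiv.restrictNormalHom_apply M g y
  have hstab : MulAction.stabilizer (M ≃ₐ[L] M) (⟨x, hxM⟩ : M) ≠ ⊤ := by
    intro h
    have h1 : AlgEquiv.restrictNormalHom M τ ∈ MulAction.stabilizer (M ≃ₐ[L] M) (⟨x, hxM⟩ : M) := by
      rw [h]
      trivial
    rw [MulAction.mem_stabilizer_iff] at h1
    exact hτx (by
      have h2 := congrArg Subtype.val h1
      rw [AlgEquiv.smul_def, hr] at h2
      exact h2)
  obtain ⟨N, hN, hi, hle⟩ := v7_index hℓ (v7_gal k hℓ P M) _ hstab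
  let L' : IntermediateField L Ω := lift (fixedField N)
  have hfr : Module.finrank L (fixedField N) = ℓ := by
    rw [IntermediateField.finrank_eq_fixingSubgroup_index, IntermediateField.fixingSubgroup_fixedField,
      hi]
  haveI : FiniteDimensional L L' := (liftAlgEquiv (fixedField N)).toLinearEquiv.finiteDimensional
  haveI : IsGalois L L' := IsGalois.of_algEquiv (liftAlgEquiv (fixedField N))
  have hfr' : Module.finrank L L' = ℓ := by
    rw [← (liftAlgEquiv (fixedField N)).toLinearEquiv.finrank_eq, hfr]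
  have key : ∀ g : Ω ≃ₐ[L] Ω, g x = x → ∀ y ∈ L', g y = y := by
    intro g hg y hy
    have hyM : y ∈ M := lift_le _ hy
    have hy' : (⟨y, hyM⟩ : M) ∈ fixedField N := (mem_lift (⟨y, hyM⟩ : M)).1 hy
    rw [IntermediateField.mem_fixedField_iff] at hy'
    have h1 : AlgEquiv.restrictNormalHom M g ∈ N := by
      refine hle ?_
      rw [MulAction.mem_stabilizer_iff, AlgEquiv.smul_def]
      exact Subtype.ext (by rw [hr]; exact hg)
    have h2 := congrArg Subtype.val (hy' _ h1)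
    rw [hr] at h2
    exact h2
  exact no_cyclic k hℓ P O hk hU V hV L' hfr' (key σ hσx) (fun t ht => key t (hTx t ht))

/-- the inertia group -/
private noncomputable def v7T {L Ω : Type} [Field L] [Field Ω] [Algebra L Ω]
    (O : ValuationSubring L) (V : ValuationSubring Ω) (hV : ∀ x : Ω, x ∈ V ↔ IsIntegral O x) :
    Subgroup (Ω ≃ₐ[L] Ω) where
  carrier := {t | ∀ x ∈ V, V.valuation (t x - x) < 1}
  one_mem' := by
    intro x _
    rw [AlgEquiv.one_apply, sub_self, map_zero]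
    exact zero_lt_one
  mul_mem' := by
    intro s t hs ht x hx
    have htx : t x ∈ V := by
      rw [hV] at hx ⊢
      exact hx.map ((t : Ω →ₐ[L] Ω).restrictScalars O)
    have h : (s * t) x - x = (s (t x) - t x) + (t x - x) := by
      rw [AlgEquiv.mul_apply]
      ring
    rw [h]
    exact lt_of_le_of_lt (V.valuation.map_add _ _) (max_lt (hs _ htx) (ht _ hx))
  inv_mem' := by
    intro t ht x hx
    have hy : t⁻¹ x ∈ V := by
      rw [hV] at hx ⊢
      exact hx.map (((t⁻¹ : Ω ≃ₐ[L] Ω) : Ω →ₐ[L] Ω).restrictScalars O)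
    have h1 := ht _ hy
    have h2 : t (t⁻¹ x) = x := t.apply_symm_apply x
    rw [h2, V.valuation.map_sub_swap] at h1
    exact h1

private theorem v7_lt_iff {Ω : Type} [Field Ω] (V : ValuationSubring Ω) (z : Ω) :
    V.valuation z < 1 ↔ z = 0 ∨ (z ∈ V ∧ z⁻¹ ∉ V) := by
  by_cases hz : z = 0
  · simp [hz]
  · rw [← V.valuation_le_one_iff, ← V.valuation_le_one_iff z⁻¹, map_inv₀]
    have h0 : V.valuation z ≠ 0 := (V.valuation.ne_zero_iff).2 hz
    constructor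
    · intro h
      refine Or.inr ⟨h.le, ?_⟩
      rw [not_le]
      exact (one_lt_inv₀ (zero_lt_iff.2 h0)).2 h
    · rintro (h | ⟨_, h⟩)
      · exact absurd h hz
      · rw [not_le] at h
        exact (one_lt_inv₀ (zero_lt_iff.2 h0)).1 h

private theorem v7T_normal {L Ω : Type} [Field L] [Field Ω] [Algebra L Ω]
    (O : ValuationSubring L) (V : ValuationSubring Ω) (hV : ∀ x : Ω, x ∈ V ↔ IsIntegral O x) :
    (v7T O V hV).Normal := by
  have hst : ∀ (g : Ω ≃ₐ[L] Ω) (x : Ω), x ∈ V → g x ∈ V := by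
    intro g x hx
    rw [hV] at hx ⊢
    exact hx.map ((g : Ω →ₐ[L] Ω).restrictScalars O)
  refine ⟨fun t ht g x hx => ?_⟩
  have hy : g⁻¹ x ∈ V := hst g⁻¹ x hx
  have h1 : V.valuation (t (g⁻¹ x) - g⁻¹ x) < 1 := ht _ hy
  have h2 : g (g⁻¹ x) = x := g.apply_symm_apply x
  have h3 : (g * t * g⁻¹) x - x = g (t (g⁻¹ x) - g⁻¹ x) := by
    rw [map_sub, h2]
    rfl
  rw [h3, v7_lt_iff]
  rw [v7_lt_iff] at h1
  rcases h1 with h1 | ⟨h1, h4⟩
  · left
    rw [h1, map_zero]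
  · right
    refine ⟨hst g _ h1, fun h5 => h4 ?_⟩
    have h6 := hst g⁻¹ _ h5
    rw [← map_inv₀] at h6
    have h7 : g⁻¹ (g (t (g⁻¹ x) - g⁻¹ x)⁻¹) = (t (g⁻¹ x) - g⁻¹ x)⁻¹ := g.symm_apply_apply _
    rw [h7] at h6
    exact h6

private theorem v7T_closed {L Ω : Type} [Field L] [Field Ω] [Algebra L Ω]
    [Algebra.IsAlgebraic L Ω]
    (O : ValuationSubring L) (V : ValuationSubring Ω) (hV : ∀ x : Ω, x ∈ V ↔ IsIntegral O x) :
    IsClosed (v7T O V hV : Set (Ω ≃ₐ[L] Ω)) := by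
  rw [← isOpen_compl_iff, isOpen_iff_mem_nhds]
  intro t ht
  have ht' : ¬ ∀ x ∈ V, V.valuation (t x - x) < 1 := ht
  push Not at ht'
  obtain ⟨x, hx, hle⟩ := ht'
  haveI : FiniteDimensional L L⟮x⟯ :=
    IntermediateField.adjoin.finiteDimensional (Algebra.IsIntegral.isIntegral x)
  have ho : IsOpen ((fun g : Ω ≃ₐ[L] Ω => t⁻¹ * g) ⁻¹' (L⟮x⟯.fixingSubgroup : Set (Ω ≃ₐ[L] Ω))) :=
    (IntermediateField.fixingSubgroup_isOpen L⟮x⟯).preimage (continuous_const.mul continuous_id)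
  refine Filter.mem_of_superset (ho.mem_nhds ?_) ?_
  · show t⁻¹ * t ∈ L⟮x⟯.fixingSubgroup
    rw [inv_mul_cancel]
    exact Subgroup.one_mem _
  · intro g hg hgT
    have h1 : (t⁻¹ * g) x = x :=
      (IntermediateField.mem_fixingSubgroup_iff _ _).1 hg x (mem_adjoin_simple_self L x)
    have h2 : g x = t x := by
      have h3 := congrArg t h1
      rw [← h3]
      show g x = t (t⁻¹ (g x))
      exact (t.apply_symm_apply (g x)).symm
    have h4 : V.valuation (g x - x) < 1 := hgT x hx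
    rw [h2] at h4
    exact absurd h4 (not_lt.2 hle)

theorem pair_decomp (k : Type) [Field k] [CharZero k] {L Ω : Type} [Field L] [Field Ω]
    [Algebra k L] [Algebra L Ω] [Algebra k Ω] [IsScalarTower k L Ω] [IsAlgClosed Ω]
    [Algebra.IsAlgebraic L Ω] {ℓ : ℕ} (hℓ : ℓ.Prime) {σ τ : Ω ≃ₐ[L] Ω} (P : TPair k ℓ σ τ)
    (O : ValuationSubring L) (hk : ∀ c : L, IsAlgebraic k c → c ∈ O)
    (hU : ∀ (u : L) (y : Ω), u ≠ 0 → u ∈ O → u⁻¹ ∈ O → y ^ ℓ = algebraMap L Ω u → τ y = y)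
    (V : ValuationSubring Ω) (hV : ∀ x : Ω, x ∈ V ↔ IsIntegral O x) :
    ∃ c t : Ω ≃ₐ[L] Ω, τ = c * t ∧
      (∀ M : IntermediateField L Ω, FiniteDimensional L M →
        ∃ m : ℕ, ∀ x ∈ M, c x = (σ ^ m) x) ∧
      (∀ x ∈ V, V.valuation (t x - x) < 1) := by
  haveI : CharZero L := charZero_of_injective_algebraMap (algebraMap k L).injective
  haveI : IsAlgClosure L Ω := ⟨inferInstance, inferInstance⟩
  haveI : Normal L Ω := IsAlgClosure.normal L Ω
  haveI : IsGalois L Ω := ⟨⟩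
  haveI : (v7T O V hV).Normal := v7T_normal O V hV
  set Z : Subgroup (Ω ≃ₐ[L] Ω) := (Subgroup.zpowers σ).topologicalClosure with hZ
  have hZc : IsClosed (Z : Set (Ω ≃ₐ[L] Ω)) := Subgroup.isClosed_topologicalClosure _
  have hcl : IsClosed ((Z ⊔ v7T O V hV : Subgroup (Ω ≃ₐ[L] Ω)) : Set (Ω ≃ₐ[L] Ω)) := by
    rw [Subgroup.mul_normal]
    exact (hZc.isCompact.mul (v7T_closed O V hV).isCompact).isClosed
  have hτ : τ ∈ (Z ⊔ v7T O V hV : Subgroup (Ω ≃ₐ[L] Ω)) := by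
    have h1 : (fixedField (Z ⊔ v7T O V hV : Subgroup (Ω ≃ₐ[L] Ω))).fixingSubgroup =
        Z ⊔ v7T O V hV := InfiniteGalois.fixingSubgroup_fixedField
      (⟨Z ⊔ v7T O V hV, hcl⟩ : ClosedSubgroup (Ω ≃ₐ[L] Ω))
    have h2 : τ ∈ (fixedField (Z ⊔ v7T O V hV : Subgroup (Ω ≃ₐ[L] Ω))).fixingSubgroup := by
      rw [IntermediateField.mem_fixingSubgroup_iff]
      intro x hx
      rw [IntermediateField.mem_fixedField_iff] at hx
      refine v7_main k hℓ P O hk hU V hV x (hx σ ?_) (fun t ht => hx t ?_)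
      · exact le_sup_left (b := v7T O V hV)
          (Subgroup.le_topologicalClosure _ (Subgroup.mem_zpowers σ))
      · exact le_sup_right (a := Z) (show t ∈ v7T O V hV from ht)
    rw [h1] at h2
    exact h2
  have hτ' : τ ∈ ((Z ⊔ v7T O V hV : Subgroup (Ω ≃ₐ[L] Ω)) : Set (Ω ≃ₐ[L] Ω)) := hτ
  rw [Subgroup.mul_normal] at hτ'
  obtain ⟨c, hc, t, ht, hct⟩ := hτ'
  refine ⟨c, t, hct.symm, ?_, ht⟩
  intro M hMfin
  have hc' : c ∈ closure (Subgroup.zpowers σ : Set (Ω ≃ₐ[L] Ω)) := hc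
  rw [mem_closure_iff_nhds] at hc'
  have ho : IsOpen ((fun g : Ω ≃ₐ[L] Ω => c⁻¹ * g) ⁻¹' (M.fixingSubgroup : Set (Ω ≃ₐ[L] Ω))) :=
    (IntermediateField.fixingSubgroup_isOpen M).preimage (continuous_const.mul continuous_id)
  obtain ⟨_, hg1, i, rfl⟩ := hc' _ (ho.mem_nhds (by
    show c⁻¹ * c ∈ M.fixingSubgroup
    rw [inv_mul_cancel]
    exact Subgroup.one_mem _))
  have h1 : ∀ x ∈ M, c x = (σ ^ i) x := by
    intro x hx
    have h2 : (c⁻¹ * σ ^ i) x = x := (IntermediateField.mem_fixingSubgroup_iff _ _).1 hg1 x hx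
    have h3 := congrArg c h2
    rw [← h3]
    exact c.apply_symm_apply _
  obtain ⟨n, hn⟩ := v7_order σ P.pσ M
  refine ⟨(i % ((ℓ ^ n : ℕ) : ℤ)).toNat, fun x hx => ?_⟩
  have hpos : (0 : ℤ) < ((ℓ ^ n : ℕ) : ℤ) := by exact_mod_cast pow_pos hℓ.pos n
  have h4 : (((i % ((ℓ ^ n : ℕ) : ℤ)).toNat : ℕ) : ℤ) = i % ((ℓ ^ n : ℕ) : ℤ) :=
    Int.toNat_of_nonneg (Int.emod_nonneg _ hpos.ne')
  rw [h1 x hx, ← zpow_natCast, h4]
  conv_lhs => rw [← Int.emod_add_mul_ediv i ((ℓ ^ n : ℕ) : ℤ), zpow_add, zpow_mul, zpow_natCast,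
    AlgEquiv.mul_apply]
  congr 1
  have h5 := hn x hx
  generalize i / ((ℓ ^ n : ℕ) : ℤ) = j
  generalize σ ^ (ℓ ^ n) = g at h5
  have h6 : g ∈ MulAction.stabilizer (Ω ≃ₐ[L] Ω) x := h5
  exact (MulAction.mem_stabilizer_iff).1 (Subgroup.zpow_mem _ h6 j)

end Pool.Agent.SB
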