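import Mathlib

set_option autoImplicit false

/-!
# SB-V-15: an automorphism of `ℓ`-power order of an algebraically closed field of characteristic
zero fixing the `ℓ`-th roots of unity and the square roots of `-1` is trivial

If not, some power `ψ` of `φ` has order exactly `ℓ` (and the same properties).  Let `ζ` be a primitive `ℓ`-th root of unity.
The powers `ψ^i`, `i < ℓ`, are distinct, so there is `b` with `w = ∑ ζ^(-i) ψ^i b ≠ 0` (Dedekind); `ψ w = ζ w`.  Let `z ^ ℓ = w` and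
`n = ∏_(i<ℓ) ψ^i z`, `ψ n = n`, `n ^ ℓ = ∏ ψ^i w = ζ^(ℓ(ℓ-1)/2) w^ℓ`.  `ℓ` odd: `n ^ ℓ = w ^ ℓ`, so `w = ζ^j n` is fixed by `ψ`, contradiction
(`w ≠ 0`, `ζ ≠ 1`).  `ℓ = 2`: `n² = -w² = (i w)²`, `w = ± i n` (`i² = -1`, `ψ i = i`) is fixed by `ψ`, contradiction.
-/

namespace Pool.Agent.SB

private theorem as_iter_pow {κ : Type} [Field κ] (ψ : κ ≃+* κ) (i : ℕ) (x : κ) :
    (ψ ^ i) x = ψ^[i] x := by
  induction i generalizing x with
  | zero => rfl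
  | succ i ih =>
    rw [pow_succ', Function.iterate_succ_apply', ← ih]
    rfl

/-- eigenvectors -/
private theorem as_eigen {κ : Type} [Field κ] [CharZero κ] [IsAlgClosed κ] {ℓ : ℕ}
    (hℓ : ℓ.Prime) (ψ : κ ≃+* κ) (hψ : ∀ x, ψ^[ℓ] x = x)
    (hμ : ∀ ζ : κ, ζ ^ ℓ = 1 → ψ ζ = ζ) (a : κ) (ha : ψ a ≠ a) :
    ∃ w ξ : κ, w ≠ 0 ∧ ξ ^ ℓ = 1 ∧ ξ ≠ 1 ∧ ψ w = ξ * w := by
  have hne1 : NeZero ℓ := ⟨hℓ.ne_zero⟩
  have hne2 : NeZero ((ℓ : ℕ) : κ) := ⟨Nat.cast_ne_zero.mpr hℓ.ne_zero⟩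
  obtain ⟨ζ, hζ⟩ := HasEnoughRootsOfUnity.exists_primitiveRoot κ ℓ
  by_contra hcon
  push Not at hcon
  have hζ1 : ζ ^ ℓ = 1 := hζ.pow_eq_one
  have hζ0 : ζ ≠ 0 := hζ.ne_zero hℓ.ne_zero
  obtain ⟨w, hw⟩ : ∃ w : ℕ → κ, w = fun j => ∑ i ∈ Finset.range ℓ, (ζ⁻¹) ^ (i * j) * ψ^[i] a :=
    ⟨_, rfl⟩
  have hfix : ψ (ζ⁻¹) = ζ⁻¹ := by rw [map_inv₀, hμ ζ hζ1]
  have hwj : ∀ j, ψ (w j) = ζ ^ j * w j := by
    intro j
    rw [hw]
    simp only [map_sum, map_mul, map_pow, hfix]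
    have h1 : ∀ i, ζ⁻¹ ^ (i * j) * ψ (ψ^[i] a) = ζ ^ j * (ζ⁻¹ ^ ((i + 1) * j) * ψ^[i + 1] a) := by
      intro i
      rw [Function.iterate_succ_apply', add_mul, one_mul, pow_add]
      have : ζ ^ j * ζ⁻¹ ^ j = 1 := by rw [← mul_pow, mul_inv_cancel₀ hζ0, one_pow]
      calc ζ⁻¹ ^ (i * j) * ψ (ψ^[i] a) = (ζ ^ j * ζ⁻¹ ^ j) * (ζ⁻¹ ^ (i * j) * ψ (ψ^[i] a)) := by
            rw [this, one_mul]
        _ = _ := by ring
    rw [Finset.sum_congr rfl (fun i _ => h1 i), ← Finset.mul_sum]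
    congr 1
    have h2 := Finset.sum_range_succ (fun i => ζ⁻¹ ^ (i * j) * ψ^[i] a) ℓ
    have h3 := Finset.sum_range_succ' (fun i => ζ⁻¹ ^ (i * j) * ψ^[i] a) ℓ
    have h4 : ζ⁻¹ ^ (ℓ * j) * ψ^[ℓ] a = ζ⁻¹ ^ (0 * j) * ψ^[0] a := by
      rw [hψ, pow_mul, inv_pow, hζ1]
      simp
    rw [h3, h4] at h2
    exact add_right_cancel h2
  have hz : ∀ j, 0 < j → j < ℓ → w j = 0 := by
    intro j h0 hj
    by_contra hne
    refine hcon (w j) (ζ ^ j) hne (by rw [← pow_mul, mul_comm, pow_mul, hζ1, one_pow]) ?_ (hwj j)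
    exact hζ.pow_ne_one_of_pos_of_lt h0.ne' hj
  have hsum : ∑ j ∈ Finset.range ℓ, w j = ℓ * a := by
    rw [hw]
    change ∑ j ∈ Finset.range ℓ, ∑ i ∈ Finset.range ℓ, (ζ⁻¹) ^ (i * j) * ψ^[i] a = ℓ * a
    rw [Finset.sum_comm]
    have h1 : ∀ i ∈ Finset.range ℓ, ∑ j ∈ Finset.range ℓ, (ζ⁻¹) ^ (i * j) * ψ^[i] a =
        if i = 0 then (ℓ : κ) * a else 0 := by
      intro i hi
      rw [← Finset.sum_mul]
      split_ifs with h
      · subst h
        simp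
      · have hprim : IsPrimitiveRoot ζ⁻¹ ℓ := hζ.inv
        have hne : (ζ⁻¹) ^ i ≠ 1 := hprim.pow_ne_one_of_pos_of_lt h (Finset.mem_range.mp hi)
        have h2 : ∑ j ∈ Finset.range ℓ, (ζ⁻¹) ^ (i * j) = 0 := by
          simp_rw [pow_mul]
          have h3 := mul_neg_geom_sum ((ζ⁻¹) ^ i) ℓ
          rw [← pow_mul, mul_comm i ℓ, pow_mul, hprim.pow_eq_one, one_pow, sub_self] at h3
          rcases mul_eq_zero.mp h3 with h4 | h4
          · exact absurd (sub_eq_zero.mp h4).symm hne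
          · exact h4
        rw [h2, zero_mul]
    rw [Finset.sum_congr rfl h1]
    simp [hℓ.pos]
  have hw0 : ∑ j ∈ Finset.range ℓ, w j = w 0 := by
    apply Finset.sum_eq_single 0
    · intro j hj hj0
      exact hz j (Nat.pos_of_ne_zero hj0) (Finset.mem_range.mp hj)
    · intro h
      exact absurd (Finset.mem_range.mpr hℓ.pos) h
  have hfa : ψ ((ℓ : κ) * a) = ℓ * a := by
    rw [← hsum, hw0, hwj 0]
    simp
  rw [map_mul, map_natCast] at hfa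
  exact ha (mul_left_cancel₀ (Nat.cast_ne_zero.mpr hℓ.ne_zero) hfa)

private theorem as_core {κ : Type} [Field κ] [CharZero κ] [IsAlgClosed κ] {ℓ : ℕ}
    (hℓ : ℓ.Prime) (ψ : κ ≃+* κ) (hψ : ∀ x, ψ^[ℓ] x = x)
    (hμ : ∀ ζ : κ, ζ ^ ℓ = 1 → ψ ζ = ζ) (hi : ∀ i : κ, i ^ 2 = -1 → ψ i = i) (a : κ) :
    ψ a = a := by
  by_contra ha
  obtain ⟨w, ξ, hw, hξ, hξ1, hψw⟩ := as_eigen hℓ ψ hψ hμ a ha
  obtain ⟨z, hz⟩ := IsAlgClosed.exists_pow_nat_eq w hℓ.pos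
  have hz0 : z ≠ 0 := by
    rintro rfl
    rw [zero_pow hℓ.ne_zero] at hz
    exact hw hz.symm
  obtain ⟨n, hn⟩ : ∃ n : κ, n = ∏ i ∈ Finset.range ℓ, ψ^[i] z := ⟨_, rfl⟩
  have hn1 : ψ n = n := by
    rw [hn, map_prod]
    have h2 := Finset.prod_range_succ (fun i => ψ^[i] z) ℓ
    have h3 := Finset.prod_range_succ' (fun i => ψ^[i] z) ℓ
    rw [h3] at h2
    have h4 : ψ^[ℓ] z = ψ^[0] z := by rw [hψ]; rfl
    rw [h4] at h2
    have h5 := mul_right_cancel₀ (by simpa using hz0) h2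
    rw [← h5]
    apply Finset.prod_congr rfl
    intro i _
    rw [Function.iterate_succ_apply']
  have hit : ∀ i, ψ^[i] w = ξ ^ i * w := by
    intro i
    induction i with
    | zero => simp
    | succ i ih =>
      rw [Function.iterate_succ_apply', ih, map_mul, map_pow, hμ ξ hξ, hψw, pow_succ]
      ring
  have hitp : ∀ i, (ψ^[i] z) ^ ℓ = ψ^[i] w := by
    intro i
    rw [← hz]
    induction i with
    | zero => simp
    | succ i ih => rw [Function.iterate_succ_apply', Function.iterate_succ_apply', ← ih, map_pow]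
  have hnl : n ^ ℓ = ξ ^ (∑ i ∈ Finset.range ℓ, i) * w ^ ℓ := by
    rw [hn, ← Finset.prod_pow]
    rw [Finset.prod_congr rfl (fun i _ => (hitp i).trans (hit i)), Finset.prod_mul_distrib,
      Finset.prod_pow_eq_pow_sum]
    simp
  have hn0 : n ≠ 0 := by
    rw [hn]
    rw [Finset.prod_ne_zero_iff]
    intro i _ h0
    have := hitp i
    rw [h0, hit, zero_pow hℓ.ne_zero] at this
    have hξ0 : ξ ≠ 0 := by
      rintro rfl
      rw [zero_pow hℓ.ne_zero] at hξ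
      exact zero_ne_one hξ
    exact mul_ne_zero (pow_ne_zero _ hξ0) hw this.symm
  have hfin : ψ (n / w) = n / w → False := by
    intro h
    rw [map_div₀, hn1, hψw] at h
    rw [div_eq_div_iff (mul_ne_zero (by
      rintro rfl
      rw [zero_pow hℓ.ne_zero] at hξ
      exact zero_ne_one hξ) hw) hw] at h
    have h1 := mul_left_cancel₀ hn0 h
    have h2 : (ξ - 1) * w = 0 := by
      rw [sub_mul, one_mul, ← h1, sub_self]
    rcases mul_eq_zero.mp h2 with h3 | h3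
    · exact hξ1 (sub_eq_zero.mp h3)
    · exact hw h3
  rcases hℓ.eq_two_or_odd' with h2 | hodd
  · subst h2
    apply hfin
    apply hi
    have hξm : ξ = -1 := by
      have : (ξ - 1) * (ξ + 1) = 0 := by ring_nf; rw [hξ]; ring
      rcases mul_eq_zero.mp this with h3 | h3
      · exact absurd (sub_eq_zero.mp h3) hξ1
      · exact eq_neg_of_add_eq_zero_left h3
    rw [div_pow, hnl, hξm]
    have : (∑ i ∈ Finset.range 2, i) = 1 := by decide
    rw [this]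
    field_simp
  · apply hfin
    apply hμ
    have h3 : ξ ^ (∑ i ∈ Finset.range ℓ, i) = 1 := by
      obtain ⟨m, hm⟩ := hodd
      have h4 : (∑ i ∈ Finset.range ℓ, i) = ℓ * m := by
        have h5 := Finset.sum_range_id_mul_two ℓ
        have h6 : ℓ - 1 = 2 * m := by omega
        rw [h6] at h5
        have : (∑ i ∈ Finset.range ℓ, i) * 2 = (ℓ * m) * 2 := by rw [h5]; ring
        omega
      rw [h4, pow_mul, hξ, one_pow]
    rw [div_pow, hnl, h3, one_mul, div_self (pow_ne_zero _ hw)]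

theorem artin_schreier {κ : Type} [Field κ] [CharZero κ] [IsAlgClosed κ] {ℓ : ℕ}
    (hℓ : ℓ.Prime) (φ : κ ≃+* κ) (n : ℕ) (hφ : φ ^ (ℓ ^ n) = 1)
    (hμ : ∀ ζ : κ, ζ ^ ℓ = 1 → φ ζ = ζ) (hi : ∀ i : κ, i ^ 2 = -1 → φ i = i) : φ = 1 := by
  induction n with
  | zero => simpa using hφ
  | succ n ih =>
    apply ih
    ext a
    have hfx : ∀ (x : κ), φ x = x → ∀ m : ℕ, (φ ^ m) x = x := by
      intro x hx m
      rw [as_iter_pow]
      exact Function.iterate_fixed hx m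
    have := as_core hℓ (φ ^ (ℓ ^ n)) (fun x => by
      rw [← as_iter_pow, ← pow_mul, ← pow_succ, hφ]
      rfl) (fun ζ h => hfx ζ (hμ ζ h) _) (fun i h => hfx i (hi i h) _) a
    exact this

end Pool.Agent.SB
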