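import Pool.Agent.Helper79.SV.Pair
import Pool.Agent.Helper79.SV.V8a

set_option autoImplicit false

/-!
# SB-V-16: either `τ` is in the inertia group of `V` or `σ` fixes all `ℓ`-power roots of unity

Suppose that `σ` does not fix all roots of unity of `ℓ`-power order: `σ ζ1 ≠ ζ1` for some `ζ1` with `ζ1 ^ (ℓ^r) = 1`, `r ≥ 1`.  `κ` = residue
field of `V`, algebraically closed (as `V` is a valuation ring of an algebraically closed field) of characteristic `0`.  `σ, τ, c, t`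
act on `κ` (they preserve `V`: `hinv`); `t` trivially, so `τ` and `c` act in the same way, by `φ`.  `c` commutes with `σ` (on every element both
are in a field on which `c` is a power of `σ`: use the Galois closure / `hc` for `M` containing `x` and `σ x`).  Let `x ∈ V`.  By `rel` (for
`N ≥ r` large, `q ≥ 1` with `σ ζ = ζ^q` on `ℓ^N`-th roots of unity): `σ τ σ⁻¹ x = τ^q x`; modulo the maximal ideal: `φ x̄ = φ^q x̄` (`σ̄ φ σ̄⁻¹ = φ`
as `c` commutes with `σ`), so `φ^(q-1)` fixes `x̄`; also `φ^(ℓ^n)` fixes `x̄` for some `n` (`pτ`).  Since `σ ζ1 = ζ1^q ≠ ζ1`, `ℓ^r` does not divide `q - 1`, so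
`gcd(q-1, ℓ^n)` divides `ℓ^(r-1)` and `φ^(ℓ^(r-1))` fixes `x̄`.  So `φ^(ℓ^(r-1)) = 1`.  `φ` fixes the images of all elements algebraic over `k` (`bar`), in
particular all roots of unity of `κ` (they are images of roots of unity of `Ω`, char 0).  By `artin_schreier` `φ = 1`: `τ` is trivial on `κ`.
-/

open IntermediateField

namespace Pool.Agent.SB

private theorem v8_iter {κ : Type} [Field κ] (ψ : κ ≃+* κ) (i : ℕ) (x : κ) :
    (ψ ^ i) x = ψ^[i] x := by
  induction i generalizing x with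
  | zero => rfl
  | succ i ih =>
    rw [pow_succ', Function.iterate_succ_apply', ← ih]
    rfl

private noncomputable def resV {L Ω : Type} [Field L] [Field Ω] [Algebra L Ω]
    (V : ValuationSubring Ω) (hinv : ∀ (g : Ω ≃ₐ[L] Ω) (x : Ω), g x ∈ V ↔ x ∈ V) :
    (Ω ≃ₐ[L] Ω) →* RingAut V where
  toFun g :=
    { toFun := fun x => ⟨g x, (hinv g x).2 x.2⟩
      invFun := fun x => ⟨g⁻¹ x, (hinv g⁻¹ x).2 x.2⟩
      left_inv := fun x => Subtype.ext (by
        change g⁻¹ (g x) = x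
        exact g.symm_apply_apply x)
      right_inv := fun x => Subtype.ext (by
        change g (g⁻¹ x) = x
        exact g.apply_symm_apply x)
      map_mul' := fun x y => Subtype.ext (map_mul g _ _)
      map_add' := fun x y => Subtype.ext (map_add g _ _) }
  map_one' := by
    ext x
    rfl
  map_mul' := fun g h => by
    ext x
    rfl

private noncomputable def resK {L Ω : Type} [Field L] [Field Ω] [Algebra L Ω]
    (V : ValuationSubring Ω) (hinv : ∀ (g : Ω ≃ₐ[L] Ω) (x : Ω), g x ∈ V ↔ x ∈ V) :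
    (Ω ≃ₐ[L] Ω) →* RingAut (IsLocalRing.ResidueField V) :=
  IsLocalRing.ResidueField.mapAut.comp (resV V hinv)

private theorem resK_apply {L Ω : Type} [Field L] [Field Ω] [Algebra L Ω]
    (V : ValuationSubring Ω) (hinv : ∀ (g : Ω ≃ₐ[L] Ω) (x : Ω), g x ∈ V ↔ x ∈ V)
    (g : Ω ≃ₐ[L] Ω) (x : V) :
    resK V hinv g (IsLocalRing.residue V x) =
      IsLocalRing.residue V ⟨g x, (hinv g x).2 x.2⟩ := rfl

private theorem res_eq_iff {Ω : Type} [Field Ω] (V : ValuationSubring Ω) (x y : V) :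
    IsLocalRing.residue V x = IsLocalRing.residue V y ↔ V.valuation ((x : Ω) - y) < 1 := by
  rw [← sub_eq_zero, ← map_sub, IsLocalRing.residue_eq_zero_iff, ValuationSubring.valuation_lt_one_iff]
  rfl

private theorem res_isAlgClosed {Ω : Type} [Field Ω] [IsAlgClosed Ω] (V : ValuationSubring Ω) :
    IsAlgClosed (IsLocalRing.ResidueField V) := by
  apply IsAlgClosed.of_exists_root
  intro p hp hirr
  have hl : p ∈ Polynomial.lifts (IsLocalRing.residue V) := by
    rw [Polynomial.lifts_iff_coeff_lifts]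
    intro n
    exact IsLocalRing.residue_surjective _
  obtain ⟨q, hq, hdeg, hmon⟩ := Polynomial.lifts_and_degree_eq_and_monic hl hp
  have hqd : (q.map (algebraMap V Ω)).degree ≠ 0 := by
    rw [hmon.degree_map, hdeg]
    intro h0
    exact hirr.not_isUnit (Polynomial.isUnit_iff_degree_eq_zero.mpr h0)
  obtain ⟨x, hx⟩ := IsAlgClosed.exists_root _ hqd
  have hint : IsIntegral V x := by
    refine ⟨q, hmon, ?_⟩
    rw [Polynomial.IsRoot.def, Polynomial.eval_map] at hx
    exact hx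
  obtain ⟨y, hy⟩ := (IsIntegrallyClosed.isIntegral_iff (R := V) (K := Ω)).mp hint
  refine ⟨IsLocalRing.residue V y, ?_⟩
  rw [← hq, Polynomial.eval_map, Polynomial.eval₂_at_apply]
  have h0 : Polynomial.eval y q = 0 := by
    apply FaithfulSMul.algebraMap_injective V Ω
    rw [map_zero, ← Polynomial.eval₂_at_apply, hy, ← Polynomial.eval_map]
    exact hx
  rw [h0, map_zero]

theorem pair_dichotomy (k : Type) [Field k] [CharZero k] {L Ω : Type} [Field L] [Field Ω]
    [Algebra k L] [Algebra L Ω] [Algebra k Ω] [IsScalarTower k L Ω] [IsAlgClosed Ω]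
    [Algebra.IsAlgebraic L Ω] {ℓ : ℕ} (hℓ : ℓ.Prime) {σ τ : Ω ≃ₐ[L] Ω} (P : TPair k ℓ σ τ)
    (V : ValuationSubring Ω) (hk : ∀ a : Ω, IsAlgebraic k a → a ∈ V)
    (hinv : ∀ (g : Ω ≃ₐ[L] Ω) (x : Ω), g x ∈ V ↔ x ∈ V) (c t : Ω ≃ₐ[L] Ω) (hct : τ = c * t)
    (hc : ∀ M : IntermediateField L Ω, FiniteDimensional L M →
      ∃ m : ℕ, ∀ x ∈ M, c x = (σ ^ m) x)
    (ht : ∀ x ∈ V, V.valuation (t x - x) < 1) :
    (∀ x ∈ V, V.valuation (τ x - x) < 1) ∨
      (∀ (N : ℕ) (ζ : Ω), ζ ^ (ℓ ^ N) = 1 → σ ζ = ζ) := by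
  by_cases hall : ∀ (N : ℕ) (ζ : Ω), ζ ^ (ℓ ^ N) = 1 → σ ζ = ζ
  · exact Or.inr hall
  left
  push Not at hall
  obtain ⟨N0, ζ1, hζ1, hσζ1⟩ := hall
  have hcl : IsAlgClosed (IsLocalRing.ResidueField V) := res_isAlgClosed V
  have hchΩ : CharZero Ω := charZero_of_injective_algebraMap (algebraMap k Ω).injective
  -- characteristic zero
  have hch : CharZero (IsLocalRing.ResidueField V) := by
    apply charZero_of_inj_zero
    intro n hn
    by_contra hn0
    have hmem : ((n : Ω))⁻¹ ∈ V := by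
      apply hk
      have : ((n : Ω))⁻¹ = algebraMap k Ω ((n : k)⁻¹) := by simp
      rw [this]
      exact isAlgebraic_algebraMap _
    have h1 : (⟨(n : Ω)⁻¹, hmem⟩ : V) * (n : V) = 1 := by
      apply Subtype.ext
      change (n : Ω)⁻¹ * ((n : V) : Ω) = 1
      have : ((n : V) : Ω) = (n : Ω) := by simp
      rw [this, inv_mul_cancel₀ (Nat.cast_ne_zero.mpr hn0)]
    have h2 := congrArg (IsLocalRing.residue V) h1
    rw [map_mul, map_natCast, hn, mul_zero, map_one] at h2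
    exact zero_ne_one h2
  -- commutation
  have hcomm : c * σ = σ * c := by
    ext x
    have hfin : FiniteDimensional L (IntermediateField.adjoin L ({x, σ x} : Set Ω)) := by
      apply IntermediateField.finiteDimensional_adjoin
      intro y _
      exact (Algebra.IsAlgebraic.isAlgebraic (R := L) y).isIntegral
    obtain ⟨m, hm⟩ := hc _ hfin
    change c (σ x) = σ (c x)
    rw [hm (σ x) (IntermediateField.subset_adjoin _ _ (by simp)),
      hm x (IntermediateField.subset_adjoin _ _ (by simp))]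
    change (σ ^ m * σ) x = (σ * σ ^ m) x
    rw [← pow_succ, ← pow_succ']
  obtain ⟨φ, hφ⟩ : ∃ φ : RingAut (IsLocalRing.ResidueField V), φ = resK V hinv τ := ⟨_, rfl⟩
  have htk : resK V hinv t = 1 := by
    ext X
    obtain ⟨x, rfl⟩ := IsLocalRing.residue_surjective X
    rw [resK_apply]
    change _ = IsLocalRing.residue V x
    rw [res_eq_iff]
    exact ht x x.2
  have hφc : φ = resK V hinv c := by
    rw [hφ, hct, map_mul, htk, mul_one]
  have hconj : resK V hinv (σ * τ * σ⁻¹) = φ := by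
    have h1 : resK V hinv σ * φ = φ * resK V hinv σ := by
      rw [hφc, ← map_mul, ← map_mul, hcomm]
    rw [map_mul, map_mul, ← hφ, h1, mul_assoc, ← map_mul, mul_inv_cancel, map_one, mul_one]
  -- periods
  have hper : ∀ X : IsLocalRing.ResidueField V, Function.IsPeriodicPt φ (ℓ ^ N0) X := by
    intro X
    obtain ⟨x, rfl⟩ := IsLocalRing.residue_surjective X
    obtain ⟨n, hn⟩ := P.pτ x
    obtain ⟨N, hN⟩ := P.rel x
    obtain ⟨N', hN'⟩ : ∃ N', N' = max N N0 := ⟨_, rfl⟩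
    have hℓN : (ℓ ^ N') ≠ 0 := pow_ne_zero _ hℓ.ne_zero
    have hne1 : NeZero (ℓ ^ N') := ⟨hℓN⟩
    have hne2 : NeZero ((ℓ ^ N' : ℕ) : Ω) := ⟨Nat.cast_ne_zero.mpr hℓN⟩
    obtain ⟨ζ, hζ⟩ := HasEnoughRootsOfUnity.exists_primitiveRoot Ω (ℓ ^ N')
    have hσζ : (σ ζ) ^ (ℓ ^ N') = 1 := by rw [← map_pow, hζ.pow_eq_one, map_one]
    obtain ⟨q0, hq0lt, hq0⟩ := hζ.eq_pow_of_pow_eq_one hσζ
    obtain ⟨q, hq⟩ : ∃ q, q = q0 + ℓ ^ N' := ⟨_, rfl⟩
    have hq1 : 1 ≤ q := by
      have : 1 ≤ ℓ ^ N' := Nat.one_le_iff_ne_zero.mpr hℓN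
      omega
    have hσq : ∀ ξ : Ω, ξ ^ (ℓ ^ N') = 1 → σ ξ = ξ ^ q := by
      intro ξ hξ
      obtain ⟨j, _, rfl⟩ := hζ.eq_pow_of_pow_eq_one hξ
      rw [map_pow, ← hq0, hq, pow_add, hξ, mul_one, ← pow_mul, ← pow_mul, mul_comm]
    have hup : ∀ (M : ℕ) (ξ : Ω), M ≤ N' → ξ ^ (ℓ ^ M) = 1 → ξ ^ (ℓ ^ N') = 1 := by
      intro M ξ hM hξ
      obtain ⟨d, hd⟩ := Nat.exists_eq_add_of_le hM
      rw [hd, pow_add, pow_mul, hξ, one_pow]
    have hrel := hN q (fun ξ hξ => hσq ξ (hup N ξ (by omega) hξ))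
    have hqφ : (φ ^ q) (IsLocalRing.residue V x) = φ (IsLocalRing.residue V x) := by
      have h1 : φ (IsLocalRing.residue V x) =
          resK V hinv (σ * τ * σ⁻¹) (IsLocalRing.residue V x) := by rw [hconj]
      have h2 : (φ ^ q) (IsLocalRing.residue V x) =
          resK V hinv (τ ^ q) (IsLocalRing.residue V x) := by rw [map_pow, hφ]
      rw [h1, h2, resK_apply, resK_apply]
      congr 1
      exact Subtype.ext hrel.symm
    have hq2 : Function.IsPeriodicPt φ (q - 1) (IsLocalRing.residue V x) := by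
      have h3 : (φ ^ q) (IsLocalRing.residue V x) =
          φ ((φ ^ (q - 1)) (IsLocalRing.residue V x)) := by
        have : q = (q - 1) + 1 := by omega
        conv_lhs => rw [this, pow_succ']
        rfl
      rw [h3] at hqφ
      have h4 := φ.injective hqφ
      rw [v8_iter] at h4
      exact h4
    have hn2 : Function.IsPeriodicPt φ (ℓ ^ n) (IsLocalRing.residue V x) := by
      have h5 : (φ ^ (ℓ ^ n)) (IsLocalRing.residue V x) = IsLocalRing.residue V x := by
        rw [hφ, ← map_pow, resK_apply]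
        congr 1
        exact Subtype.ext hn
      rw [v8_iter] at h5
      exact h5
    have hg := hq2.gcd hn2
    obtain ⟨j, hj, hgj⟩ := (Nat.dvd_prime_pow hℓ).mp (Nat.gcd_dvd_right (q - 1) (ℓ ^ n))
    have hjN : j ≤ N0 := by
      by_contra hlt
      push Not at hlt
      have hd : ℓ ^ N0 ∣ q - 1 :=
        (pow_dvd_pow ℓ hlt.le).trans (hgj ▸ Nat.gcd_dvd_left (q - 1) (ℓ ^ n))
      obtain ⟨e, he⟩ := hd
      apply hσζ1
      rw [hσq ζ1 (hup N0 ζ1 (by omega) hζ1)]
      have : q = ℓ ^ N0 * e + 1 := by omega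
      rw [this, pow_succ, pow_mul, hζ1, one_pow, one_mul]
    rw [hgj] at hg
    exact hg.trans_dvd (pow_dvd_pow ℓ hjN)
  have hφ1 : φ ^ (ℓ ^ N0) = 1 := by
    ext X
    rw [v8_iter]
    exact hper X
  have halg : ∀ (a : Ω) (ha : a ∈ V), IsAlgebraic k a →
      φ (IsLocalRing.residue V ⟨a, ha⟩) = IsLocalRing.residue V ⟨a, ha⟩ := by
    intro a ha hal
    rw [hφ, resK_apply]
    congr 1
    exact Subtype.ext (P.bar a hal)
  have hμ : ∀ ζ : IsLocalRing.ResidueField V, ζ ^ ℓ = 1 → φ ζ = ζ := by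
    intro Z hZ
    obtain ⟨x, rfl⟩ := IsLocalRing.residue_surjective Z
    have hne1 : NeZero ℓ := ⟨hℓ.ne_zero⟩
    have hne2 : NeZero ((ℓ : ℕ) : Ω) := ⟨Nat.cast_ne_zero.mpr hℓ.ne_zero⟩
    obtain ⟨ζ, hζ⟩ := HasEnoughRootsOfUnity.exists_primitiveRoot Ω ℓ
    have halgζ : ∀ ξ : Ω, ξ ^ ℓ = 1 → IsAlgebraic k ξ := by
      intro ξ hξ
      refine IsAlgebraic.of_pow hℓ.pos ?_
      rw [hξ]
      exact isAlgebraic_one
    have hζV : ζ ∈ V := hk ζ (halgζ ζ hζ.pow_eq_one)
    have hprimV : IsPrimitiveRoot (⟨ζ, hζV⟩ : V) ℓ := by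
      apply IsPrimitiveRoot.of_map_of_injective (f := V.subtype) (by exact hζ)
        Subtype.val_injective
    have hprod := hprimV.pow_sub_pow_eq_prod_sub_mul (x := x) (y := 1) hℓ.pos
    have hpr2 := congrArg (IsLocalRing.residue V) hprod
    rw [map_sub, map_pow, hZ, one_pow, map_one, sub_self, map_prod] at hpr2
    obtain ⟨ξ, hξm, hξ⟩ := Finset.prod_eq_zero_iff.mp hpr2.symm
    rw [mul_one, map_sub, sub_eq_zero] at hξ
    rw [hξ]
    have hξ1 : ξ ^ ℓ = 1 := (Polynomial.mem_nthRootsFinset hℓ.pos _).mp hξm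
    exact halg ξ ξ.2 (halgζ ξ (by exact congrArg Subtype.val hξ1))
  have hi : ∀ i : IsLocalRing.ResidueField V, i ^ 2 = -1 → φ i = i := by
    intro Z hZ
    obtain ⟨x, rfl⟩ := IsLocalRing.residue_surjective Z
    obtain ⟨j, hj⟩ := IsAlgClosed.exists_pow_nat_eq (-1 : Ω) (n := 2) (by norm_num)
    have hjal : IsAlgebraic k j := by
      refine IsAlgebraic.of_pow (n := 2) (by norm_num) ?_
      rw [hj]
      exact isAlgebraic_one.neg
    have hjV : j ∈ V := hk j hjal
    have hj2 : (⟨j, hjV⟩ : V) ^ 2 = -1 := Subtype.ext hj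
    have h1 : (IsLocalRing.residue V x - IsLocalRing.residue V ⟨j, hjV⟩) *
        (IsLocalRing.residue V x + IsLocalRing.residue V ⟨j, hjV⟩) = 0 := by
      have h2 : (IsLocalRing.residue V ⟨j, hjV⟩) ^ 2 = -1 := by
        rw [← map_pow, hj2, map_neg, map_one]
      ring_nf
      rw [hZ, h2]
      ring
    rcases mul_eq_zero.mp h1 with h | h
    · rw [sub_eq_zero.mp h]
      exact halg j hjV hjal
    · rw [eq_neg_of_add_eq_zero_left h, map_neg, halg j hjV hjal]
  have hone := artin_schreier hℓ φ N0 hφ1 hμ hi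
  intro x hx
  have h1 := res_eq_iff V ⟨τ x, (hinv τ x).2 hx⟩ ⟨x, hx⟩
  rw [← h1]
  change resK V hinv τ (IsLocalRing.residue V ⟨x, hx⟩) = _
  rw [← hφ, hone]
  rfl

end Pool.Agent.SB
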