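import Mathlib

set_option autoImplicit false

/-!
# PROJECT SB, block V: definitions

`L` a field, `C` a subfield (the constants), `χ : L → ZMod ℓ` a character of the multiplicative
group trivial on `C`.
-/

namespace Pool.Agent.SB

variable {L : Type} [Field L]

/-- `χ` is a homomorphism `L^* → ZMod ℓ` trivial on `C^*` -/
structure IsChar {ℓ : ℕ} (C : Subfield L) (χ : L → ZMod ℓ) : Prop where
  mul : ∀ u v, u ≠ 0 → v ≠ 0 → χ (u * v) = χ u + χ v
  const : ∀ c ∈ C, c ≠ 0 → χ c = 0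

/-- for every `u` outside `C` the function `c ↦ χ (u - c)`, `∞ ↦ 0` on `P¹(C)` is constant with
at most one exception -/
def IsFlag {ℓ : ℕ} (C : Subfield L) (χ : L → ZMod ℓ) : Prop :=
  ∀ u, u ∉ C → (∃ e ∈ C, ∀ c ∈ C, c ≠ e → χ (u - c) = 0) ∨ (∃ a, ∀ c ∈ C, χ (u - c) = a)

/-- the set `N`: elements `w` with `χ w ≠ 0` infinitely smaller than `1` -/
def flagN {ℓ : ℕ} (C : Subfield L) (χ : L → ZMod ℓ) : Set L :=
  {w | χ w ≠ 0 ∧ ∀ c ∈ C, χ (1 + c * w) = 0}

/-- a set `B` of vectors, stable under scalars, such that every plane `span {u, v}` has at most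
one line inside `B` or at most one line outside `B` -/
structure LineFlag (C : Type) [Field C] {V : Type} [AddCommGroup V] [Module C V] (B : Set V) :
    Prop where
  smul : ∀ (c : C) (v : V), c ≠ 0 → (c • v ∈ B ↔ v ∈ B)
  line : ∀ u v : V,
    (∀ x ∈ Submodule.span C {u, v}, ∀ y ∈ Submodule.span C {u, v}, x ≠ 0 → y ≠ 0 →
      x ∈ B → y ∈ B → ∃ c : C, y = c • x) ∨
    (∀ x ∈ Submodule.span C {u, v}, ∀ y ∈ Submodule.span C {u, v}, x ≠ 0 → y ≠ 0 →
      x ∉ B → y ∉ B → ∃ c : C, y = c • x)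

end Pool.Agent.SB
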