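import Pool.Agent.Helper79.SV.Defs

set_option autoImplicit false

/-!
# PROJECT SB, block V: pro-`ℓ` tame pairs

`k ⊆ L ⊆ Ω`, `Ω` an algebraic closure of `L`; `σ, τ` generate `Gal(Ω/L)` topologically (`fix`).
-/

open IntermediateField

namespace Pool.Agent.SB

/-- a pro-`ℓ` tame pair: `σ, τ ∈ Gal(Ω/L)` with fixed field `L`, of `ℓ`-power order on every
element, `σ τ σ⁻¹ = τ ^ q` for the `ℓ`-adic `q` with `σ ζ = ζ ^ q` on `ℓ`-power roots of unity,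
`σ` fixes the `ℓ`-th roots of unity and `τ` fixes all elements algebraic over `k` -/
structure TPair (k : Type) [Field k] {L Ω : Type} [Field L] [Field Ω] [Algebra k L]
    [Algebra L Ω] [Algebra k Ω] [IsScalarTower k L Ω] (ℓ : ℕ) (σ τ : Ω ≃ₐ[L] Ω) : Prop where
  fix : ∀ x : Ω, σ x = x → τ x = x → x ∈ (algebraMap L Ω).range
  pσ : ∀ x : Ω, ∃ n : ℕ, (σ ^ (ℓ ^ n)) x = x
  pτ : ∀ x : Ω, ∃ n : ℕ, (τ ^ (ℓ ^ n)) x = x
  rel : ∀ x : Ω, ∃ N : ℕ, ∀ q : ℕ, (∀ ζ : Ω, ζ ^ (ℓ ^ N) = 1 → σ ζ = ζ ^ q) →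
    (σ * τ * σ⁻¹) x = (τ ^ q) x
  mu : ∀ ζ : Ω, ζ ^ ℓ = 1 → σ ζ = ζ
  bar : ∀ a : Ω, IsAlgebraic k a → τ a = a

/-- the constants of `L`: elements algebraic over `k` -/
def consts (k L : Type) [Field k] [Field L] [Algebra k L] : Subfield L :=
  (algebraicClosure k L).toSubfield

theorem mem_consts {k L : Type} [Field k] [Field L] [Algebra k L] (x : L) :
    x ∈ consts k L ↔ IsAlgebraic k x := mem_algebraicClosure_iff

/-- the weight property of a pair: for `x` transcendental over `k` and distinct constants `c i`,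
if `τ` fixes an `ℓ`-th root of `(x - c 0)(x - c 2)/(x - c 1)` then it fixes the `ℓ`-th roots of
the `x - c i` -/
def WeightProp (k : Type) [Field k] {L Ω : Type} [Field L] [Field Ω] [Algebra k L]
    [Algebra L Ω] (ℓ : ℕ) (τ : Ω ≃ₐ[L] Ω) : Prop :=
  ∀ (x : L) (c : Fin 3 → L) (y : Ω), Transcendental k x → (∀ i, IsAlgebraic k (c i)) →
    Function.Injective c →
    y ^ ℓ * algebraMap L Ω (x - c 1) = algebraMap L Ω ((x - c 0) * (x - c 2)) → τ y = y →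
    ∀ (i : Fin 3) (ω : Ω), ω ^ ℓ = algebraMap L Ω (x - c i) → τ ω = ω

/-- `χ` is the Kummer character of `τ` -/
def IsKummer {L Ω : Type} [Field L] [Field Ω] [Algebra L Ω] {ℓ : ℕ} (τ : Ω ≃ₐ[L] Ω) (ζ : Ω)
    (χ : L → ZMod ℓ) : Prop :=
  ∀ (u : L) (y : Ω), u ≠ 0 → y ^ ℓ = algebraMap L Ω u → τ y = ζ ^ (χ u).val * y

end Pool.Agent.SB
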