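import Pool.Agent.Helper79.SV.Defs

set_option autoImplicit false

/-!
# SB-V-01: the weight property implies the flag property

Put `F_u(c) = χ (u - c)` for `c ∈ C`, `F_u(∞) = 0`; `u ∉ C`, so `u - c ≠ 0`.
STEP 1 (four points).  For four distinct points `e1, e2, e3, e4` of `P¹(C)` with
`F(e1) + F(e3) = F(e2) + F(e4)` all four values are equal.  If one of the points is `∞` this is
`hw` (the one on the side of `∞` is alone).  If all are in `C`, apply this to `u' = 1/(u - e4)`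
(not in `C`) and `e_i' = 1/(e_i - e4)`: `u' - 1/(e - e4) = -(u - e)/((u - e4)(e - e4))`, so
`F_{u'}(1/(e-e4)) = F_u(e) - F_u(e4)`.
STEP 2.  `C` is infinite, `ZMod ℓ` finite: some value `a` is taken by `F_u` at infinitely many
`c ∈ C`; every other value is taken at most once on `P¹(C)` (two points of value `b ≠ a` and two of
value `a` contradict Step 1).  So there are finitely many exceptional points.
STEP 3.  Suppose there are two exceptional points `P ≠ e` with values `b`, `c` (`a, b, c` distinct).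
Let `w = (u - P)/(u - e)` (if `P = ∞`: `w = 1/(u - e)`; if `e = ∞`: `w = u - P`).  Then `w ∉ C`,
`F_w(0) = χ w = β := b - c`, `F_w(∞) = 0`, and `F_w(t) = α := a - c` for all `t ∈ C` outside a finite
set `X` (Moebius: `w - t` is a constant times `(u - t')/(u - e)`).  `α ≠ 0`, `β ≠ α`.  Let
`1 ≤ j ≤ ℓ - 1` with `β + (j-1) α = 0` in `ZMod ℓ` (`j = 1 - β/α`, not `0` as `β ≠ α`).  Let `ζ ∈ C` be a
primitive `j`-th root of unity.  Choose `λ ∈ C^*` such that `λ⁻¹` and all `λ⁻¹ (1 - ζ^i)`, `0 < i < j`,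
are not in `X`.  Let `z = (1 - λ w)^j`, not in `C` by `hpow`.  `z - t^j = ∏_i ((1 - λ w) - ζ^i t)
= ∏_i (-λ)(w - λ⁻¹ (1 - ζ^i t))`.  So `F_z(1) = χ(λ w) + (j-1) α = β + (j-1) α = 0 = F_z(∞)`, and
`F_z(t^j) = j α ≠ 0` for all but finitely many `t ∈ C` (infinitely many different `t^j`): two points of
value `0` and two of value `j α`, contradiction to Step 1 for `z`.
CONCLUSION: at most one exceptional point.  If it is `e ∈ C`, then `∞` is not exceptional, `a = 0`:
first alternative.  Otherwise `F(c) = a` for all `c ∈ C`.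
-/

namespace Pool.Agent.SB

private theorem v1_one {L : Type} [Field L] {ℓ : ℕ} {C : Subfield L} {χ : L → ZMod ℓ}
    (hχ : IsChar C χ) : χ 1 = 0 := hχ.const 1 C.one_mem one_ne_zero

private theorem v1_inv {L : Type} [Field L] {ℓ : ℕ} {C : Subfield L} {χ : L → ZMod ℓ}
    (hχ : IsChar C χ) {x : L} (hx : x ≠ 0) : χ x⁻¹ = - χ x := by
  have h1 := hχ.mul x x⁻¹ hx (inv_ne_zero hx)
  rw [mul_inv_cancel₀ hx, v1_one hχ] at h1
  exact (neg_eq_of_add_eq_zero_right h1.symm).symm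

private theorem v1_div {L : Type} [Field L] {ℓ : ℕ} {C : Subfield L} {χ : L → ZMod ℓ}
    (hχ : IsChar C χ) {x y : L} (hx : x ≠ 0) (hy : y ≠ 0) : χ (x / y) = χ x - χ y := by
  rw [div_eq_mul_inv, hχ.mul x y⁻¹ hx (inv_ne_zero hy), v1_inv hχ hy, sub_eq_add_neg]

private theorem v1_cmul {L : Type} [Field L] {ℓ : ℕ} {C : Subfield L} {χ : L → ZMod ℓ}
    (hχ : IsChar C χ) {c x : L} (hc : c ∈ C) (hc0 : c ≠ 0) (hx : x ≠ 0) : χ (c * x) = χ x := by
  rw [hχ.mul c x hc0 hx, hχ.const c hc hc0, zero_add]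

/-- the value at a point of the projective line -/
private def v1F {L : Type} [Field L] {ℓ : ℕ} (χ : L → ZMod ℓ) (u : L) : Option L → ZMod ℓ
  | none => 0
  | some c => χ (u - c)

private def v1Pt {L : Type} [Field L] (C : Subfield L) (P : Option L) : Prop :=
  ∀ c, P = some c → c ∈ C

private def v1W {L : Type} [Field L] {ℓ : ℕ} (C : Subfield L) (χ : L → ZMod ℓ) : Prop :=
  ∀ u, u ∉ C → ∀ c0 ∈ C, ∀ c1 ∈ C, ∀ c2 ∈ C, c0 ≠ c1 → c1 ≠ c2 → c0 ≠ c2 →
      χ (u - c0) + χ (u - c2) = χ (u - c1) →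
      χ (u - c0) = 0 ∧ χ (u - c1) = 0 ∧ χ (u - c2) = 0

private theorem v1_ne {L : Type} [Field L] {C : Subfield L} {u c : L} (hu : u ∉ C) (hc : c ∈ C) :
    u - c ≠ 0 := by
  intro h
  apply hu
  rw [sub_eq_zero.1 h]
  exact hc

private theorem v1_fourC {L : Type} [Field L] {ℓ : ℕ} {C : Subfield L} {χ : L → ZMod ℓ}
    (hχ : IsChar C χ) (hw : v1W C χ) {u : L} (hu : u ∉ C) {a b c d : L} (ha : a ∈ C) (hb : b ∈ C)
    (hc : c ∈ C) (hd : d ∈ C) (hab : a ≠ b) (hac : a ≠ c) (had : a ≠ d) (hbc : b ≠ c)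
    (hbd : b ≠ d) (hcd : c ≠ d) (h : χ (u - a) + χ (u - c) = χ (u - b) + χ (u - d)) :
    χ (u - a) = χ (u - b) ∧ χ (u - a) = χ (u - c) ∧ χ (u - a) = χ (u - d) := by
  have hud : u - d ≠ 0 := v1_ne hu hd
  have hu' : (u - d)⁻¹ ∉ C := by
    intro h1
    apply hu
    have h2 := C.add_mem (C.inv_mem h1) hd
    rwa [inv_inv, sub_add_cancel] at h2
  have hF : ∀ e ∈ C, e ≠ d → χ ((u - d)⁻¹ - (e - d)⁻¹) = χ (u - e) - χ (u - d) := by
    intro e he hed
    have hed' : e - d ≠ 0 := sub_ne_zero.2 hed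
    have hue : u - e ≠ 0 := v1_ne hu he
    have h1 : (u - d)⁻¹ - (e - d)⁻¹ = (-(e - d)⁻¹) * ((u - e) / (u - d)) := by
      field_simp
      ring
    rw [h1, v1_cmul hχ (C.neg_mem (C.inv_mem (C.sub_mem he hd)))
      (neg_ne_zero.2 (inv_ne_zero hed')) (div_ne_zero hue hud), v1_div hχ hue hud]
  have hinj : ∀ e f : L, e ≠ d → f ≠ d → e ≠ f → (e - d)⁻¹ ≠ (f - d)⁻¹ := by
    intro e f _ _ hef h1
    exact hef (sub_left_injective (inv_injective h1))
  have h1 := hw _ hu' _ (C.inv_mem (C.sub_mem ha hd)) _ (C.inv_mem (C.sub_mem hb hd)) _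
    (C.inv_mem (C.sub_mem hc hd)) (hinj a b had hbd hab) (hinj b c hbd hcd hbc)
    (hinj a c had hcd hac) (by
      rw [hF a ha had, hF b hb hbd, hF c hc hcd]
      linear_combination h)
  rw [hF a ha had, hF b hb hbd, hF c hc hcd] at h1
  obtain ⟨h2, h3, h4⟩ := h1
  refine ⟨?_, ?_, ?_⟩
  · linear_combination h2 - h3
  · linear_combination h2 - h4
  · linear_combination h2

private theorem v1_four {L : Type} [Field L] {ℓ : ℕ} {C : Subfield L} {χ : L → ZMod ℓ}
    (hχ : IsChar C χ) (hw : v1W C χ) {u : L} (hu : u ∉ C) {P Q R S : Option L} (hP : v1Pt C P)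
    (hQ : v1Pt C Q) (hR : v1Pt C R) (hS : v1Pt C S) (hPQ : P ≠ Q) (hPR : P ≠ R) (hPS : P ≠ S)
    (hQR : Q ≠ R) (hQS : Q ≠ S) (hRS : R ≠ S)
    (h : v1F χ u P + v1F χ u R = v1F χ u Q + v1F χ u S) :
    v1F χ u P = v1F χ u Q ∧ v1F χ u P = v1F χ u R ∧ v1F χ u P = v1F χ u S := by
  rcases P with _ | a <;> rcases Q with _ | b <;> rcases R with _ | c <;> rcases S with _ | d
  all_goals first
    | exact absurd rfl hPQ
    | exact absurd rfl hPR
    | exact absurd rfl hPS
    | exact absurd rfl hQR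
    | exact absurd rfl hQS
    | exact absurd rfl hRS
    | skip
  · -- P = none
    have hb := hQ b rfl
    have hc := hR c rfl
    have hd := hS d rfl
    change 0 + χ (u - c) = χ (u - b) + χ (u - d) at h
    obtain ⟨h1, h2, h3⟩ := hw u hu b hb c hc d hd (fun e => hQR (by rw [e]))
      (fun e => hRS (by rw [e])) (fun e => hQS (by rw [e])) (by rw [← h, zero_add])
    exact ⟨h1.symm, h2.symm, h3.symm⟩
  · -- Q = none
    have ha := hP a rfl
    have hc := hR c rfl
    have hd := hS d rfl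
    change χ (u - a) + χ (u - c) = 0 + χ (u - d) at h
    obtain ⟨h1, h2, h3⟩ := hw u hu a ha d hd c hc (fun e => hPS (by rw [e]))
      (fun e => hRS (by rw [e])) (fun e => hPR (by rw [e])) (by rw [h, zero_add])
    exact ⟨h1, h1.trans h3.symm, h1.trans h2.symm⟩
  · -- R = none
    have ha := hP a rfl
    have hb := hQ b rfl
    have hd := hS d rfl
    change χ (u - a) + 0 = χ (u - b) + χ (u - d) at h
    obtain ⟨h1, h2, h3⟩ := hw u hu b hb a ha d hd (fun e => hPQ (by rw [e]))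
      (fun e => hPS (by rw [e])) (fun e => hQS (by rw [e])) (by rw [← h, add_zero])
    exact ⟨h2.trans h1.symm, h2, h2.trans h3.symm⟩
  · -- S = none
    have ha := hP a rfl
    have hb := hQ b rfl
    have hc := hR c rfl
    change χ (u - a) + χ (u - c) = χ (u - b) + 0 at h
    obtain ⟨h1, h2, h3⟩ := hw u hu a ha b hb c hc (fun e => hPQ (by rw [e]))
      (fun e => hQR (by rw [e])) (fun e => hPR (by rw [e])) (by rw [h, add_zero])
    exact ⟨h1.trans h2.symm, h1.trans h3.symm, h1⟩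
  · exact v1_fourC hχ hw hu (hP a rfl) (hQ b rfl) (hR c rfl) (hS d rfl)
      (fun e => hPQ (by rw [e])) (fun e => hPR (by rw [e])) (fun e => hPS (by rw [e]))
      (fun e => hQR (by rw [e])) (fun e => hQS (by rw [e])) (fun e => hRS (by rw [e])) h

private theorem v1_two {L : Type} [Field L] {ℓ : ℕ} (hℓ : ℓ.Prime) {C : Subfield L}
    (hC : (C : Set L).Infinite) {χ : L → ZMod ℓ} (hχ : IsChar C χ) (hw : v1W C χ) {u : L}
    (hu : u ∉ C) : ∃ a : ZMod ℓ, ∀ P Q, v1Pt C P → v1Pt C Q → P ≠ Q → v1F χ u P = v1F χ u Q →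
      v1F χ u P = a := by
  classical
  have := Fact.mk hℓ
  obtain ⟨a, ha⟩ : ∃ a : ZMod ℓ, {c | c ∈ C ∧ χ (u - c) = a}.Infinite := by
    by_contra hne
    push Not at hne
    apply hC
    have h1 : (C : Set L) ⊆ ⋃ a : ZMod ℓ, {c | c ∈ C ∧ χ (u - c) = a} := by
      intro c hc
      rw [Set.mem_iUnion]
      exact ⟨χ (u - c), hc, rfl⟩
    exact (Set.finite_iUnion hne).subset h1
  refine ⟨a, fun P Q hP hQ hPQ h => ?_⟩
  have hfin : ∀ R : Option L, {c : L | some c = R}.Finite := by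
    intro R
    refine Set.Subsingleton.finite ?_
    intro x hx y hy
    have h1 : some x = R := hx
    have h2 : some y = R := hy
    exact Option.some_injective _ (h1.trans h2.symm)
  obtain ⟨c, hc, hc'⟩ := (ha.sdiff ((hfin P).union (hfin Q))).nonempty
  obtain ⟨d, hd, hd'⟩ := (ha.sdiff (((hfin P).union (hfin Q)).union (Set.finite_singleton c))).nonempty
  have hcP : P ≠ some c := fun e => hc' (Or.inl e.symm)
  have hcQ : Q ≠ some c := fun e => hc' (Or.inr e.symm)
  have hdP : P ≠ some d := fun e => hd' (Or.inl (Or.inl e.symm))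
  have hdQ : Q ≠ some d := fun e => hd' (Or.inl (Or.inr e.symm))
  have hdc : some c ≠ some d := fun e => hd' (Or.inr (Option.some_injective _ e).symm)
  have hsome : ∀ x : L, x ∈ C → v1Pt C (some x) := by
    intro x hx y hy
    rw [← Option.some_injective _ hy]
    exact hx
  obtain ⟨-, h2, -⟩ := v1_four hχ hw hu hP hQ (hsome c hc.1) (hsome d hd.1) hPQ hcP hdP hcQ hdQ hdc
    (by
      change v1F χ u P + χ (u - c) = v1F χ u Q + χ (u - d)
      rw [h, hc.2, hd.2])
  rw [h2]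
  exact hc.2

private theorem v1_prod {L : Type} [Field L] {ℓ : ℕ} {C : Subfield L} {χ : L → ZMod ℓ}
    (hχ : IsChar C χ) (f : L → L) (s : Finset L) (hf : ∀ x ∈ s, f x ≠ 0) :
    χ (∏ x ∈ s, f x) = ∑ x ∈ s, χ (f x) := by
  classical
  induction s using Finset.induction_on with
  | empty => rw [Finset.prod_empty, Finset.sum_empty, v1_one hχ]
  | insert a s ha ih =>
    rw [Finset.prod_insert ha, Finset.sum_insert ha,
      hχ.mul _ _ (hf a (Finset.mem_insert_self a s))
        (Finset.prod_ne_zero_iff.2 fun x hx => hf x (Finset.mem_insert_of_mem hx)),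
      ih fun x hx => hf x (Finset.mem_insert_of_mem hx)]

private theorem v1_noW {L : Type} [Field L] {ℓ : ℕ} (hℓ : ℓ.Prime) {C : Subfield L}
    (hC : (C : Set L).Infinite) {χ : L → ZMod ℓ} (hχ : IsChar C χ) (hw : v1W C χ)
    (hroots : ∀ i : ℕ, 0 < i → i < ℓ → ∃ ζ ∈ C, IsPrimitiveRoot ζ i)
    (hpow : ∀ (x : L) (j : ℕ), 0 < j → x ^ j ∈ C → x ∈ C) {w : L} (hwC : w ∉ C) {α : ZMod ℓ}
    (hα : α ≠ 0) (hβ : χ w ≠ α) {X : Set L} (hX : X.Finite)
    (hXt : ∀ t ∈ C, t ∉ X → χ (w - t) = α) : False := by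
  classical
  have := Fact.mk hℓ
  obtain ⟨jz, hjz⟩ : ∃ jz : ZMod ℓ, jz = 1 - χ w / α := ⟨_, rfl⟩
  have hjz0 : jz ≠ 0 := by
    intro h
    rw [h] at hjz
    apply hβ
    have h1 : χ w / α = 1 := by linear_combination hjz
    rw [div_eq_iff hα, one_mul] at h1
    exact h1
  obtain ⟨j, hj⟩ : ∃ j : ℕ, j = jz.val := ⟨_, rfl⟩
  have hjc : (j : ZMod ℓ) = jz := by rw [hj, ZMod.natCast_zmod_val]
  have hj0 : 0 < j := by
    rw [hj, Nat.pos_iff_ne_zero, ne_eq, ZMod.val_eq_zero]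
    exact hjz0
  have hjl : j < ℓ := by
    rw [hj]
    exact ZMod.val_lt jz
  have hβj : χ w + ((j : ZMod ℓ) - 1) * α = 0 := by
    rw [hjc, hjz]
    field_simp
    ring
  obtain ⟨ζ, hζC, hζ⟩ := hroots j hj0 hjl
  obtain ⟨S, hS⟩ : ∃ S : Finset L, S = Polynomial.nthRootsFinset j (1 : L) := ⟨_, rfl⟩
  have hSmem : ∀ x, x ∈ S ↔ x ^ j = 1 := by
    intro x
    rw [hS, Polynomial.mem_nthRootsFinset hj0]
  have hSC : ∀ x ∈ S, x ∈ C := by
    intro x hx
    have : NeZero j := ⟨hj0.ne'⟩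
    obtain ⟨i, -, hi⟩ := hζ.eq_pow_of_pow_eq_one ((hSmem x).1 hx)
    rw [← hi]
    exact C.pow_mem hζC i
  have hS0 : ∀ x ∈ S, x ≠ 0 := by
    rintro x hx rfl
    have h1 := (hSmem 0).1 hx
    rw [zero_pow hj0.ne'] at h1
    exact zero_ne_one h1
  have hScard : S.card = j := by
    rw [hS]
    exact hζ.card_nthRootsFinset
  have h1S : (1 : L) ∈ S := (hSmem 1).2 (one_pow j)
  -- the bad values of `μ`
  obtain ⟨μ, hμC, hμ⟩ : ∃ μ ∈ C, μ ∉ ({0} ∪ ⋃ x ∈ S.erase 1, {μ : L | μ * (1 - x) ∈ X} : Set L) := by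
    have hfin : ({0} ∪ ⋃ x ∈ S.erase 1, {μ : L | μ * (1 - x) ∈ X} : Set L).Finite := by
      refine (Set.finite_singleton 0).union ?_
      refine Set.Finite.biUnion (Finset.finite_toSet (S.erase 1)) fun x hx => ?_
      have hx1 : 1 - x ≠ 0 := sub_ne_zero.2 (Finset.ne_of_mem_erase hx).symm
      exact Set.Finite.preimage ((mul_left_injective₀ hx1).injOn) hX
    obtain ⟨μ, h1, h2⟩ := (hC.sdiff hfin).nonempty
    exact ⟨μ, h1, h2⟩
  have hμ0 : μ ≠ 0 := fun h => hμ (Or.inl h)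
  have hμX : ∀ x ∈ S, x ≠ 1 → μ * (1 - x) ∉ X := by
    intro x hx hx1 h
    apply hμ
    right
    rw [Set.mem_iUnion₂]
    exact ⟨x, Finset.mem_erase.2 ⟨hx1, hx⟩, h⟩
  obtain ⟨z, hz⟩ : ∃ z : L, z = (1 - μ⁻¹ * w) ^ j := ⟨_, rfl⟩
  have hzC : z ∉ C := by
    intro h
    rw [hz] at h
    have h1 := hpow _ j hj0 h
    apply hwC
    have h2 := C.mul_mem hμC (C.sub_mem C.one_mem h1)
    have h3 : μ * (1 - (1 - μ⁻¹ * w)) = w := by
      field_simp
      ring
    rwa [h3] at h2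
  have hval : ∀ t ∈ C, χ (z - t ^ j) = ∑ x ∈ S, χ (w - μ * (1 - x * t)) := by
    intro t ht
    have h1 : z - t ^ j = ∏ x ∈ S, ((1 - μ⁻¹ * w) - x * t) := by
      rw [hz, hS]
      exact hζ.pow_sub_pow_eq_prod_sub_mul _ _ hj0
    have h2 : ∀ x ∈ S, (1 - μ⁻¹ * w) - x * t = (-μ⁻¹) * (w - μ * (1 - x * t)) := by
      intro x _
      field_simp
      ring
    have h3 : ∀ x ∈ S, w - μ * (1 - x * t) ≠ 0 := fun x hx =>
      v1_ne hwC (C.mul_mem hμC (C.sub_mem C.one_mem (C.mul_mem (hSC x hx) ht)))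
    have h4 : -μ⁻¹ ≠ 0 := neg_ne_zero.2 (inv_ne_zero hμ0)
    rw [h1, v1_prod hχ _ S (fun x hx => by rw [h2 x hx]; exact mul_ne_zero h4 (h3 x hx))]
    refine Finset.sum_congr rfl fun x hx => ?_
    rw [h2 x hx, v1_cmul hχ (C.neg_mem (C.inv_mem hμC)) h4 (h3 x hx)]
  have hval1 : χ (z - 1) = 0 := by
    have h1 := hval 1 C.one_mem
    rw [one_pow] at h1
    rw [h1, ← Finset.add_sum_erase S _ h1S]
    have h2 : ∑ x ∈ S.erase 1, χ (w - μ * (1 - x * 1)) = ∑ _x ∈ S.erase 1, α := by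
      refine Finset.sum_congr rfl fun x hx => ?_
      rw [Finset.mem_erase] at hx
      rw [mul_one]
      exact hXt _ (C.mul_mem hμC (C.sub_mem C.one_mem (hSC x hx.2))) (hμX x hx.2 hx.1)
    rw [h2, Finset.sum_const, Finset.card_erase_of_mem h1S, hScard, mul_one, sub_self, mul_zero,
      sub_zero, nsmul_eq_mul, Nat.cast_sub hj0, Nat.cast_one]
    exact hβj
  -- the bad values of `t`
  obtain ⟨Y, hY⟩ : ∃ Y : Set L, Y = ⋃ x ∈ S, {t : L | μ * (1 - x * t) ∈ X} := ⟨_, rfl⟩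
  have hYfin : Y.Finite := by
    rw [hY]
    refine Set.Finite.biUnion (Finset.finite_toSet S) fun x hx => ?_
    refine Set.Finite.preimage (f := fun t : L => μ * (1 - x * t)) ?_ hX
    intro a _ b _ hab
    have h1 : 1 - x * a = 1 - x * b := mul_left_cancel₀ hμ0 hab
    have h2 : x * a = x * b := by linear_combination -h1
    exact mul_left_cancel₀ (hS0 x hx) h2
  have hYt : ∀ t ∈ C, t ∉ Y → χ (z - t ^ j) = (j : ZMod ℓ) * α := by
    intro t ht htY
    have h2 : ∑ x ∈ S, χ (w - μ * (1 - x * t)) = ∑ _x ∈ S, α := by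
      refine Finset.sum_congr rfl fun x hx => ?_
      refine hXt _ (C.mul_mem hμC (C.sub_mem C.one_mem (C.mul_mem (hSC x hx) ht))) ?_
      intro h
      apply htY
      rw [hY, Set.mem_iUnion₂]
      exact ⟨x, hx, h⟩
    rw [hval t ht, h2, Finset.sum_const, hScard, nsmul_eq_mul]
  have hpfin : ∀ c : L, {t : L | t ^ j = c}.Finite := by
    intro c
    refine (Finset.finite_toSet (Polynomial.nthRoots j c).toFinset).subset ?_
    intro t ht
    rw [Finset.mem_coe, Multiset.mem_toFinset, Polynomial.mem_nthRoots hj0]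
    exact ht
  obtain ⟨t1, ht1, ht1'⟩ := (hC.sdiff (hYfin.union (hpfin 1))).nonempty
  obtain ⟨t2, ht2, ht2'⟩ :=
    (hC.sdiff ((hYfin.union (hpfin 1)).union (hpfin (t1 ^ j)))).nonempty
  have hsome : ∀ x : L, x ∈ C → v1Pt C (some x) := by
    intro x hx y hy
    rw [← Option.some_injective _ hy]
    exact hx
  have hnone : v1Pt C (none : Option L) := by
    intro y hy
    cases hy
  have e1 := hYt t1 ht1 (fun h => ht1' (Or.inl h))
  have e2 := hYt t2 ht2 (fun h => ht2' (Or.inl (Or.inl h)))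
  obtain ⟨-, h2, -⟩ := v1_four hχ hw hzC (P := some 1) (Q := none) (R := some (t1 ^ j))
    (S := some (t2 ^ j)) (hsome 1 C.one_mem) hnone (hsome _ (C.pow_mem ht1 j))
    (hsome _ (C.pow_mem ht2 j)) (by intro h; cases h)
    (fun h => ht1' (Or.inr (Option.some_injective _ h).symm))
    (fun h => ht2' (Or.inl (Or.inr (Option.some_injective _ h).symm)))
    (by intro h; cases h) (by intro h; cases h)
    (fun h => ht2' (Or.inr (Option.some_injective _ h).symm))
    (by
      change χ (z - 1) + χ (z - t1 ^ j) = 0 + χ (z - t2 ^ j)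
      rw [hval1, e1, e2])
  change χ (z - 1) = χ (z - t1 ^ j) at h2
  rw [hval1, e1] at h2
  rcases mul_eq_zero.1 h2.symm with h3 | h3
  · rw [hjc] at h3
    exact hjz0 h3
  · exact hα h3

theorem flag_of_weight {L : Type} [Field L] {ℓ : ℕ} (hℓ : ℓ.Prime) (C : Subfield L)
    (hC : (C : Set L).Infinite) (χ : L → ZMod ℓ) (hχ : IsChar C χ)
    (hroots : ∀ i : ℕ, 0 < i → i < ℓ → ∃ ζ ∈ C, IsPrimitiveRoot ζ i)
    (hpow : ∀ (x : L) (j : ℕ), 0 < j → x ^ j ∈ C → x ∈ C)
    (hw : ∀ u, u ∉ C → ∀ c0 ∈ C, ∀ c1 ∈ C, ∀ c2 ∈ C, c0 ≠ c1 → c1 ≠ c2 → c0 ≠ c2 →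
      χ (u - c0) + χ (u - c2) = χ (u - c1) →
      χ (u - c0) = 0 ∧ χ (u - c1) = 0 ∧ χ (u - c2) = 0) :
    IsFlag C χ := by
  classical
  have := Fact.mk hℓ
  intro u hu
  obtain ⟨a, ha⟩ := v1_two hℓ hC hχ hw hu
  have hsome : ∀ x : L, x ∈ C → v1Pt C (some x) := by
    intro x hx y hy
    rw [← Option.some_injective _ hy]
    exact hx
  have hnone : v1Pt C (none : Option L) := by
    intro y hy
    cases hy
  obtain ⟨E, hE⟩ : ∃ E : Set L, E = {c | c ∈ C ∧ χ (u - c) ≠ a} := ⟨_, rfl⟩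
  have hEfin : E.Finite := by
    refine Set.Finite.of_finite_image (f := fun c => χ (u - c)) (Set.toFinite _) ?_
    intro c hc d hd hcd
    rw [hE] at hc hd
    by_contra hne
    exact hc.2 (ha (some c) (some d) (hsome c hc.1) (hsome d hd.1)
      (fun h => hne (Option.some_injective _ h)) hcd)
  have hgood : ∀ c ∈ C, c ∉ E → χ (u - c) = a := by
    intro c hc hcE
    by_contra h
    apply hcE
    rw [hE]
    exact ⟨hc, h⟩
  -- no exceptional finite point together with `∞`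
  have hone : ∀ p ∈ C, χ (u - p) ≠ a → a = 0 := by
    intro p hp hpa
    by_contra ha0
    have hwC : u - p ∉ C := by
      intro h
      apply hu
      have h1 := C.add_mem h hp
      rwa [sub_add_cancel] at h1
    refine v1_noW hℓ hC hχ hw hroots hpow hwC ha0 hpa
      (X := (fun c => c - p) '' E) (hEfin.image _) ?_
    intro t ht htX
    have h1 : u - p - t = u - (p + t) := by ring
    rw [h1]
    refine hgood _ (C.add_mem hp ht) ?_
    intro h
    exact htX ⟨p + t, h, by ring⟩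
  -- no two exceptional finite points
  have htwo : ∀ p ∈ C, ∀ q ∈ C, χ (u - p) ≠ a → χ (u - q) ≠ a → p = q := by
    intro p hp q hq hpa hqa
    by_contra hpq
    have hup := v1_ne hu hp
    have huq := v1_ne hu hq
    have hwC : (u - p) / (u - q) ∉ C := by
      intro h
      apply hu
      have h1 : (u - p) / (u - q) * (u - q) = u - p := div_mul_cancel₀ _ huq
      have hw1 : (u - p) / (u - q) ≠ 1 := by
        intro h2
        rw [h2, one_mul] at h1
        apply hpq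
        linear_combination h1
      have h3 : u = (p - (u - p) / (u - q) * q) / (1 - (u - p) / (u - q)) := by
        rw [eq_div_iff (sub_ne_zero.2 hw1.symm)]
        linear_combination -h1
      rw [h3]
      exact C.div_mem (C.sub_mem hp (C.mul_mem h hq)) (C.sub_mem C.one_mem h)
    have hα : a - χ (u - q) ≠ 0 := sub_ne_zero.2 hqa.symm
    refine v1_noW hℓ hC hχ hw hroots hpow hwC hα
      (by
        rw [v1_div hχ hup huq]
        intro h
        apply hpa
        linear_combination h)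
      (X := {1} ∪ (fun t => (p - t) / (q - t)) '' E)
      ((Set.finite_singleton 1).union (hEfin.image _)) ?_
    intro t ht htX
    have ht1 : t ≠ 1 := fun h => htX (Or.inl h)
    have h1t : 1 - t ≠ 0 := sub_ne_zero.2 ht1.symm
    have h1 : (u - p) / (u - q) - t = (1 - t) * ((u - (p - t * q) / (1 - t)) / (u - q)) := by
      field_simp
      ring
    have hmem : (p - t * q) / (1 - t) ∈ C :=
      C.div_mem (C.sub_mem hp (C.mul_mem ht hq)) (C.sub_mem C.one_mem ht)
    have hne := v1_ne hu hmem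
    rw [h1, v1_cmul hχ (C.sub_mem C.one_mem ht) h1t (div_ne_zero hne huq), v1_div hχ hne huq,
      hgood _ hmem]
    intro h
    apply htX
    right
    refine ⟨_, h, ?_⟩
    change (p - (p - t * q) / (1 - t)) / (q - (p - t * q) / (1 - t)) = t
    have hqp : q - p ≠ 0 := sub_ne_zero.2 (Ne.symm hpq)
    have h2 : q - (p - t * q) / (1 - t) = (q - p) / (1 - t) := by
      field_simp
      ring
    have h3 : p - (p - t * q) / (1 - t) = t * ((q - p) / (1 - t)) := by
      field_simp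
      ring
    rw [h2, h3, mul_div_assoc, div_self (div_ne_zero hqp h1t), mul_one]
  by_cases hex : ∃ e ∈ C, χ (u - e) ≠ a
  · obtain ⟨e, he, hea⟩ := hex
    left
    refine ⟨e, he, fun c hc hce => ?_⟩
    have ha0 := hone e he hea
    by_contra h
    apply hce
    refine htwo c hc e he ?_ hea
    rw [ha0]
    exact h
  · right
    push Not at hex
    exact ⟨a, hex⟩

end Pool.Agent.SB
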