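import Pool.Agent.Helper79.SV.Pair
import Pool.Agent.Helper79.SV.V1

set_option autoImplicit false

/-!
# SB-V-07: the Kummer character of a pair is a flag character

(a) `ζ` a primitive `ℓ`-th root of unity of `Ω` (char 0); `τ ζ = ζ` by `bar` (algebraic over `k`).  For `u ∈ L`,
`u ≠ 0` and `y ^ ℓ = u`: `τ y / y` is an `ℓ`-th root of unity, `= ζ ^ j`, `j` independent of `y` (`τ` fixes the `ℓ`-th
roots of unity); put `χ u = j`, `χ 0 = 0`.  Multiplicative.  For `c` algebraic over `k`, `y` is algebraic over `k`, so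
`τ y = y`, `χ c = 0`.
(b) `hroots`: let `0 < i < ℓ` and `ξ` a primitive `i`-th root of unity in `Ω`.  `τ ξ = ξ`.  The orbit of `ξ` under `σ`
has `ℓ`-power size (`pσ`) and consists of primitive `i`-th roots of unity, so it has less than `ℓ` elements, so `σ ξ = ξ`
and `ξ ∈ L` by `fix`, algebraic over `k`.
(c) `hpow`: `x ^ j` algebraic over `k` implies `x` algebraic.  `C` is infinite (contains `ℚ`).
(d) `hw` of `flag_of_weight` for `u ∉ C` (so transcendental over `k`): let `c 0, c 1, c 2 ∈ C` distinct with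
`χ (u - c0) + χ (u - c2) = χ (u - c1)`; choose `y` with `y ^ ℓ = (u - c0)(u - c2)/(u - c1)`; `τ y = y`; `WeightProp` gives
`τ ω = ω` for the roots of `u - c i`, so `χ (u - c i) = 0` (`ζ` has order `ℓ`).
-/

namespace Pool.Agent.SB

private theorem v0_alg {k Ω : Type} [Field k] [Field Ω] [Algebra k Ω] {ξ : Ω} {i : ℕ}
    (hi : 0 < i) (h : ξ ^ i = 1) : IsAlgebraic k ξ := by
  refine IsAlgebraic.of_pow hi ?_
  rw [h]
  exact isAlgebraic_one

private theorem v0_alg_map {k L Ω : Type} [Field k] [Field L] [Field Ω]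
    [Algebra k L] [Algebra L Ω] [Algebra k Ω] [IsScalarTower k L Ω] (c : L) :
    IsAlgebraic k (algebraMap L Ω c) ↔ IsAlgebraic k c :=
  isAlgebraic_algebraMap_iff (algebraMap L Ω).injective

private theorem v0_pow {Ω : Type} [Field Ω] {ζ : Ω} {n : ℕ} (hn : 0 < n)
    (h : IsPrimitiveRoot ζ n) (a b : ℕ) : ζ ^ a = ζ ^ b ↔ a ≡ b [MOD n] := by
  have ha : ζ ^ a = ζ ^ (a % n) := by
    conv_lhs => rw [← Nat.div_add_mod a n, pow_add, pow_mul, h.pow_eq_one, one_pow, one_mul]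
  have hb : ζ ^ b = ζ ^ (b % n) := by
    conv_lhs => rw [← Nat.div_add_mod b n, pow_add, pow_mul, h.pow_eq_one, one_pow, one_mul]
  rw [ha, hb]
  constructor
  · intro h1
    exact h.pow_inj (Nat.mod_lt _ hn) (Nat.mod_lt _ hn) h1
  · intro h1
    rw [h1]

private theorem v0_root {k L Ω : Type} [Field k] [CharZero k] [Field L] [Field Ω]
    [Algebra k L] [Algebra L Ω] [Algebra k Ω] [IsScalarTower k L Ω] [IsAlgClosed Ω]
    {ℓ : ℕ} (hℓ : ℓ.Prime) {σ τ : Ω ≃ₐ[L] Ω} (P : TPair k ℓ σ τ) {i : ℕ} (hi : 0 < i)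
    (hil : i < ℓ) : ∃ ζ ∈ consts k L, IsPrimitiveRoot ζ i := by
  have hc : CharZero Ω := charZero_of_injective_algebraMap (algebraMap k Ω).injective
  have hn : NeZero i := ⟨hi.ne'⟩
  have hni : NeZero ((i : ℕ) : Ω) := ⟨Nat.cast_ne_zero.mpr hi.ne'⟩
  obtain ⟨ξ, hξ⟩ := HasEnoughRootsOfUnity.exists_primitiveRoot Ω i
  have hσi : (σ ξ) ^ i = 1 := by rw [← map_pow, hξ.pow_eq_one, map_one]
  obtain ⟨m, -, hm⟩ := hξ.eq_pow_of_pow_eq_one hσi
  have hcop : m.Coprime i := by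
    rw [← hξ.pow_iff_coprime hi, hm]
    exact hξ.map_of_injective σ.injective
  have hiter : ∀ t : ℕ, (σ ^ t) ξ = ξ ^ (m ^ t) := by
    intro t
    induction t with
    | zero => simp
    | succ t ih =>
      rw [pow_succ', AlgEquiv.mul_apply, ih, map_pow, ← hm, ← pow_mul, pow_succ']
  obtain ⟨n, hn2⟩ := P.pσ ξ
  rw [hiter] at hn2
  -- the class of `m` in the units modulo `i`
  let u : (ZMod i)ˣ := ZMod.unitOfCoprime m hcop
  have hu1 : u ^ (ℓ ^ n) = 1 := by
    apply Units.ext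
    have h1 : ξ ^ (m ^ ℓ ^ n) = ξ ^ 1 := by rw [hn2, pow_one]
    rw [v0_pow hi hξ] at h1
    have h2 := (ZMod.natCast_eq_natCast_iff _ _ _).mpr h1
    rw [Units.val_pow_eq_pow_val, ZMod.coe_unitOfCoprime, Units.val_one]
    push_cast at h2
    exact h2
  have hu2 : u ^ (i.totient) = 1 := ZMod.pow_totient u
  have hu3 : orderOf u ∣ Nat.gcd (ℓ ^ n) i.totient :=
    Nat.dvd_gcd (orderOf_dvd_of_pow_eq_one hu1) (orderOf_dvd_of_pow_eq_one hu2)
  have hcop2 : Nat.Coprime (ℓ ^ n) i.totient := by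
    apply Nat.Coprime.pow_left
    rw [hℓ.coprime_iff_not_dvd]
    intro hdvd
    have h1 := Nat.le_of_dvd (Nat.totient_pos.mpr hi) hdvd
    exact absurd (h1.trans (Nat.totient_le i)) (not_le.mpr hil)
  rw [hcop2, Nat.dvd_one, orderOf_eq_one_iff] at hu3
  have hm1 : ξ ^ m = ξ := by
    have h1 : (m : ZMod i) = ((1 : ℕ) : ZMod i) := by
      have h2 := congrArg Units.val hu3
      rw [ZMod.coe_unitOfCoprime, Units.val_one] at h2
      rw [h2, Nat.cast_one]
    have h2 := (ZMod.natCast_eq_natCast_iff _ _ _).mp h1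
    conv_rhs => rw [← pow_one ξ]
    rw [v0_pow hi hξ]
    exact h2
  have hσξ : σ ξ = ξ := by rw [← hm, hm1]
  have hτξ : τ ξ = ξ := P.bar ξ (v0_alg hi hξ.pow_eq_one)
  obtain ⟨z, hz⟩ := P.fix ξ hσξ hτξ
  have hzp : IsPrimitiveRoot z i := by
    refine IsPrimitiveRoot.of_map_of_injective (f := algebraMap L Ω) ?_ (algebraMap L Ω).injective
    rw [hz]
    exact hξ
  exact ⟨z, (mem_consts z).mpr (v0_alg hi hzp.pow_eq_one), hzp⟩

theorem pair_flag (k : Type) [Field k] [CharZero k] {L Ω : Type} [Field L] [Field Ω]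
    [Algebra k L] [Algebra L Ω] [Algebra k Ω] [IsScalarTower k L Ω] [IsAlgClosed Ω]
    [Algebra.IsAlgebraic L Ω] {ℓ : ℕ} (hℓ : ℓ.Prime) {σ τ : Ω ≃ₐ[L] Ω} (P : TPair k ℓ σ τ)
    (hW : WeightProp k ℓ τ) :
    ∃ (ζ : Ω) (χ : L → ZMod ℓ), IsPrimitiveRoot ζ ℓ ∧ IsKummer τ ζ χ ∧
      IsChar (consts k L) χ ∧ IsFlag (consts k L) χ := by
  classical
  have hc : CharZero Ω := charZero_of_injective_algebraMap (algebraMap k Ω).injective
  have hcL : CharZero L := charZero_of_injective_algebraMap (algebraMap k L).injective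
  have hl0 : NeZero ℓ := ⟨hℓ.ne_zero⟩
  have hl1 : Fact ℓ.Prime := ⟨hℓ⟩
  have hlΩ : NeZero ((ℓ : ℕ) : Ω) := ⟨Nat.cast_ne_zero.mpr hℓ.ne_zero⟩
  obtain ⟨ζ, hζ⟩ := HasEnoughRootsOfUnity.exists_primitiveRoot Ω ℓ
  have hζ0 : ζ ≠ 0 := hζ.ne_zero hℓ.ne_zero
  have hmap0 : ∀ u : L, u ≠ 0 → algebraMap L Ω u ≠ 0 := fun u hu =>
    (map_ne_zero (algebraMap L Ω)).mpr hu
  have hroot : ∀ (u : L), ∃ y : Ω, y ^ ℓ = algebraMap L Ω u := fun u =>
    IsAlgClosed.exists_pow_nat_eq _ hℓ.pos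
  have hy0 : ∀ (u : L) (y : Ω), u ≠ 0 → y ^ ℓ = algebraMap L Ω u → y ≠ 0 := by
    rintro u y hu hy rfl
    rw [zero_pow hℓ.ne_zero] at hy
    exact hmap0 u hu hy.symm
  have hfixℓ : ∀ x : Ω, x ^ ℓ = 1 → τ x = x := fun x hx => P.bar x (v0_alg hℓ.pos hx)
  have hex : ∀ u : L, ∃ a : ZMod ℓ, u ≠ 0 → ∀ y : Ω, y ^ ℓ = algebraMap L Ω u →
      τ y = ζ ^ a.val * y := by
    intro u
    by_cases hu : u = 0
    · exact ⟨0, fun h => absurd hu h⟩
    obtain ⟨y0, hy0'⟩ := hroot u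
    have hy00 := hy0 u y0 hu hy0'
    have h1 : (τ y0 / y0) ^ ℓ = 1 := by
      rw [div_pow, ← map_pow, hy0', AlgEquiv.commutes, div_self (hmap0 u hu)]
    obtain ⟨i, hi, hi'⟩ := hζ.eq_pow_of_pow_eq_one h1
    refine ⟨(i : ZMod ℓ), fun _ y hy => ?_⟩
    have h2 : (y / y0) ^ ℓ = 1 := by
      rw [div_pow, hy, hy0', div_self (hmap0 u hu)]
    have h3 := hfixℓ _ h2
    rw [map_div₀] at h3
    have hτy0 : τ y0 ≠ 0 := (map_ne_zero τ).mpr hy00
    rw [ZMod.val_natCast_of_lt hi, hi']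
    rw [div_eq_div_iff hτy0 hy00] at h3
    field_simp
    linear_combination h3
  choose χ hχ using hex
  have hK : IsKummer τ ζ χ := fun u y hu hy => hχ u hu y hy
  have hval : ∀ (u : L) (y : Ω) (i : ℕ), u ≠ 0 → y ^ ℓ = algebraMap L Ω u →
      τ y = ζ ^ i * y → χ u = (i : ZMod ℓ) := by
    intro u y i hu hy hi
    have h1 := hK u y hu hy
    rw [hi] at h1
    have h2 := mul_right_cancel₀ (hy0 u y hu hy) h1
    rw [v0_pow hℓ.pos hζ] at h2
    have h3 := (ZMod.natCast_eq_natCast_iff _ _ _).mpr h2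
    rw [ZMod.natCast_zmod_val] at h3
    exact h3.symm
  have hchar : IsChar (consts k L) χ := by
    constructor
    · intro u v hu hv
      obtain ⟨y, hy⟩ := hroot u
      obtain ⟨z, hz⟩ := hroot v
      have h1 := hval (u * v) (y * z) ((χ u).val + (χ v).val) (mul_ne_zero hu hv)
        (by rw [mul_pow, hy, hz, map_mul])
        (by rw [map_mul, hK u y hu hy, hK v z hv hz, pow_add]; ring)
      rw [h1, Nat.cast_add, ZMod.natCast_zmod_val, ZMod.natCast_zmod_val]
    · intro c hc hc0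
      obtain ⟨y, hy⟩ := hroot c
      have h1 : IsAlgebraic k y := by
        refine IsAlgebraic.of_pow hℓ.pos ?_
        rw [hy]
        exact (v0_alg_map c).mpr ((mem_consts c).mp hc)
      have h2 := hval c y 0 hc0 hy (by rw [P.bar y h1, pow_zero, one_mul])
      rw [h2, Nat.cast_zero]
  have hdone : ∀ (u : L) (y : Ω), u ≠ 0 → y ^ ℓ = algebraMap L Ω u → τ y = y → χ u = 0 := by
    intro u y hu hy h
    have h2 := hval u y 0 hu hy (by rw [h, pow_zero, one_mul])
    rw [h2, Nat.cast_zero]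
  refine ⟨ζ, χ, hζ, hK, hchar, ?_⟩
  refine flag_of_weight hℓ (consts k L) ?_ χ hchar
    (fun i hi hil => v0_root hℓ P hi hil) ?_ ?_
  · refine Set.infinite_of_injective_forall_mem (f := fun n : ℕ => (n : L)) Nat.cast_injective ?_
    intro n
    exact natCast_mem (consts k L) n
  · intro x j hj hx
    rw [mem_consts] at hx ⊢
    exact IsAlgebraic.of_pow hj hx
  · intro u hu c0 h0 c1 h1 c2 h2 h01 h12 h02 hsum
    have hne : ∀ c ∈ consts k L, u - c ≠ 0 := by
      intro c hc h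
      apply hu
      rw [sub_eq_zero.mp h]
      exact hc
    have hn0 := hne c0 h0
    have hn1 := hne c1 h1
    have hn2 := hne c2 h2
    have htr : Transcendental k u := fun h => hu ((mem_consts u).mpr h)
    have hz : χ ((u - c0) * (u - c2) / (u - c1)) = 0 := by
      have h3 := hchar.mul ((u - c0) * (u - c2) / (u - c1)) (u - c1)
        (div_ne_zero (mul_ne_zero hn0 hn2) hn1) hn1
      rw [div_mul_cancel₀ _ hn1, hchar.mul _ _ hn0 hn2, hsum] at h3
      have h4 : χ ((u - c0) * (u - c2) / (u - c1)) + χ (u - c1) = 0 + χ (u - c1) := by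
        rw [← h3, zero_add]
      exact add_right_cancel h4
    obtain ⟨y, hy⟩ := hroot ((u - c0) * (u - c2) / (u - c1))
    have hτy : τ y = y := by
      rw [hK _ y (div_ne_zero (mul_ne_zero hn0 hn2) hn1) hy, hz, ZMod.val_zero, pow_zero, one_mul]
    have hcs : ∀ i : Fin 3, IsAlgebraic k ((![c0, c1, c2] : Fin 3 → L) i) := by
      intro i
      fin_cases i
      · exact (mem_consts c0).mp h0
      · exact (mem_consts c1).mp h1
      · exact (mem_consts c2).mp h2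
    have hinj : Function.Injective (![c0, c1, c2] : Fin 3 → L) := by
      intro a b hab
      fin_cases a <;> fin_cases b <;> simp at hab ⊢
      · exact h01 hab
      · exact h02 hab
      · exact h01 hab.symm
      · exact h12 hab
      · exact h02 hab.symm
      · exact h12 hab.symm
    have key := hW u ![c0, c1, c2] y htr hcs hinj (by
      change y ^ ℓ * algebraMap L Ω (u - c1) = algebraMap L Ω ((u - c0) * (u - c2))
      rw [hy, ← map_mul, div_mul_cancel₀ _ hn1]) hτy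
    refine ⟨?_, ?_, ?_⟩
    · obtain ⟨ω, hω⟩ := hroot (u - c0)
      exact hdone _ ω hn0 hω (key 0 ω hω)
    · obtain ⟨ω, hω⟩ := hroot (u - c1)
      exact hdone _ ω hn1 hω (key 1 ω hω)
    · obtain ⟨ω, hω⟩ := hroot (u - c2)
      exact hdone _ ω hn2 hω (key 2 ω hω)

end Pool.Agent.SB
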