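import Pool.Agent.Helper79.SV.Defs

set_option autoImplicit false

/-!
# SB-V-02: two-colourings of the projective plane

`dim V = 3`, `C` infinite, colours: `B` = blue, complement = red.  Every projective line is `mostly
red` (at most one blue point) or `mostly blue`.  CLAIM: the blue points or the red points are
contained in a proper subspace.  Suppose not: `r1, r2, r3` red basis, `b1, b2, b3` blue basis.
The line `ℓ1 = r1 r2` has two red points, so at most one blue point.  For every red point `p` of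
`ℓ1` the line `r3 p` has the two red points `r3 ≠ p`, so it has at most one blue point.  These are
infinitely many lines through `r3`.  The lines `b1 b2` and `b1 b3` are mostly blue (two blue
points), each has at most one red point.  `r3` is on at most one ... (if `r3` is on `b1 b2` or on
`b1 b3` it is THE red point of that line).  Choose a line `m = r3 p` through `r3`, `p` red on `ℓ1`,
different from the finitely many lines through `r3` which pass through `b1` or through the red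
point (if any) of `b1 b2` or of `b1 b3`, when these points are different from `r3`.
CASE `r3` on neither line: `m` meets `b1 b2` and `b1 b3` in two distinct points (not `b1`), both
blue: two blue points on `m`, contradiction.
CASE `r3` on `b1 b2` (say): then `r3` is the red point of `b1 b2`.  Use the three lines `b1 b2`,
`b1 b3`, `b2 b3`: `r3` is on at most one of them unless it is a `b_i`, impossible (`r3` is red); take
the other two.  (So always: choose two of the three lines not containing `r3`; they meet in some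
`b_i`.)
-/

namespace Pool.Agent.SB

/-- Three vectors with their dual functionals. -/
private structure V2aB {C : Type} [Field C] {V : Type} [AddCommGroup V] [Module C V]
    (b₁ b₂ b₃ : V) (β₁ β₂ β₃ : V →ₗ[C] C) : Prop where
  h11 : β₁ b₁ = 1
  h12 : β₁ b₂ = 0
  h13 : β₁ b₃ = 0
  h21 : β₂ b₁ = 0
  h22 : β₂ b₂ = 1
  h23 : β₂ b₃ = 0
  h31 : β₃ b₁ = 0
  h32 : β₃ b₂ = 0
  h33 : β₃ b₃ = 1
  sum : ∀ v, v = β₁ v • b₁ + β₂ v • b₂ + β₃ v • b₃

private theorem V2aB.swap {C : Type} [Field C] {V : Type} [AddCommGroup V] [Module C V]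
    {b₁ b₂ b₃ : V} {β₁ β₂ β₃ : V →ₗ[C] C} (h : V2aB b₁ b₂ b₃ β₁ β₂ β₃) :
    V2aB b₁ b₃ b₂ β₁ β₃ β₂ where
  h11 := h.h11
  h12 := h.h13
  h13 := h.h12
  h21 := h.h31
  h22 := h.h33
  h23 := h.h32
  h31 := h.h21
  h32 := h.h23
  h33 := h.h22
  sum := fun v => by
    have := h.sum v
    rw [add_right_comm] at this
    exact this

private theorem V2aB.rot {C : Type} [Field C] {V : Type} [AddCommGroup V] [Module C V]
    {b₁ b₂ b₃ : V} {β₁ β₂ β₃ : V →ₗ[C] C} (h : V2aB b₁ b₂ b₃ β₁ β₂ β₃) :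
    V2aB b₂ b₃ b₁ β₂ β₃ β₁ where
  h11 := h.h22
  h12 := h.h23
  h13 := h.h21
  h21 := h.h32
  h22 := h.h33
  h23 := h.h31
  h31 := h.h12
  h32 := h.h13
  h33 := h.h11
  sum := fun v => by
    have := h.sum v
    rw [add_assoc, add_comm] at this
    exact this

/-- A basis contained in a spanning set. -/
private theorem v2a_basis (C : Type) [Field C] {V : Type} [AddCommGroup V] [Module C V]
    [FiniteDimensional C V] (hV : Module.finrank C V = 3) (S : Set V)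
    (hS : Submodule.span C S = ⊤) : ∃ (b₁ b₂ b₃ : V) (β₁ β₂ β₃ : V →ₗ[C] C),
      V2aB b₁ b₂ b₃ β₁ β₂ β₃ ∧ b₁ ∈ S ∧ b₂ ∈ S ∧ b₃ ∈ S := by
  have hb0 : ∃ b : Module.Basis (Fin 3) C V, ∀ i, b i ∈ S := by
    obtain ⟨ι, b, hb⟩ : ∃ (ι : Set V) (b : Module.Basis ι C V), ∀ i, b i ∈ S := by
      exact ⟨_, Module.Basis.ofSpan (s := S) hS.ge,
        fun i => Module.Basis.ofSpan_subset hS.ge ⟨i, rfl⟩⟩
    have hfin : Finite ι := Module.Finite.finite_basis b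
    have hcard : Nat.card ι = 3 := by
      rw [← Module.finrank_eq_nat_card_basis b, hV]
    refine ⟨b.reindex (Finite.equivFinOfCardEq hcard), fun i => ?_⟩
    rw [Module.Basis.reindex_apply]
    exact hb _
  obtain ⟨b, hb⟩ := hb0
  have hd : ∀ i j, b.coord i (b j) = if i = j then 1 else 0 := by
    intro i j
    rw [Module.Basis.coord_apply, Module.Basis.repr_self, Finsupp.single_apply]
    by_cases h : i = j
    · rw [if_pos h, if_pos h.symm]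
    · rw [if_neg h, if_neg (fun h' => h h'.symm)]
  refine ⟨b 0, b 1, b 2, b.coord 0, b.coord 1, b.coord 2, ?_, hb 0, hb 1, hb 2⟩
  exact
    { h11 := by rw [hd]; rfl
      h12 := by rw [hd]; rfl
      h13 := by rw [hd]; rfl
      h21 := by rw [hd]; rfl
      h22 := by rw [hd]; rfl
      h23 := by rw [hd]; rfl
      h31 := by rw [hd]; rfl
      h32 := by rw [hd]; rfl
      h33 := by rw [hd]; rfl
      sum := fun v => by
        have h := b.sum_repr v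
        rw [Fin.sum_univ_three] at h
        exact h.symm }

section v2a

variable {C : Type} [Field C] {V : Type} [AddCommGroup V] [Module C V] {B : Set V}

/-- The functional vanishing on the line of `r₃` and `r₁ + t r₂`. -/
private def v2aF (ρ₁ ρ₂ : V →ₗ[C] C) (t : C) (v : V) : C := ρ₂ v - t * ρ₁ v

/-- The point of `b₁ b₂` on this line. -/
private def v2aX (ρ₁ ρ₂ : V →ₗ[C] C) (b₁ b₂ : V) (t : C) : V :=
  v2aF ρ₁ ρ₂ t b₂ • b₁ - v2aF ρ₁ ρ₂ t b₁ • b₂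

private theorem v2a_FX (ρ₁ ρ₂ : V →ₗ[C] C) (b₁ b₂ : V) (t : C) :
    v2aF ρ₁ ρ₂ t (v2aX ρ₁ ρ₂ b₁ b₂ t) = 0 := by
  unfold v2aX v2aF
  simp only [map_sub, map_smul, smul_eq_mul]
  ring

private theorem v2a_two {r₁ r₂ r₃ : V} {ρ₁ ρ₂ ρ₃ : V →ₗ[C] C} (hr : V2aB r₁ r₂ r₃ ρ₁ ρ₂ ρ₃)
    {t t' : C} (htt : t ≠ t') {v : V} (h1 : v2aF ρ₁ ρ₂ t v = 0) (h2 : v2aF ρ₁ ρ₂ t' v = 0) :
    v = ρ₃ v • r₃ := by
  unfold v2aF at h1 h2
  have h3 : (t - t') * ρ₁ v = 0 := by linear_combination h2 - h1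
  have h4 : ρ₁ v = 0 := (mul_eq_zero.1 h3).resolve_left (sub_ne_zero.2 htt)
  have h5 : ρ₂ v = 0 := by
    rw [h4, mul_zero, sub_zero] at h1
    exact h1
  have h6 := hr.sum v
  rw [h4, h5, zero_smul, zero_smul, zero_add, zero_add] at h6
  exact h6

private theorem v2a_S1 (hB : LineFlag C B) {r₁ r₂ r₃ : V} {ρ₁ ρ₂ ρ₃ : V →ₗ[C] C}
    (hr : V2aB r₁ r₂ r₃ ρ₁ ρ₂ ρ₃) (h1 : r₁ ∉ B) (h2 : r₂ ∉ B) :
    {t : C | r₁ + t • r₂ ∈ B}.Subsingleton := by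
  intro t ht t' ht'
  by_contra hne
  have hm : ∀ s : C, r₁ + s • r₂ ∈ Submodule.span C {r₁, r₂} := fun s =>
    Submodule.add_mem _ (Submodule.subset_span (by simp))
      (Submodule.smul_mem _ _ (Submodule.subset_span (by simp)))
  have hρ : ∀ s : C, ρ₁ (r₁ + s • r₂) = 1 := fun s => by
    rw [map_add, map_smul, hr.h11, hr.h12, smul_zero, add_zero]
  have hn : ∀ s : C, r₁ + s • r₂ ≠ 0 := fun s h => by
    have := hρ s
    rw [h, map_zero] at this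
    exact zero_ne_one this
  rcases hB.line r₁ r₂ with h | h
  · obtain ⟨c, hc⟩ := h _ (hm t) _ (hm t') (hn t) (hn t') ht ht'
    have e1 := congrArg ρ₁ hc
    rw [map_smul, hρ, hρ, smul_eq_mul, mul_one] at e1
    have e2 := congrArg ρ₂ hc
    rw [← e1, one_smul, map_add, map_add, map_smul, map_smul, hr.h21, hr.h22] at e2
    simp only [smul_eq_mul, mul_one, zero_add] at e2
    exact hne e2.symm
  · have hr1 : r₁ ≠ 0 := by
      rintro rfl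
      have := hr.h11
      rw [map_zero] at this
      exact zero_ne_one this
    have hr2 : r₂ ≠ 0 := by
      rintro rfl
      have := hr.h22
      rw [map_zero] at this
      exact zero_ne_one this
    obtain ⟨c, hc⟩ := h r₁ (Submodule.subset_span (by simp)) r₂ (Submodule.subset_span (by simp))
      hr1 hr2 h1 h2
    have e1 := congrArg ρ₂ hc
    rw [map_smul, hr.h22, hr.h21, smul_zero] at e1
    exact one_ne_zero e1

private theorem v2a_S2 (hB : LineFlag C B) {r₁ r₂ r₃ : V} {ρ₁ ρ₂ ρ₃ : V →ₗ[C] C}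
    (hr : V2aB r₁ r₂ r₃ ρ₁ ρ₂ ρ₃) (h3 : r₃ ∉ B) {b : V} (hb : b ∈ B) (hb0 : b ≠ 0) :
    {t : C | v2aF ρ₁ ρ₂ t b = 0}.Subsingleton := by
  intro t ht t' ht'
  by_contra hne
  have h4 := v2a_two hr hne ht ht'
  have h5 : ρ₃ b ≠ 0 := by
    intro h
    rw [h, zero_smul] at h4
    exact hb0 h4
  rw [h4, hB.smul _ _ h5] at hb
  exact h3 hb

private theorem v2a_xj {b₁ b₂ b₃ : V} {β₁ β₂ β₃ : V →ₗ[C] C} (hb : V2aB b₁ b₂ b₃ β₁ β₂ β₃)
    (ρ₁ ρ₂ : V →ₗ[C] C) (t : C) : β₂ (v2aX ρ₁ ρ₂ b₁ b₂ t) = -v2aF ρ₁ ρ₂ t b₁ ∧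
      β₃ (v2aX ρ₁ ρ₂ b₁ b₂ t) = 0 := by
  unfold v2aX
  constructor
  · rw [map_sub, map_smul, map_smul, hb.h21, hb.h22]
    simp
  · rw [map_sub, map_smul, map_smul, hb.h31, hb.h32]
    simp

private theorem v2a_S3 (hB : LineFlag C B) {r₁ r₂ r₃ : V} {ρ₁ ρ₂ ρ₃ : V →ₗ[C] C}
    (hr : V2aB r₁ r₂ r₃ ρ₁ ρ₂ ρ₃) {b₁ b₂ b₃ : V} {β₁ β₂ β₃ : V →ₗ[C] C}
    (hb : V2aB b₁ b₂ b₃ β₁ β₂ β₃) (h1 : b₁ ∈ B) (h2 : b₂ ∈ B) (hk : β₃ r₃ ≠ 0) :
    {t : C | v2aF ρ₁ ρ₂ t b₁ ≠ 0 ∧ v2aX ρ₁ ρ₂ b₁ b₂ t ∉ B}.Subsingleton := by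
  rintro t ⟨ht1, ht2⟩ t' ⟨ht1', ht2'⟩
  by_contra hne
  have hm : ∀ s : C, v2aX ρ₁ ρ₂ b₁ b₂ s ∈ Submodule.span C {b₁, b₂} := fun s =>
    Submodule.sub_mem _ (Submodule.smul_mem _ _ (Submodule.subset_span (by simp)))
      (Submodule.smul_mem _ _ (Submodule.subset_span (by simp)))
  have hn : ∀ s : C, v2aF ρ₁ ρ₂ s b₁ ≠ 0 → v2aX ρ₁ ρ₂ b₁ b₂ s ≠ 0 := fun s hs h => by
    have := (v2a_xj hb ρ₁ ρ₂ s).1
    rw [h, map_zero] at this
    exact hs (neg_eq_zero.1 this.symm)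
  rcases hB.line b₁ b₂ with h | h
  · have hb1 : b₁ ≠ 0 := by
      rintro rfl
      have := hb.h11
      rw [map_zero] at this
      exact zero_ne_one this
    have hb2 : b₂ ≠ 0 := by
      rintro rfl
      have := hb.h22
      rw [map_zero] at this
      exact zero_ne_one this
    obtain ⟨c, hc⟩ := h b₁ (Submodule.subset_span (by simp)) b₂ (Submodule.subset_span (by simp))
      hb1 hb2 h1 h2
    have e1 := congrArg β₂ hc
    rw [map_smul, hb.h22, hb.h21, smul_zero] at e1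
    exact one_ne_zero e1
  · obtain ⟨c, hc⟩ := h _ (hm t) _ (hm t') (hn t ht1) (hn t' ht1') ht2 ht2'
    have hc0 : c ≠ 0 := by
      rintro rfl
      rw [zero_smul] at hc
      exact hn t' ht1' hc
    have e1 := v2a_FX ρ₁ ρ₂ b₁ b₂ t'
    rw [hc] at e1
    have e2 : v2aF ρ₁ ρ₂ t' (v2aX ρ₁ ρ₂ b₁ b₂ t) = 0 := by
      have e3 : c * v2aF ρ₁ ρ₂ t' (v2aX ρ₁ ρ₂ b₁ b₂ t) = 0 := by
        rw [← e1]
        unfold v2aF
        simp only [map_smul, smul_eq_mul]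
        ring
      exact (mul_eq_zero.1 e3).resolve_left hc0
    have e4 := v2a_two hr hne (v2a_FX ρ₁ ρ₂ b₁ b₂ t) e2
    have e5 := (v2a_xj hb ρ₁ ρ₂ t).2
    rw [e4, map_smul, smul_eq_mul, mul_eq_zero] at e5
    rcases e5 with e5 | e5
    · rw [e5, zero_smul] at e4
      exact hn t ht1 e4
    · exact hk e5

private theorem v2a_core [Infinite C] (hB : LineFlag C B) {r₁ r₂ r₃ : V} {ρ₁ ρ₂ ρ₃ : V →ₗ[C] C}
    (hr : V2aB r₁ r₂ r₃ ρ₁ ρ₂ ρ₃) {b₁ b₂ b₃ : V} {β₁ β₂ β₃ : V →ₗ[C] C}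
    (hb : V2aB b₁ b₂ b₃ β₁ β₂ β₃) (hr1 : r₁ ∉ B) (hr2 : r₂ ∉ B) (hr3 : r₃ ∉ B) (h1 : b₁ ∈ B)
    (h2 : b₂ ∈ B) (h3 : b₃ ∈ B) (hj : β₂ r₃ ≠ 0) (hk : β₃ r₃ ≠ 0) : False := by
  have hb1 : b₁ ≠ 0 := by
    rintro rfl
    have := hb.h11
    rw [map_zero] at this
    exact zero_ne_one this
  have hfin : ({t : C | r₁ + t • r₂ ∈ B} ∪ {t : C | v2aF ρ₁ ρ₂ t b₁ = 0} ∪
      {t : C | v2aF ρ₁ ρ₂ t b₁ ≠ 0 ∧ v2aX ρ₁ ρ₂ b₁ b₂ t ∉ B} ∪
      {t : C | v2aF ρ₁ ρ₂ t b₁ ≠ 0 ∧ v2aX ρ₁ ρ₂ b₁ b₃ t ∉ B}).Finite :=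
    ((((v2a_S1 hB hr hr1 hr2).finite).union (v2a_S2 hB hr hr3 h1 hb1).finite).union
      (v2a_S3 hB hr hb h1 h2 hk).finite).union (v2a_S3 hB hr hb.swap h1 h3 hj).finite
  obtain ⟨t, ht⟩ := hfin.infinite_compl.nonempty
  have ht' : ¬ (((r₁ + t • r₂ ∈ B ∨ v2aF ρ₁ ρ₂ t b₁ = 0) ∨
      (v2aF ρ₁ ρ₂ t b₁ ≠ 0 ∧ v2aX ρ₁ ρ₂ b₁ b₂ t ∉ B)) ∨
      (v2aF ρ₁ ρ₂ t b₁ ≠ 0 ∧ v2aX ρ₁ ρ₂ b₁ b₃ t ∉ B)) := ht
  have hp : r₁ + t • r₂ ∉ B := fun h => ht' (Or.inl (Or.inl (Or.inl h)))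
  have hf : v2aF ρ₁ ρ₂ t b₁ ≠ 0 := fun h => ht' (Or.inl (Or.inl (Or.inr h)))
  have hx : v2aX ρ₁ ρ₂ b₁ b₂ t ∈ B := by
    by_contra h
    exact ht' (Or.inl (Or.inr ⟨hf, h⟩))
  have hy : v2aX ρ₁ ρ₂ b₁ b₃ t ∈ B := by
    by_contra h
    exact ht' (Or.inr ⟨hf, h⟩)
  have hx0 : v2aX ρ₁ ρ₂ b₁ b₂ t ≠ 0 := fun h => by
    have := (v2a_xj hb ρ₁ ρ₂ t).1
    rw [h, map_zero] at this
    exact hf (neg_eq_zero.1 this.symm)
  have hy0 : v2aX ρ₁ ρ₂ b₁ b₃ t ≠ 0 := fun h => by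
    have := (v2a_xj hb.swap ρ₁ ρ₂ t).1
    rw [h, map_zero] at this
    exact hf (neg_eq_zero.1 this.symm)
  have hmem : ∀ v, v2aF ρ₁ ρ₂ t v = 0 → v ∈ Submodule.span C {r₃, r₁ + t • r₂} := by
    intro v hv
    have e1 : ρ₂ v = ρ₁ v * t := by
      unfold v2aF at hv
      linear_combination hv
    have e2 : v = ρ₃ v • r₃ + ρ₁ v • (r₁ + t • r₂) := by
      conv_lhs => rw [hr.sum v, e1]
      rw [smul_add, smul_smul]
      abel
    rw [e2]
    exact Submodule.add_mem _ (Submodule.smul_mem _ _ (Submodule.subset_span (by simp)))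
      (Submodule.smul_mem _ _ (Submodule.subset_span (by simp)))
  rcases hB.line r₃ (r₁ + t • r₂) with h | h
  · obtain ⟨c, hc⟩ := h _ (hmem _ (v2a_FX ρ₁ ρ₂ b₁ b₂ t)) _ (hmem _ (v2a_FX ρ₁ ρ₂ b₁ b₃ t))
      hx0 hy0 hx hy
    have e1 := congrArg β₃ hc
    rw [map_smul, (v2a_xj hb ρ₁ ρ₂ t).2, (v2a_xj hb.swap ρ₁ ρ₂ t).1, smul_zero] at e1
    exact hf (neg_eq_zero.1 e1)
  · have hρ : ρ₁ (r₁ + t • r₂) = 1 := by
      rw [map_add, map_smul, hr.h11, hr.h12, smul_zero, add_zero]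
    have hp0 : r₁ + t • r₂ ≠ 0 := fun h => by
      rw [h, map_zero] at hρ
      exact zero_ne_one hρ
    have hr30 : r₃ ≠ 0 := by
      rintro rfl
      have := hr.h33
      rw [map_zero] at this
      exact zero_ne_one this
    obtain ⟨c, hc⟩ := h r₃ (Submodule.subset_span (by simp)) (r₁ + t • r₂)
      (Submodule.subset_span (by simp)) hr30 hp0 hr3 hp
    have e1 := congrArg ρ₁ hc
    rw [hρ, map_smul, hr.h13, smul_zero] at e1
    exact one_ne_zero e1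

/-- A red vector is not a multiple of a blue basis vector. -/
private theorem v2a_ne (hB : LineFlag C B) {b₁ b₂ b₃ : V} {β₁ β₂ β₃ : V →ₗ[C] C}
    (hb : V2aB b₁ b₂ b₃ β₁ β₂ β₃) (h1 : b₁ ∈ B) {r : V} (hr : r ∉ B) (hr0 : r ≠ 0)
    (e2 : β₂ r = 0) (e3 : β₃ r = 0) : False := by
  have h := hb.sum r
  rw [e2, e3, zero_smul, zero_smul, add_zero, add_zero] at h
  have h5 : β₁ r ≠ 0 := by
    intro h'
    rw [h', zero_smul] at h
    exact hr0 h
  rw [h, hB.smul _ _ h5] at hr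
  exact hr h1

end v2a

theorem plane_flag (C : Type) [Field C] [Infinite C] {V : Type} [AddCommGroup V] [Module C V]
    [FiniteDimensional C V] (hV : Module.finrank C V = 3) (B : Set V) (hB : LineFlag C B) :
    (∃ U : Submodule C V, U < ⊤ ∧ ∀ v : V, v ≠ 0 → v ∈ B → v ∈ U) ∨
    (∃ U : Submodule C V, U < ⊤ ∧ ∀ v : V, v ≠ 0 → v ∉ B → v ∈ U) := by
  by_cases hS1 : Submodule.span C {v : V | v ≠ 0 ∧ v ∈ B} = ⊤
  · by_cases hS2 : Submodule.span C {v : V | v ≠ 0 ∧ v ∉ B} = ⊤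
    · exfalso
      obtain ⟨b₁, b₂, b₃, β₁, β₂, β₃, hb, h1, h2, h3⟩ := v2a_basis C hV _ hS1
      obtain ⟨r₁, r₂, r₃, ρ₁, ρ₂, ρ₃, hr, g1, g2, g3⟩ := v2a_basis C hV _ hS2
      by_cases e1 : β₁ r₃ = 0
      · by_cases e2 : β₂ r₃ = 0
        · exact v2a_ne hB hb.rot.rot h3.2 g3.2 g3.1 e1 e2
        · by_cases e3 : β₃ r₃ = 0
          · exact v2a_ne hB hb.rot h2.2 g3.2 g3.1 e3 e1
          · exact v2a_core hB hr hb g1.2 g2.2 g3.2 h1.2 h2.2 h3.2 e2 e3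
      · by_cases e2 : β₂ r₃ = 0
        · by_cases e3 : β₃ r₃ = 0
          · exact v2a_ne hB hb h1.2 g3.2 g3.1 e2 e3
          · exact v2a_core hB hr hb.rot g1.2 g2.2 g3.2 h2.2 h3.2 h1.2 e3 e1
        · exact v2a_core hB hr hb.rot.rot g1.2 g2.2 g3.2 h3.2 h1.2 h2.2 e1 e2
    · right
      exact ⟨_, lt_top_iff_ne_top.2 hS2, fun v hv hvB => Submodule.subset_span ⟨hv, hvB⟩⟩
  · left
    exact ⟨_, lt_top_iff_ne_top.2 hS1, fun v hv hvB => Submodule.subset_span ⟨hv, hvB⟩⟩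

end Pool.Agent.SB
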