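import Pool.Agent.Helper79.SV.V2a

set_option autoImplicit false

/-!
# SB-V-03: two-colourings of projective spaces

NOTE (helper10): the proof below is a different and shorter one. For `r ≠ 0` colour the lines
through `r` by their majority colour: by `plane_flag` this is a `LineFlag` on `V / r`, so by
induction almost all lines through `r` have one majority colour `m r`. If `r` is blue and `m r` is
red then all blue vectors are in a proper subspace (and conversely), and `m r`, `m r'` are equal
for all `r`, `r'` (`plane_flag` for a space `span {r, r', w}`).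

Original plan: Induction on `n = dim V`.  `n = 0, 1`: trivial (`U = 0`; all nonzero vectors of a 1-dimensional
space have the same colour by `hB.smul`; if that colour is red, no blue vectors, `U = ⊥`).
`n = 2`: `V = span {u, v}`: at most one blue (or red) line, `U` = this line.  `n = 3`: `plane_flag`.
`n ≥ 4`.  Suppose that the blue vectors span `V` and the red vectors span `V`.  For a proper subspace
`H` (the restriction of `B` to `H` is a `LineFlag`) by induction exactly one colour is contained in
a proper subspace of `H` when `H ≠ 0` (not both, `C` infinite: a vector space is not the union of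
two proper subspaces).  Let `U(H)` be the SPAN of the vectors of this minority colour, `U(H) < H`.
`H` is red-dominant if the blue ones are the minority.
Let `v_1 .. v_n` be a blue basis, `H_i = span {v_j : j ≠ i}`: blue spans `H_i`, so `H_i` is
blue-dominant, `U_i = U(H_i)` = span of the red vectors of `H_i`.
(1) There are infinitely many red-dominant hyperplanes: with a red basis `r_1 .. r_n` the plane
`span {r_(n-1), r_n}` contains infinitely many red lines `⟨r'⟩` (two red points, so at most one blue
point), and `span {r_1, .., r_(n-2), r'}` are pairwise different hyperplanes spanned by red vectors.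
(2) Let `H` be a red-dominant hyperplane, `H ≠ H_i`, `M = H ⊓ H_i` of dimension `n - 2`.  Every vector of
`M` is in `U(H)` (if blue) or in `U_i` (if red), so `M ≤ U(H)` or `M ≤ U_i`, so `M = U(H)` or `M = U_i`
(dimensions: `U(H) < H`, `U_i < H_i` have dimension at most `n - 2`).
(3) For a given `H` the `i` with `U(H) = H ⊓ H_i ≤ H_i` are at most two: `dim U(H) = n - 2` and the
hyperplanes `H_i` are the kernels of a basis of the dual space (three of them intersect in
dimension `n - 3`).  So for at least `n - 2 ≥ 2` indices `i`: `U_i = H ⊓ H_i ≤ H` and `dim U_i = n - 2`.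
(4) For two such indices `i ≠ j`: `U_i ≠ U_j`: otherwise `U_i = H_i ⊓ H_j = span {v_l : l ≠ i, j}` is
spanned by blue vectors and by red vectors, contradicting the induction hypothesis for this
subspace (dimension `n - 2 ≥ 1`).  So `H = U_i + U_j`: `H` is one of at most `n^2` hyperplanes.
Contradiction to (1).
-/

namespace Pool.Agent.SB

/-- at most one line of `span {r, v}` is outside `B` -/
private def MB (C : Type) [Field C] {V : Type} [AddCommGroup V] [Module C V] (B : Set V)
    (r v : V) : Prop :=
  ∀ x ∈ Submodule.span C {r, v}, ∀ y ∈ Submodule.span C {r, v}, x ≠ 0 → y ≠ 0 →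
    x ∉ B → y ∉ B → ∃ c : C, y = c • x

private theorem MB_congr (C : Type) [Field C] {V : Type} [AddCommGroup V] [Module C V] (B : Set V)
    {r v v' : V} (h : Submodule.span C {r, v} = Submodule.span C {r, v'}) :
    MB C B r v ↔ MB C B r v' := by
  unfold MB
  rw [h]

private theorem compl_flag {C : Type} [Field C] {V : Type} [AddCommGroup V] [Module C V]
    {B : Set V} (hB : LineFlag C B) : LineFlag C Bᶜ := by
  refine ⟨fun c v hc => not_congr (hB.smul c v hc), fun u v => ?_⟩
  rcases hB.line u v with h | h
  · right
    intro x hx y hy hx0 hy0 hxB hyB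
    exact h x hx y hy hx0 hy0 (not_not.1 hxB) (not_not.1 hyB)
  · left
    intro x hx y hy hx0 hy0 hxB hyB
    exact h x hx y hy hx0 hy0 hxB hyB

/-- `B` generates a line with at most one point outside `B` -/
private theorem MB_le {C : Type} [Field C] {V : Type} [AddCommGroup V] [Module C V] {B : Set V}
    {r v : V} (hr : r ≠ 0) (hv : v ∉ Submodule.span C {r}) (h : MB C B r v)
    (U : Submodule C V)
    (hU : ∀ x ∈ Submodule.span C {r, v}, x ≠ 0 → x ∈ B → x ∈ U) : r ∈ U ∧ v ∈ U := by
  have hrm : r ∈ Submodule.span C {r, v} := Submodule.subset_span (by simp)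
  have hvm : v ∈ Submodule.span C {r, v} := Submodule.subset_span (by simp)
  have hv0 : v ≠ 0 := by
    rintro rfl
    exact hv (Submodule.zero_mem _)
  have hsum : r + v ∈ Submodule.span C {r, v} := Submodule.add_mem _ hrm hvm
  have hsum0 : r + v ≠ 0 := by
    intro h0
    apply hv
    rw [Submodule.mem_span_singleton]
    exact ⟨-1, by rw [neg_smul, one_smul]; exact (eq_neg_of_add_eq_zero_right h0).symm⟩
  by_cases hrB : r ∈ B
  · have hrU := hU r hrm hr hrB
    by_cases hvB : v ∈ B
    · exact ⟨hrU, hU v hvm hv0 hvB⟩
    · have hs : r + v ∈ B := by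
        by_contra hs
        obtain ⟨c, hc⟩ := h v hvm (r + v) hsum hv0 hsum0 hvB hs
        have h1 : r = (c - 1) • v := by
          rw [sub_smul, one_smul, ← hc]
          abel
        have hc1 : c - 1 ≠ 0 := by
          intro h2
          rw [h2, zero_smul] at h1
          exact hr h1
        apply hv
        rw [Submodule.mem_span_singleton]
        exact ⟨(c - 1)⁻¹, by rw [h1, smul_smul, inv_mul_cancel₀ hc1, one_smul]⟩
      have hsU := hU _ hsum hsum0 hs
      have h2 := U.sub_mem hsU hrU
      rw [add_sub_cancel_left] at h2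
      exact ⟨hrU, h2⟩
  · by_cases hvB : v ∈ B
    · have hvU := hU v hvm hv0 hvB
      have hs : r + v ∈ B := by
        by_contra hs
        obtain ⟨c, hc⟩ := h r hrm (r + v) hsum hr hsum0 hrB hs
        apply hv
        rw [Submodule.mem_span_singleton]
        exact ⟨c - 1, by rw [sub_smul, one_smul, ← hc]; abel⟩
      have hsU := hU _ hsum hsum0 hs
      have h2 := U.sub_mem hsU hvU
      rw [add_sub_cancel_right] at h2
      exact ⟨h2, hvU⟩
    · exfalso
      obtain ⟨c, hc⟩ := h r hrm v hvm hr hv0 hrB hvB
      exact hv (Submodule.mem_span_singleton.2 ⟨c, hc.symm⟩)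

private theorem restrict_flag {C : Type} [Field C] {V : Type} [AddCommGroup V] [Module C V]
    {B : Set V} (hB : LineFlag C B) (W : Submodule C V) :
    LineFlag C {w : W | (w : V) ∈ B} := by
  have hmem : ∀ u v x : W, x ∈ Submodule.span C {u, v} →
      (x : V) ∈ Submodule.span C {(u : V), (v : V)} := by
    intro u v x hx
    obtain ⟨a, b, rfl⟩ := Submodule.mem_span_pair.1 hx
    exact Submodule.mem_span_pair.2 ⟨a, b, rfl⟩
  refine ⟨fun c v hc => hB.smul c v hc, fun u v => ?_⟩
  rcases hB.line (u : V) (v : V) with h | h
  · left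
    intro x hx y hy hx0 hy0 hxB hyB
    obtain ⟨c, hc⟩ := h x (hmem _ _ _ hx) y (hmem _ _ _ hy) (fun h0 => hx0 (Subtype.ext h0))
      (fun h0 => hy0 (Subtype.ext h0)) hxB hyB
    exact ⟨c, Subtype.ext hc⟩
  · right
    intro x hx y hy hx0 hy0 hxB hyB
    obtain ⟨c, hc⟩ := h x (hmem _ _ _ hx) y (hmem _ _ _ hy) (fun h0 => hx0 (Subtype.ext h0))
      (fun h0 => hy0 (Subtype.ext h0)) hxB hyB
    exact ⟨c, Subtype.ext hc⟩

private theorem rk_map {C : Type} [Field C] {V : Type} [AddCommGroup V] [Module C V]
    [FiniteDimensional C V] {r : V} (hr : r ≠ 0) (S : Submodule C V) (hS : r ∈ S) :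
    Module.finrank C (S.map (Submodule.span C {r}).mkQ) + 1 = Module.finrank C S := by
  have h1 := LinearMap.finrank_range_add_finrank_ker ((Submodule.span C {r}).mkQ.domRestrict S)
  rw [LinearMap.range_domRestrict] at h1
  have h2 : LinearMap.ker ((Submodule.span C {r}).mkQ.domRestrict S) =
      (Submodule.span C {r}).comap S.subtype := by
    ext x
    simp [LinearMap.mem_ker, LinearMap.domRestrict_apply]
  have hle : Submodule.span C {r} ≤ S := by
    rw [Submodule.span_singleton_le_iff_mem]
    exact hS
  have h3 : Module.finrank C ((Submodule.span C {r}).comap S.subtype) = 1 := by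
    rw [(Submodule.comapSubtypeEquivOfLe hle).finrank_eq]
    exact finrank_span_singleton hr
  rw [h2, h3] at h1
  exact h1

private theorem le_one_smul {C : Type} [Field C] {V : Type} [AddCommGroup V] [Module C V]
    [FiniteDimensional C V] {S : Submodule C V} (hS : Module.finrank C S ≤ 1) {x y : V}
    (hx : x ∈ S) (hy : y ∈ S) (hx0 : x ≠ 0) : ∃ c : C, y = c • x := by
  obtain ⟨v, hv⟩ := finrank_le_one_iff.1 hS
  obtain ⟨a, ha⟩ := hv ⟨x, hx⟩
  obtain ⟨b, hb⟩ := hv ⟨y, hy⟩
  have ha' : a • (v : V) = x := congrArg Subtype.val ha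
  have hb' : b • (v : V) = y := congrArg Subtype.val hb
  have ha0 : a ≠ 0 := by
    rintro rfl
    rw [zero_smul] at ha'
    exact hx0 ha'.symm
  exact ⟨b * a⁻¹, by rw [← ha', ← hb', smul_smul, mul_assoc, inv_mul_cancel₀ ha0, mul_one]⟩

private theorem span_pair_eq {C : Type} [Field C] {V : Type} [AddCommGroup V] [Module C V]
    {r v v' : V} (h : v' - v ∈ Submodule.span C {r}) :
    Submodule.span C {r, v'} = Submodule.span C {r, v} := by
  obtain ⟨a, ha⟩ := Submodule.mem_span_singleton.1 h
  have h1 : v' = a • r + v := by
    rw [ha]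
    abel
  apply le_antisymm
  · rw [Submodule.span_le]
    rintro x (rfl | rfl)
    · exact Submodule.subset_span (by simp)
    · rw [h1]
      exact Submodule.mem_span_pair.2 ⟨a, 1, by rw [one_smul]⟩
  · rw [Submodule.span_le]
    rintro x (rfl | rfl)
    · exact Submodule.subset_span (by simp)
    · have h2 : x = (-a) • r + (1 : C) • v' := by
        rw [h1, one_smul, neg_smul]
        abel
      exact Submodule.mem_span_pair.2 ⟨-a, 1, h2.symm⟩

/-- the lines through `r` with at most one point outside `B` -/
private def QB (C : Type) [Field C] {V : Type} [AddCommGroup V] [Module C V] (B : Set V)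
    (r : V) : Set (V ⧸ Submodule.span C {r}) :=
  {q | ∃ v, (Submodule.span C {r}).mkQ v = q ∧ MB C B r v}

private theorem mem_QB {C : Type} [Field C] {V : Type} [AddCommGroup V] [Module C V] {B : Set V}
    {r : V} (v : V) : (Submodule.span C {r}).mkQ v ∈ QB C B r ↔ MB C B r v := by
  constructor
  · rintro ⟨v', h1, h2⟩
    rw [Submodule.mkQ_apply, Submodule.mkQ_apply, Submodule.Quotient.eq] at h1
    exact (MB_congr C B (span_pair_eq h1)).1 h2
  · intro h
    exact ⟨v, rfl, h⟩

private theorem QB_aux {C : Type} [Field C] {V : Type} [AddCommGroup V] [Module C V]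
    [FiniteDimensional C V] {B : Set V} {r : V} (hr : r ≠ 0) (W : Submodule C V) (hrW : r ∈ W)
    (hW : Module.finrank C W = 3) (U : Submodule C W) (hU : U < ⊤)
    (hUB : ∀ v : W, v ≠ 0 → (v : V) ∈ B → v ∈ U) {v v' : V} (hv : v ∈ W) (hv' : v' ∈ W)
    (h : MB C B r v) (h' : MB C B r v') (h0 : v ∉ Submodule.span C {r})
    (h0' : v' ∉ Submodule.span C {r}) :
    ∃ c : C, (Submodule.span C {r}).mkQ v' = c • (Submodule.span C {r}).mkQ v := by
  have key : ∀ v ∈ W, MB C B r v → v ∉ Submodule.span C {r} →
      r ∈ U.map W.subtype ∧ v ∈ U.map W.subtype := by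
    intro v hv h h0
    refine MB_le hr h0 h _ ?_
    intro x hx hx0 hxB
    have hxW : x ∈ W := by
      have hle : Submodule.span C {r, v} ≤ W := by
        rw [Submodule.span_le]
        rintro z (rfl | rfl)
        · exact hrW
        · exact hv
      exact hle hx
    exact ⟨⟨x, hxW⟩, hUB ⟨x, hxW⟩ (fun h1 => hx0 (congrArg Subtype.val h1)) hxB, rfl⟩
  obtain ⟨k1, k2⟩ := key v hv h h0
  obtain ⟨-, k3⟩ := key v' hv' h' h0'
  have h1 := rk_map hr _ k1
  have h2 : Module.finrank C (U.map W.subtype) = Module.finrank C U :=
    (Submodule.equivMapOfInjective W.subtype W.injective_subtype U).finrank_eq.symm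
  have h3 := Submodule.finrank_lt hU.ne
  have h4 : Module.finrank C ((U.map W.subtype).map (Submodule.span C {r}).mkQ) ≤ 1 := by omega
  refine le_one_smul h4 (Submodule.mem_map_of_mem k2) (Submodule.mem_map_of_mem k3) ?_
  intro h5
  apply h0
  rw [← Submodule.ker_mkQ (Submodule.span C {r})]
  exact h5

private theorem QB_flag {C : Type} [Field C] [Infinite C] {V : Type} [AddCommGroup V] [Module C V]
    [FiniteDimensional C V] {B : Set V} (hB : LineFlag C B) {r : V} (hr : r ≠ 0) :
    LineFlag C (QB C B r) := by
  have hsurj : Function.Surjective (Submodule.span C {r}).mkQ := Submodule.mkQ_surjective _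
  have hzero : ∀ v, (Submodule.span C {r}).mkQ v ≠ 0 → v ∉ Submodule.span C {r} := by
    intro v h1 h2
    apply h1
    rw [← LinearMap.mem_ker, Submodule.ker_mkQ]
    exact h2
  refine ⟨?_, ?_⟩
  · intro c q hc
    obtain ⟨v, rfl⟩ := hsurj q
    rw [← map_smul, mem_QB, mem_QB]
    refine MB_congr C B ?_
    apply le_antisymm
    · rw [Submodule.span_le]
      rintro x (rfl | rfl)
      · exact Submodule.subset_span (by simp)
      · exact Submodule.smul_mem _ _ (Submodule.subset_span (by simp))
    · rw [Submodule.span_le]
      rintro x (rfl | rfl)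
      · exact Submodule.subset_span (by simp)
      · have h1 : c⁻¹ • (c • x) ∈ Submodule.span C {r, c • x} :=
          Submodule.smul_mem _ _ (Submodule.subset_span (by simp))
        rw [smul_smul, inv_mul_cancel₀ hc, one_smul] at h1
        exact h1
  · intro q1 q2
    by_cases h2 : Module.finrank C (Submodule.span C {q1, q2}) ≤ 1
    · left
      intro x hx y hy hx0 _ _ _
      exact le_one_smul h2 hx hy hx0
    · let W := (Submodule.span C {q1, q2}).comap (Submodule.span C {r}).mkQ
      have hrW : r ∈ W := by
        change (Submodule.span C {r}).mkQ r ∈ Submodule.span C {q1, q2}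
        have h3 : (Submodule.span C {r}).mkQ r = 0 := by
          rw [← LinearMap.mem_ker, Submodule.ker_mkQ]
          exact Submodule.mem_span_singleton_self r
        rw [h3]
        exact Submodule.zero_mem _
      have hmap : W.map (Submodule.span C {r}).mkQ = Submodule.span C {q1, q2} :=
        Submodule.map_comap_eq_of_surjective hsurj _
      have hle2 : Module.finrank C (Submodule.span C {q1, q2}) ≤ 2 := by
        classical
        have h4 := finrank_span_finset_le_card (R := C) ({q1, q2} : Finset (V ⧸ Submodule.span C {r}))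
        rw [Finset.coe_pair] at h4
        exact h4.trans Finset.card_le_two
      have hW : Module.finrank C W = 3 := by
        have h4 := rk_map hr W hrW
        rw [hmap] at h4
        omega
      rcases plane_flag C hW {w : W | (w : V) ∈ B} (restrict_flag hB W) with
        ⟨U, hU, hUB⟩ | ⟨U, hU, hUB⟩
      · left
        intro x hx y hy hx0 hy0 hxB hyB
        obtain ⟨v, rfl⟩ := hsurj x
        obtain ⟨v', rfl⟩ := hsurj y
        rw [mem_QB] at hxB hyB
        exact QB_aux hr W hrW hW U hU hUB hx hy hxB hyB (hzero v hx0) (hzero v' hy0)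
      · right
        intro x hx y hy hx0 hy0 hxB hyB
        obtain ⟨v, rfl⟩ := hsurj x
        obtain ⟨v', rfl⟩ := hsurj y
        rw [mem_QB] at hxB hyB
        have hc : ∀ v, ¬ MB C B r v → MB C Bᶜ r v := by
          intro v hv
          rcases hB.line r v with h | h
          · intro x hx y hy hx0 hy0 hxB hyB
            exact h x hx y hy hx0 hy0 (not_not.1 hxB) (not_not.1 hyB)
          · exact absurd h hv
        exact QB_aux (B := Bᶜ) hr W hrW hW U hU hUB hx hy (hc v hxB) (hc v' hyB) (hzero v hx0)
          (hzero v' hy0)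

private theorem fin_step {C : Type} [Field C] {V : Type} [AddCommGroup V] [Module C V]
    {B : Set V} {r r' w : V} (hr : r ≠ 0) (hr' : r' ∉ Submodule.span C {r}) (U1 : Submodule C V)
    (h1 : ∀ v, v ∉ U1 → MB C B r v) (hrU : r ∈ U1) (hw : w ∉ U1) (W : Submodule C V)
    (hWr : r ∈ W) (hWr' : r' ∈ W) (hWw : w ∈ W) (U : Submodule C W)
    (hUB : ∀ v : W, v ≠ 0 → (v : V) ∈ B → v ∈ U) :
    r ∈ U.map W.subtype ∧ r' ∈ U.map W.subtype ∧ w ∈ U.map W.subtype := by
  have hsp : Submodule.span C {r} ≤ U1 := by
    rw [Submodule.span_singleton_le_iff_mem]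
    exact hrU
  have key : ∀ v ∈ W, v ∉ U1 → v ∉ Submodule.span C {r} →
      r ∈ U.map W.subtype ∧ v ∈ U.map W.subtype := by
    intro v hv hv1 h0
    refine MB_le hr h0 (h1 v hv1) _ ?_
    intro x hx hx0 hxB
    have hxW : x ∈ W := by
      have hle : Submodule.span C {r, v} ≤ W := by
        rw [Submodule.span_le]
        rintro z (rfl | rfl)
        · exact hWr
        · exact hv
      exact hle hx
    exact ⟨⟨x, hxW⟩, hUB ⟨x, hxW⟩ (fun h1 => hx0 (congrArg Subtype.val h1)) hxB, rfl⟩
  obtain ⟨k1, k2⟩ := key w hWw hw (fun h => hw (hsp h))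
  refine ⟨k1, ?_, k2⟩
  by_cases h3 : r' ∈ U1
  · have h4 : w + r' ∉ U1 := by
      intro h5
      apply hw
      have := U1.sub_mem h5 h3
      rwa [add_sub_cancel_right] at this
    obtain ⟨-, k3⟩ := key (w + r') (W.add_mem hWw hWr') h4 (fun h => h4 (hsp h))
    have := (U.map W.subtype).sub_mem k3 k2
    rwa [add_sub_cancel_left] at this
  · exact (key r' hWr' h3 hr').2

private theorem space_flag_aux (C : Type) [Field C] [Infinite C] (n : ℕ) :
    ∀ {V : Type} [AddCommGroup V] [Module C V] [FiniteDimensional C V]
    (_ : Module.finrank C V = n + 1) (B : Set V) (_ : LineFlag C B),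
    (∃ U : Submodule C V, U < ⊤ ∧ ∀ v : V, v ≠ 0 → v ∈ B → v ∈ U) ∨
    (∃ U : Submodule C V, U < ⊤ ∧ ∀ v : V, v ≠ 0 → v ∉ B → v ∈ U) := by
  induction n with
  | zero =>
    intro V _ _ _ hV B hB
    have hnt : Nontrivial V := Module.nontrivial_of_finrank_pos (R := C) (by omega)
    obtain ⟨v, hv⟩ := finrank_le_one_iff.1 (le_of_eq hV)
    have hcol : ∀ w : V, w ≠ 0 → (w ∈ B ↔ v ∈ B) := by
      intro w hw
      obtain ⟨c, rfl⟩ := hv w
      refine hB.smul c v ?_
      rintro rfl
      exact hw (zero_smul _ _)
    by_cases hvB : v ∈ B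
    · right
      exact ⟨⊥, bot_lt_top, fun w hw hwB => absurd ((hcol w hw).2 hvB) hwB⟩
    · left
      exact ⟨⊥, bot_lt_top, fun w hw hwB => absurd ((hcol w hw).1 hwB) hvB⟩
  | succ n ih =>
    intro V _ _ _ hV B hB
    have hnt : Nontrivial V := Module.nontrivial_of_finrank_pos (R := C) (by omega)
    by_cases hn : n = 0
    · -- dimension two
      subst hn
      obtain ⟨b⟩ : Nonempty (Module.Basis (Fin 2) C V) :=
        ⟨Module.finBasisOfFinrankEq C V hV⟩
      have htop : Submodule.span C {b 0, b 1} = ⊤ := by
        rw [← b.span_eq]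
        congr 1
        ext x
        simp [Fin.exists_fin_two, eq_comm]
      have main : ∀ (B : Set V), (∀ x ∈ Submodule.span C {b 0, b 1},
          ∀ y ∈ Submodule.span C {b 0, b 1}, x ≠ 0 → y ≠ 0 → x ∈ B → y ∈ B → ∃ c : C, y = c • x) →
          ∃ U : Submodule C V, U < ⊤ ∧ ∀ v : V, v ≠ 0 → v ∈ B → v ∈ U := by
        intro B h
        by_cases hex : ∃ x, x ≠ 0 ∧ x ∈ B
        · obtain ⟨x, hx0, hxB⟩ := hex
          refine ⟨Submodule.span C {x}, ?_, ?_⟩
          · rw [lt_top_iff_ne_top]
            intro h1
            have h2 := finrank_span_singleton (K := C) hx0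
            rw [h1, finrank_top, hV] at h2
            omega
          · intro v hv0 hvB
            obtain ⟨c, rfl⟩ := h x (htop ▸ Submodule.mem_top) v (htop ▸ Submodule.mem_top) hx0 hv0
              hxB hvB
            exact Submodule.smul_mem _ _ (Submodule.mem_span_singleton_self x)
        · push Not at hex
          exact ⟨⊥, bot_lt_top, fun v hv hvB => absurd hvB (hex v hv)⟩
      rcases hB.line (b 0) (b 1) with h | h
      · left
        exact main B h
      · right
        exact main Bᶜ h
    · by_cases hblue : ∃ r, r ≠ 0 ∧ r ∈ B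
      swap
      · left
        push Not at hblue
        exact ⟨⊥, bot_lt_top, fun v hv hvB => absurd hvB (hblue v hv)⟩
      by_cases hred : ∃ r, r ≠ 0 ∧ r ∉ B
      swap
      · right
        push Not at hred
        exact ⟨⊥, bot_lt_top, fun v hv hvB => absurd (hred v hv) hvB⟩
      obtain ⟨r, hr0, hrB⟩ := hblue
      obtain ⟨r', hr0', hrB'⟩ := hred
      have cone : ∀ r : V, r ≠ 0 → ∃ U' : Submodule C V, U' < ⊤ ∧ r ∈ U' ∧
          ((∀ v, v ∉ U' → MB C B r v) ∨ (∀ v, v ∉ U' → MB C Bᶜ r v)) := by
        intro r hr
        have hq : Module.finrank C (V ⧸ Submodule.span C {r}) = n + 1 := by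
          have h1 := Submodule.finrank_quotient_add_finrank (Submodule.span C {r})
          rw [finrank_span_singleton hr, hV] at h1
          omega
        have hrk : (Submodule.span C {r}).mkQ r = 0 := by
          rw [← LinearMap.mem_ker, Submodule.ker_mkQ]
          exact Submodule.mem_span_singleton_self r
        have hlt : ∀ U : Submodule C (V ⧸ Submodule.span C {r}), U < ⊤ →
            U.comap (Submodule.span C {r}).mkQ < ⊤ := by
          intro U hU
          rw [lt_top_iff_ne_top] at hU ⊢
          intro h1
          apply hU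
          rw [eq_top_iff]
          intro q _
          obtain ⟨v, rfl⟩ := Submodule.mkQ_surjective (Submodule.span C {r}) q
          have h2 : v ∈ U.comap (Submodule.span C {r}).mkQ := by
            rw [h1]
            exact Submodule.mem_top
          exact h2
        rcases ih hq (QB C B r) (QB_flag hB hr) with ⟨U, hU, hUB⟩ | ⟨U, hU, hUB⟩
        · refine ⟨U.comap (Submodule.span C {r}).mkQ, hlt U hU, ?_, Or.inr ?_⟩
          · change (Submodule.span C {r}).mkQ r ∈ U
            rw [hrk]
            exact U.zero_mem
          · intro v hv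
            have hv' : (Submodule.span C {r}).mkQ v ∉ U := hv
            have h1 : ¬ MB C B r v := by
              intro h2
              refine hv' (hUB _ ?_ ((mem_QB v).2 h2))
              intro h3
              rw [h3] at hv'
              exact hv' U.zero_mem
            rcases hB.line r v with h | h
            · intro x hx y hy hx0 hy0 hxB hyB
              exact h x hx y hy hx0 hy0 (not_not.1 hxB) (not_not.1 hyB)
            · exact absurd h h1
        · refine ⟨U.comap (Submodule.span C {r}).mkQ, hlt U hU, ?_, Or.inl ?_⟩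
          · change (Submodule.span C {r}).mkQ r ∈ U
            rw [hrk]
            exact U.zero_mem
          · intro v hv
            have hv' : (Submodule.span C {r}).mkQ v ∉ U := hv
            by_contra h1
            refine hv' (hUB _ ?_ (fun h2 => h1 ((mem_QB v).1 h2)))
            intro h3
            rw [h3] at hv'
            exact hv' U.zero_mem
      obtain ⟨U1, hU1, hrU1, h1 | h1⟩ := cone r hr0
      swap
      · left
        refine ⟨U1, hU1, fun v hv hvB => ?_⟩
        by_contra hvU
        obtain ⟨c, hc⟩ := h1 v hvU r (Submodule.subset_span (by simp)) v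
          (Submodule.subset_span (by simp)) hr0 hv (fun h => h hrB) (fun h => h hvB)
        exact hvU (by rw [hc]; exact U1.smul_mem _ hrU1)
      obtain ⟨U2, hU2, hrU2, h2 | h2⟩ := cone r' hr0'
      · right
        refine ⟨U2, hU2, fun v hv hvB => ?_⟩
        by_contra hvU
        obtain ⟨c, hc⟩ := h2 v hvU r' (Submodule.subset_span (by simp)) v
          (Submodule.subset_span (by simp)) hr0' hv hrB' hvB
        exact hvU (by rw [hc]; exact U2.smul_mem _ hrU2)
      exfalso
      -- `r`, `r'` are independent
      have hind : r' ∉ Submodule.span C {r} := by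
        intro h
        obtain ⟨c, hc⟩ := Submodule.mem_span_singleton.1 h
        have hc0 : c ≠ 0 := by
          rintro rfl
          rw [zero_smul] at hc
          exact hr0' hc.symm
        apply hrB'
        rw [← hc, hB.smul c r hc0]
        exact hrB
      have hind' : r ∉ Submodule.span C {r'} := by
        intro h
        obtain ⟨c, hc⟩ := Submodule.mem_span_singleton.1 h
        have hc0 : c ≠ 0 := by
          rintro rfl
          rw [zero_smul] at hc
          exact hr0 hc.symm
        apply hrB'
        rw [← hB.smul c r' hc0, hc]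
        exact hrB
      obtain ⟨w, hw1, hw2, hw3⟩ : ∃ w : V, w ∉ U1 ∧ w ∉ U2 ∧ w ∉ Submodule.span C {r', r} := by
        by_contra hcon
        push Not at hcon
        have h3 : ⋃ i : Fin 3, ((![U1, U2, Submodule.span C {r', r}] i : Submodule C V) : Set V) =
            Set.univ := by
          rw [Set.eq_univ_iff_forall]
          intro x
          rw [Set.mem_iUnion]
          by_cases hx1 : x ∈ U1
          · exact ⟨0, hx1⟩
          by_cases hx2 : x ∈ U2
          · exact ⟨1, hx2⟩
          exact ⟨2, hcon x hx1 hx2⟩
        obtain ⟨i, hi⟩ := Subspace.exists_eq_top_of_iUnion_eq_univ h3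
        fin_cases i
        · exact hU1.ne hi
        · exact hU2.ne hi
        · have hi' : Submodule.span C {r', r} = ⊤ := hi
          classical
          have h4 := finrank_span_finset_le_card (R := C) ({r', r} : Finset V)
          rw [Finset.coe_pair] at h4
          have h5 : Module.finrank C (Submodule.span C {r', r}) ≤ 2 := h4.trans Finset.card_le_two
          rw [hi', finrank_top, hV] at h5
          omega
      have hli : LinearIndependent C ![w, r', r] := by
        rw [show (![w, r', r] : Fin 3 → V) = Fin.cons w ![r', r] from rfl,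
          linearIndependent_finCons]
        refine ⟨?_, ?_⟩
        · rw [show (![r', r] : Fin 2 → V) = Fin.cons r' ![r] from rfl, linearIndependent_finCons]
          refine ⟨?_, ?_⟩
          · exact LinearIndependent.of_subsingleton (0 : Fin 1) hr0
          · rw [Matrix.range_cons, Matrix.range_empty, Set.union_empty]
            exact hind
        · rw [Matrix.range_cons, Matrix.range_cons, Matrix.range_empty, Set.union_empty]
          exact hw3
      let W := Submodule.span C (Set.range ![w, r', r])
      have hW : Module.finrank C W = 3 := by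
        have := finrank_span_eq_card hli
        rwa [Fintype.card_fin] at this
      have hWr : r ∈ W := Submodule.subset_span ⟨2, rfl⟩
      have hWr' : r' ∈ W := Submodule.subset_span ⟨1, rfl⟩
      have hWw : w ∈ W := Submodule.subset_span ⟨0, rfl⟩
      have fin : ∀ U : Submodule C W, U < ⊤ → ¬ (r ∈ U.map W.subtype ∧ r' ∈ U.map W.subtype ∧
          w ∈ U.map W.subtype) := by
        rintro U hU ⟨k1, k2, k3⟩
        have h3 : W ≤ U.map W.subtype := by
          rw [Submodule.span_le]
          rintro _ ⟨i, rfl⟩
          fin_cases i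
          · exact k3
          · exact k2
          · exact k1
        apply hU.ne
        rw [eq_top_iff]
        rintro ⟨x, hx⟩ _
        obtain ⟨y, hy, hyx⟩ := h3 hx
        have : y = ⟨x, hx⟩ := Subtype.ext hyx
        rw [← this]
        exact hy
      rcases plane_flag C hW {w : W | (w : V) ∈ B} (restrict_flag hB W) with
        ⟨U, hU, hUB⟩ | ⟨U, hU, hUB⟩
      · exact fin U hU (fin_step hr0 hind U1 h1 hrU1 hw1 W hWr hWr' hWw U hUB)
      · obtain ⟨k1, k2, k3⟩ := fin_step (B := Bᶜ) hr0' hind' U2 h2 hrU2 hw2 W hWr' hWr hWw U hUB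
        exact fin U hU ⟨k2, k1, k3⟩

theorem space_flag (C : Type) [Field C] [Infinite C] {V : Type} [AddCommGroup V] [Module C V]
    [FiniteDimensional C V] (hV : 0 < Module.finrank C V) (B : Set V) (hB : LineFlag C B) :
    (∃ U : Submodule C V, U < ⊤ ∧ ∀ v : V, v ≠ 0 → v ∈ B → v ∈ U) ∨
    (∃ U : Submodule C V, U < ⊤ ∧ ∀ v : V, v ≠ 0 → v ∉ B → v ∈ U) := by
  obtain ⟨n, hn⟩ : ∃ n, Module.finrank C V = n + 1 := ⟨Module.finrank C V - 1, by omega⟩
  exact space_flag_aux C n hn B hB

end Pool.Agent.SB
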