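import Pool.Agent.Helper79.SV.V2b

set_option autoImplicit false

/-!
# SB-V-04: levels

(1) For every `a : ZMod ℓ` the set `B_a = {v ∈ V : v ≠ 0, χ v = a}` is a `LineFlag` on every finite
dimensional `C`-subspace `V` of `L`: stable under `C^*` by `IsChar`; for `u, v ∈ V` independent over
`C`: `v / u ∉ C`; the points of the projective line of `span {u, v}` are `v - c u` (`c ∈ C`) and `u`, with
`χ (v - c u) = χ u + χ (v/u - c)`, `χ u = χ u + 0`.  By `IsFlag` all points but at most one have the same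
value `x`: if `x = a` at most one point is outside `B_a`, if `x ≠ a` at most one is inside.  (`u, v`
dependent: the span has at most one line, both alternatives are trivial.)
(2) `V ≠ 0`: there are `a` and a proper subspace `V' < V` with `χ v = a` for all `v ∈ V \ V'`: by
`space_flag` for each `a` one of `B_a`, its complement is in a proper subspace; if it were always
`B_a`, then `V` would be a finite union of proper subspaces, impossible (`C` infinite;
`Submodule.iUnion_ne_univ_of_forall_ne_top` or similar in Mathlib, or `Subspace.exists_eq_top_of_iUnion_eq_univ`).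
(3) Iterate: `V = V_0 > V_1 > .. > V_r = 0`, `χ` constant on `V_i \ V_(i+1)`.  Put `lev v` = the largest `i`
with `v ∈ V_i` for `v ∈ V`, `v ≠ 0` (anything elsewhere); `U = V_m` (`⊥` for `m > r`).  Induction on
`finrank V` is convenient: `lev v = 0` on `V \ V'`, `lev v = 1 + lev' v` on `V'`.
-/

namespace Pool.Agent.SB

private theorem v2c_pair {L : Type} [Field L] {ℓ : ℕ} {C : Subfield L}
    {χ : L → ZMod ℓ} (hχ : IsChar C χ) (hf : IsFlag C χ) (u v : L) :
    ∃ (w : L) (b : ZMod ℓ), ∀ α β : C, (α : L) * u + (β : L) * v ≠ 0 →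
      χ ((α : L) * u + (β : L) * v) = b ∨ ∃ c : C, (α : L) * u + (β : L) * v = (c : L) * w := by
  by_cases hu : u = 0
  · refine ⟨v, 0, fun α β _ => Or.inr ⟨β, ?_⟩⟩
    rw [hu, mul_zero, zero_add]
  by_cases ht : v / u ∈ C
  · refine ⟨u, 0, fun α β _ => Or.inr ⟨α + β * ⟨v / u, ht⟩, ?_⟩⟩
    change (α : L) * u + (β : L) * v = ((α : L) + (β : L) * (v / u)) * u
    rw [add_mul, mul_assoc (β : L), div_mul_cancel₀ _ hu]
  have hval : ∀ α β : C, β ≠ 0 → (-(α / β) : C) ∈ (Set.univ : Set C) ∧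
      χ ((α : L) * u + (β : L) * v) = χ u + χ (v / u - ((-(α / β) : C) : L)) := by
    intro α β hβ
    refine ⟨Set.mem_univ _, ?_⟩
    have hβ' : (β : L) ≠ 0 := fun h => hβ (Subtype.ext h)
    have hne : v / u - ((-(α / β) : C) : L) ≠ 0 := by
      intro h
      apply ht
      rw [sub_eq_zero.1 h]
      exact (-(α / β) : C).2
    have h1 : (α : L) * u + (β : L) * v = (β : L) * (u * (v / u - ((-(α / β) : C) : L))) := by
      have h2 : ((-(α / β) : C) : L) = -((α : L) / (β : L)) := rfl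
      rw [h2]
      field_simp
      ring
    rw [h1, hχ.mul _ _ hβ' (mul_ne_zero hu hne), hχ.mul _ _ hu hne, hχ.const _ β.2 hβ', zero_add]
  rcases hf (v / u) ht with ⟨e, he, h⟩ | ⟨a', h⟩
  · refine ⟨v - e * u, χ u, fun α β h0 => ?_⟩
    by_cases hβ : β = 0
    · left
      subst hβ
      have h1 : (((0 : C) : C) : L) = 0 := rfl
      rw [h1, zero_mul, add_zero] at h0 ⊢
      have hα : (α : L) ≠ 0 := left_ne_zero_of_mul h0
      rw [hχ.mul _ _ hα hu, hχ.const _ α.2 hα, zero_add]
    · by_cases hc : ((-(α / β) : C) : L) = e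
      · right
        refine ⟨β, ?_⟩
        have hβ' : (β : L) ≠ 0 := fun h => hβ (Subtype.ext h)
        have h2 : ((-(α / β) : C) : L) = -((α : L) / (β : L)) := rfl
        rw [← hc, h2]
        field_simp
        ring
      · left
        rw [(hval α β hβ).2, h _ (-(α / β) : C).2 hc, add_zero]
  · refine ⟨u, χ u + a', fun α β h0 => ?_⟩
    by_cases hβ : β = 0
    · right
      subst hβ
      refine ⟨α, ?_⟩
      have h1 : (((0 : C) : C) : L) = 0 := rfl
      rw [h1, zero_mul, add_zero]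
    · left
      rw [(hval α β hβ).2, h _ (-(α / β) : C).2]

private theorem v2c_prop {L : Type} [Field L] {C : Subfield L} {w x y : L} (hx : x ≠ 0)
    (h1 : ∃ c : C, x = (c : L) * w) (h2 : ∃ c : C, y = (c : L) * w) :
    ∃ c : C, y = (c : L) * x := by
  obtain ⟨c, hc⟩ := h1
  obtain ⟨d, hd⟩ := h2
  have hc0 : (c : L) ≠ 0 := by
    intro h
    rw [h, zero_mul] at hc
    exact hx hc
  refine ⟨d / c, ?_⟩
  have h3 : ((d / c : C) : L) = (d : L) / (c : L) := rfl
  rw [h3, hd, hc]
  field_simp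

private theorem v2c_flag {L : Type} [Field L] {ℓ : ℕ} {C : Subfield L}
    {χ : L → ZMod ℓ} (hχ : IsChar C χ) (hf : IsFlag C χ) (V : Submodule C L) (a : ZMod ℓ) :
    LineFlag C ({v : V | (v : L) ≠ 0 ∧ χ (v : L) = a}) := by
  constructor
  · intro c v hc
    have hc' : (c : L) ≠ 0 := fun h => hc (Subtype.ext h)
    have h1 : ((c • v : V) : L) = (c : L) * (v : L) := rfl
    simp only [Set.mem_ofPred_eq]
    rw [h1]
    by_cases hv : (v : L) = 0
    · rw [hv, mul_zero]
    · rw [hχ.mul _ _ hc' hv, hχ.const _ c.2 hc', zero_add]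
      exact ⟨fun h => ⟨hv, h.2⟩, fun h => ⟨mul_ne_zero hc' hv, h.2⟩⟩
  · intro u v
    obtain ⟨w, b, h⟩ := v2c_pair hχ hf (u : L) (v : L)
    have key : ∀ x ∈ Submodule.span C {u, v}, x ≠ 0 → χ (x : L) ≠ b →
        ∃ c : C, (x : L) = (c : L) * w := by
      intro x hx hx0 hb
      obtain ⟨α, β, rfl⟩ := Submodule.mem_span_pair.1 hx
      have h1 : ((α • u + β • v : V) : L) = (α : L) * (u : L) + (β : L) * (v : L) := rfl
      have h2 : ((α • u + β • v : V) : L) ≠ 0 := fun h => hx0 (Subtype.ext h)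
      rw [h1] at h2 hb ⊢
      exact (h α β h2).resolve_left hb
    have key2 : ∀ x ∈ Submodule.span C {u, v}, ∀ y ∈ Submodule.span C {u, v}, x ≠ 0 → y ≠ 0 →
        χ (x : L) ≠ b → χ (y : L) ≠ b → ∃ c : C, y = c • x := by
      intro x hx y hy hx0 hy0 h1 h2
      obtain ⟨c, hc⟩ := v2c_prop (fun h => hx0 (Subtype.ext h)) (key x hx hx0 h1) (key y hy hy0 h2)
      exact ⟨c, Subtype.ext hc⟩
    by_cases hab : a = b
    · right
      intro x hx y hy hx0 hy0 h1 h2
      refine key2 x hx y hy hx0 hy0 ?_ ?_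
      · intro h3
        exact h1 ⟨fun h => hx0 (Subtype.ext h), h3.trans hab.symm⟩
      · intro h3
        exact h2 ⟨fun h => hy0 (Subtype.ext h), h3.trans hab.symm⟩
    · left
      intro x hx y hy hx0 hy0 h1 h2
      refine key2 x hx y hy hx0 hy0 ?_ ?_
      · intro h3
        exact hab (h1.2.symm.trans h3)
      · intro h3
        exact hab (h2.2.symm.trans h3)

private theorem v2c_drop {L : Type} [Field L] {ℓ : ℕ} (hℓ : ℓ.Prime) {C : Subfield L}
    (hC : (C : Set L).Infinite) {χ : L → ZMod ℓ} (hχ : IsChar C χ) (hf : IsFlag C χ)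
    (V : Submodule C L) [FiniteDimensional C V] (hV : 0 < Module.finrank C V) :
    ∃ (a : ZMod ℓ) (U : Submodule C V), U < ⊤ ∧ ∀ v : V, v ∉ U → χ (v : L) = a := by
  have : Infinite C := hC.to_subtype
  have : NeZero ℓ := ⟨hℓ.ne_zero⟩
  have h := fun a => space_flag C hV _ (v2c_flag hχ hf V a)
  by_contra hcon
  push Not at hcon
  have h2 : ∀ a : ZMod ℓ, ∃ U : Submodule C V, U < ⊤ ∧
      ∀ v : V, v ≠ 0 → χ (v : L) = a → v ∈ U := by
    intro a
    rcases h a with ⟨U, hU, h3⟩ | ⟨U, hU, h3⟩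
    · exact ⟨U, hU, fun v hv hva => h3 v hv ⟨fun h => hv (Subtype.ext h), hva⟩⟩
    · exfalso
      obtain ⟨v, hv, hva⟩ := hcon a U hU
      apply hv
      refine h3 v ?_ fun h4 => hva h4.2
      rintro rfl
      exact hv (Submodule.zero_mem _)
  choose U hU h3 using h2
  obtain ⟨a, ha⟩ := Subspace.exists_eq_top_of_iUnion_eq_univ (k := C) (E := V) (p := U) (by
    rw [Set.eq_univ_iff_forall]
    intro v
    rw [Set.mem_iUnion]
    refine ⟨χ (v : L), ?_⟩
    by_cases hv : v = 0
    · rw [hv]; exact Submodule.zero_mem _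
    · exact h3 _ v hv rfl)
  exact (hU a).ne ha

private theorem v2c_ind {L : Type} [Field L] {ℓ : ℕ} (hℓ : ℓ.Prime) (C : Subfield L)
    (hC : (C : Set L).Infinite) (χ : L → ZMod ℓ) (hχ : IsChar C χ) (hf : IsFlag C χ) (N : ℕ) :
    ∀ (V : Submodule C L) [FiniteDimensional C V], Module.finrank C V ≤ N →
    ∃ lev : L → ℕ,
      (∀ m : ℕ, ∃ U : Submodule C L, ∀ v ∈ V, v ∈ U ↔ (v = 0 ∨ m ≤ lev v)) ∧
      (∀ u ∈ V, ∀ v ∈ V, u ≠ 0 → v ≠ 0 → lev u = lev v → χ u = χ v) := by
  have hzero : ∀ (V : Submodule C L) [FiniteDimensional C V], Module.finrank C V = 0 →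
      ∃ lev : L → ℕ,
      (∀ m : ℕ, ∃ U : Submodule C L, ∀ v ∈ V, v ∈ U ↔ (v = 0 ∨ m ≤ lev v)) ∧
      (∀ u ∈ V, ∀ v ∈ V, u ≠ 0 → v ≠ 0 → lev u = lev v → χ u = χ v) := by
    intro V _ hV
    have h0 : V = ⊥ := Submodule.finrank_eq_zero.1 hV
    subst h0
    refine ⟨fun _ => 0, fun m => ⟨⊥, fun v hv => ?_⟩, fun u hu v _ hu0 => ?_⟩
    · exact ⟨fun _ => Or.inl ((Submodule.mem_bot C).1 hv), fun _ => hv⟩
    · exact absurd ((Submodule.mem_bot C).1 hu) hu0
  induction N with
  | zero =>
    intro V _ hV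
    exact hzero V (Nat.le_zero.1 hV)
  | succ N ih =>
    intro V _ hV
    by_cases h0 : Module.finrank C V = 0
    · exact hzero V h0
    obtain ⟨a, U, hU, ha⟩ := v2c_drop hℓ hC hχ hf V (Nat.pos_of_ne_zero h0)
    have hfin : Module.finrank C (U.map V.subtype) < Module.finrank C V := by
      rw [← (Submodule.equivMapOfInjective V.subtype V.injective_subtype U).finrank_eq]
      exact Submodule.finrank_lt hU.ne
    have : FiniteDimensional C (U.map V.subtype) := inferInstance
    obtain ⟨lev, h1, h2⟩ := ih (U.map V.subtype) (by omega)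
    classical
    refine ⟨fun v => if v ∈ U.map V.subtype then 1 + lev v else 0, ?_, ?_⟩
    · intro m
      rcases m with _ | m
      · exact ⟨⊤, fun v _ => ⟨fun _ => Or.inr (Nat.zero_le _), fun _ => Submodule.mem_top⟩⟩
      · obtain ⟨W, hW⟩ := h1 m
        refine ⟨W ⊓ U.map V.subtype, fun v hv => ?_⟩
        change v ∈ W ⊓ U.map V.subtype ↔
          v = 0 ∨ m + 1 ≤ if v ∈ U.map V.subtype then 1 + lev v else 0
        by_cases hvU : v ∈ U.map V.subtype
        · rw [if_pos hvU, Submodule.mem_inf, hW v hvU]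
          constructor
          · rintro ⟨h | h, -⟩
            · exact Or.inl h
            · exact Or.inr (by omega)
          · rintro (h | h)
            · exact ⟨Or.inl h, hvU⟩
            · exact ⟨Or.inr (by omega), hvU⟩
        · rw [if_neg hvU, Submodule.mem_inf]
          constructor
          · exact fun h => absurd h.2 hvU
          · rintro (h | h)
            · rw [h] at hvU
              exact absurd (Submodule.zero_mem _) hvU
            · exact absurd h (by omega)
    · intro u hu v hv hu0 hv0 h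
      have hout : ∀ x ∈ V, x ∉ U.map V.subtype → χ x = a := by
        intro x hx hxU
        refine ha ⟨x, hx⟩ fun hm => hxU ⟨_, hm, rfl⟩
      change (if u ∈ U.map V.subtype then 1 + lev u else 0) =
        if v ∈ U.map V.subtype then 1 + lev v else 0 at h
      by_cases hu1 : u ∈ U.map V.subtype
      · by_cases hv1 : v ∈ U.map V.subtype
        · rw [if_pos hu1, if_pos hv1] at h
          exact h2 u hu1 v hv1 hu0 hv0 (by omega)
        · rw [if_pos hu1, if_neg hv1] at h
          omega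
      · by_cases hv1 : v ∈ U.map V.subtype
        · rw [if_neg hu1, if_pos hv1] at h
          omega
        · rw [hout u hu hu1, hout v hv hv1]

theorem exists_levels {L : Type} [Field L] {ℓ : ℕ} (hℓ : ℓ.Prime) (C : Subfield L)
    (hC : (C : Set L).Infinite) (χ : L → ZMod ℓ) (hχ : IsChar C χ) (hf : IsFlag C χ)
    (V : Submodule C L) [FiniteDimensional C V] :
    ∃ lev : L → ℕ,
      (∀ m : ℕ, ∃ U : Submodule C L, ∀ v ∈ V, v ∈ U ↔ (v = 0 ∨ m ≤ lev v)) ∧
      (∀ u ∈ V, ∀ v ∈ V, u ≠ 0 → v ≠ 0 → lev u = lev v → χ u = χ v) :=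
  v2c_ind hℓ C hC χ hχ hf _ V le_rfl

end Pool.Agent.SB
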