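import Pool.Agent.Helper79.SV.V2c

set_option autoImplicit false

/-!
# SB-V-05: the valuation ring of a flag character

Let `N = flagN C χ`.  (0 is not in `N`: `χ 0`... if `0 ∈ N` then by `IsChar.const`... NOTE: `χ 0` is
arbitrary; replace `N` by `N \ {0}` in the proof; the conclusion for `w = 0` is trivial.)
(1) If `z, x ≠ 0` are in a finite dimensional subspace `V` with levels `lev` (`exists_levels`) and
`z / x ∈ N`, then `lev x < lev z`.  Proof: `χ z ≠ χ x` and `χ (x + c z) = χ x` for all `c ∈ C`.  `lev x = lev z` is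
impossible (`χ` constant on levels).  If `lev z < lev x`: let `U` be the subspace of `m = lev x`...: `x ∈ U_m`
with `m = lev x`, `z ∉ U_m`, so `x + z ∉ U_m` and `x + z ∈ U_(lev z)`: more precisely with `m' = lev z`: `x, z ∈ U_(m')`,
`x ∈ U_(m'+1)`, `z ∉ U_(m'+1)`, so `x + z ∈ U_(m') \ U_(m'+1)`, `lev (x+z) = lev z`, so `χ (x + z) = χ z ≠ χ x`, contradiction
with `c = 1`.  (`x + z ≠ 0`: as `x + z ∉ U_(m'+1)`.)
(2) `1` is not in the ideal generated by `N` in the subring `R = C[N]` of `L`: an element of this ideal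
is a finite sum `∑ c_t m_t` with `c_t ∈ C` and `m_t = w_1 ... w_r`, `r ≥ 1`, `w_i ∈ N \ {0}`.  Suppose the sum is `1`.
Let `V` be the span over `C` of `1` and all partial products `w_1 ... w_s` of these monomials.  By (1)
`lev 1 < lev w_1 < lev (w_1 w_2) < ...`, so all `m_t` are in `U_(lev 1 + 1)`, so `1` is in it, contradiction.
(3) So there is a prime (maximal) ideal of `R` containing `N`, and a valuation ring `O` of `L`
containing `R` whose maximal ideal contains it (Mathlib: `LocalSubring.exists_le_valuationSubring` /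
`exists_valuationRing_of_isMaximal`, or `ValuationSubring` existence for a local subring).
-/

namespace Pool.Agent.SB

private theorem v3a_step {L : Type} [Field L] {ℓ : ℕ} (C : Subfield L) (χ : L → ZMod ℓ)
    (hχ : IsChar C χ) (V : Submodule C L) (lev : L → ℕ)
    (hA : ∀ m : ℕ, ∃ U : Submodule C L, ∀ v ∈ V, v ∈ U ↔ (v = 0 ∨ m ≤ lev v))
    (hB : ∀ u ∈ V, ∀ v ∈ V, u ≠ 0 → v ≠ 0 → lev u = lev v → χ u = χ v)
    {x w : L} (hx : x ∈ V) (hxw : x * w ∈ V) (hx0 : x ≠ 0) (hw0 : w ≠ 0) (hw : w ∈ flagN C χ) :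
    lev x < lev (x * w) := by
  obtain ⟨hw1, hw2⟩ := hw
  have hz0 : x * w ≠ 0 := mul_ne_zero hx0 hw0
  have h1w : (1 : L) + w ≠ 0 := by
    intro h
    have hwC : w ∈ C := by
      have : w = -1 := by linear_combination h
      rw [this]
      exact C.neg_mem C.one_mem
    exact hw1 (hχ.const w hwC hw0)
  have e1 : χ (x * w) = χ x + χ w := hχ.mul x w hx0 hw0
  have e2 : χ (x + x * w) = χ x := by
    have h2 : x + x * w = x * (1 + w) := by ring
    have h3 := hw2 1 C.one_mem
    rw [one_mul] at h3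
    rw [h2, hχ.mul x (1 + w) hx0 h1w, h3, add_zero]
  have hne : χ (x * w) ≠ χ x := by
    intro h
    rw [e1] at h
    exact hw1 (by simpa using h)
  have hs0 : x + x * w ≠ 0 := by
    have h2 : x + x * w = x * (1 + w) := by ring
    rw [h2]
    exact mul_ne_zero hx0 h1w
  have hsV : x + x * w ∈ V := V.add_mem hx hxw
  by_contra hlt
  rcases Nat.lt_or_ge (lev (x * w)) (lev x) with h | h
  · obtain ⟨U, hU⟩ := hA (lev (x * w) + 1)
    obtain ⟨U', hU'⟩ := hA (lev (x * w))
    have hxU : x ∈ U := (hU x hx).2 (Or.inr h)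
    have hzU : x * w ∉ U := by
      intro hz
      rcases (hU _ hxw).1 hz with h5 | h5
      · exact hz0 h5
      · omega
    have hsU : x + x * w ∉ U := by
      intro hs
      apply hzU
      have h5 := U.sub_mem hs hxU
      rwa [add_sub_cancel_left] at h5
    have hsU' : x + x * w ∈ U' :=
      U'.add_mem ((hU' x hx).2 (Or.inr h.le)) ((hU' _ hxw).2 (Or.inr le_rfl))
    have h6 : lev (x * w) ≤ lev (x + x * w) := by
      rcases (hU' _ hsV).1 hsU' with h5 | h5
      · exact absurd h5 hs0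
      · exact h5
    have h7 : ¬ lev (x * w) + 1 ≤ lev (x + x * w) := fun h5 => hsU ((hU _ hsV).2 (Or.inr h5))
    have h8 : lev (x + x * w) = lev (x * w) := by omega
    have h9 := hB _ hsV _ hxw hs0 hz0 h8
    rw [e2] at h9
    exact hne h9.symm
  · exact hne (hB _ hxw _ hx hz0 hx0 (by omega))

/-- the products of nonempty lists -/
private inductive V3aProd {L : Type} [Field L] (N : Set L) : L → Prop where
  | one (w : L) (hw : w ∈ N) : V3aProd N w
  | mul (x w : L) (hx : V3aProd N x) (hw : w ∈ N) : V3aProd N (x * w)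

private theorem v3a_prod {L : Type} [Field L] {ℓ : ℕ} (C : Subfield L) (χ : L → ZMod ℓ)
    (hχ : IsChar C χ) {m : L} (hm : V3aProd {w | w ∈ flagN C χ ∧ w ≠ 0} m) :
    m ≠ 0 ∧ ∃ F : Finset L, ∀ (V : Submodule C L) (lev : L → ℕ),
      (∀ m : ℕ, ∃ U : Submodule C L, ∀ v ∈ V, v ∈ U ↔ (v = 0 ∨ m ≤ lev v)) →
      (∀ u ∈ V, ∀ v ∈ V, u ≠ 0 → v ≠ 0 → lev u = lev v → χ u = χ v) →
      (1 : L) ∈ V → (∀ f ∈ F, f ∈ V) → m ∈ V ∧ lev 1 < lev m := by
  classical
  induction hm with
  | one w hw =>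
    refine ⟨hw.2, {w}, fun V lev hA hB h1 hF => ?_⟩
    have hwV : w ∈ V := hF w (Finset.mem_singleton_self w)
    refine ⟨hwV, ?_⟩
    have h2 : (1 : L) * w ∈ V := by rwa [one_mul]
    have h3 := v3a_step C χ hχ V lev hA hB h1 h2 one_ne_zero hw.2 hw.1
    rwa [one_mul] at h3
  | mul x w hx hw ih =>
    obtain ⟨hx0, F, hF⟩ := ih
    refine ⟨mul_ne_zero hx0 hw.2, insert (x * w) F, fun V lev hA hB h1 hF' => ?_⟩
    obtain ⟨hxV, hlev⟩ := hF V lev hA hB h1 fun f hf => hF' f (Finset.mem_insert_of_mem hf)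
    have hxw : x * w ∈ V := hF' _ (Finset.mem_insert_self _ _)
    exact ⟨hxw, hlev.trans (v3a_step C χ hχ V lev hA hB hxV hxw hx0 hw.2 hw.1)⟩

theorem exists_flag_ring {L : Type} [Field L] {ℓ : ℕ} (hℓ : ℓ.Prime) (C : Subfield L)
    (hC : (C : Set L).Infinite) (χ : L → ZMod ℓ) (hχ : IsChar C χ) (hf : IsFlag C χ) :
    ∃ O : ValuationSubring L, (∀ c ∈ C, c ∈ O) ∧
      ∀ w ∈ flagN C χ, w ≠ 0 → w ∈ O ∧ w⁻¹ ∉ O := by
  classical
  obtain ⟨N, hN⟩ : ∃ N : Set L, N = {w | w ∈ flagN C χ ∧ w ≠ 0} := ⟨_, rfl⟩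
  let R : Subring L := Subring.closure ((C : Set L) ∪ N)
  let J : Submodule C L := Submodule.span C {m | V3aProd N m}
  -- `J` is stable under `R`
  have hwJ : ∀ w ∈ N, ∀ j ∈ J, w * j ∈ J := by
    intro w hw j hj
    refine Submodule.span_induction (p := fun j _ => w * j ∈ J) ?_ ?_ ?_ ?_ hj
    · intro m hm
      have h1 : V3aProd N (m * w) := V3aProd.mul m w hm hw
      rw [mul_comm]
      exact Submodule.subset_span h1
    · rw [mul_zero]
      exact J.zero_mem
    · intro a b _ _ ha hb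
      rw [mul_add]
      exact J.add_mem ha hb
    · intro c a _ ha
      have e : w * (c • a) = c • (w * a) := by
        change w * (c.1 * a) = c.1 * (w * a)
        ring
      rw [e]
      exact J.smul_mem c ha
  have hRJ : ∀ r ∈ R, ∀ j ∈ J, r * j ∈ J := by
    intro r hr
    refine Subring.closure_induction (p := fun r _ => ∀ j ∈ J, r * j ∈ J) ?_ ?_ ?_ ?_ ?_ ?_ hr
    · rintro x (hx | hx) j hj
      · exact J.smul_mem ⟨x, hx⟩ hj
      · exact hwJ x hx j hj
    · intro j _
      rw [zero_mul]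
      exact J.zero_mem
    · intro j hj
      rwa [one_mul]
    · intro a b _ _ ha hb j hj
      rw [add_mul]
      exact J.add_mem (ha j hj) (hb j hj)
    · intro a _ ha j hj
      rw [neg_mul]
      exact J.neg_mem (ha j hj)
    · intro a b _ _ ha hb j hj
      rw [mul_assoc]
      exact ha _ (hb j hj)
  have hNR : ∀ w ∈ N, w ∈ R := fun w hw => Subring.subset_closure (Or.inr hw)
  let I : Ideal R := Ideal.span {x : R | x.1 ∈ N}
  have hIJ : ∀ x ∈ I, x.1 ∈ J := by
    intro x hx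
    refine Submodule.span_induction (p := fun x _ => x.1 ∈ J) ?_ ?_ ?_ ?_ hx
    · intro y hy
      exact Submodule.subset_span (V3aProd.one y.1 hy)
    · exact J.zero_mem
    · intro a b _ _ ha hb
      exact J.add_mem ha hb
    · intro r a _ ha
      exact hRJ r.1 r.2 _ ha
  have hI : I ≠ ⊤ := by
    intro htop
    have h1 : (1 : L) ∈ J := hIJ 1 (by rw [htop]; exact Submodule.mem_top)
    obtain ⟨T, hT, h1T⟩ := Submodule.mem_span_finite_of_mem_span h1
    have hF : ∀ t : L, ∃ F : Finset L, t ∈ T → ∀ (V : Submodule C L) (lev : L → ℕ),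
        (∀ m : ℕ, ∃ U : Submodule C L, ∀ v ∈ V, v ∈ U ↔ (v = 0 ∨ m ≤ lev v)) →
        (∀ u ∈ V, ∀ v ∈ V, u ≠ 0 → v ≠ 0 → lev u = lev v → χ u = χ v) →
        (1 : L) ∈ V → (∀ f ∈ F, f ∈ V) → t ∈ V ∧ lev 1 < lev t := by
      intro t
      by_cases ht : t ∈ T
      · have h2 : V3aProd N t := hT ht
        rw [hN] at h2
        obtain ⟨-, F, hF⟩ := v3a_prod C χ hχ h2
        exact ⟨F, fun _ => hF⟩
      · exact ⟨∅, fun h => absurd h ht⟩
    choose F hF using hF
    let G : Finset L := insert 1 (T.biUnion F)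
    let V : Submodule C L := Submodule.span C (G : Set L)
    have hfin : FiniteDimensional C V := FiniteDimensional.span_finset C G
    obtain ⟨lev, hA, hB⟩ := exists_levels hℓ C hC χ hχ hf V
    have h1V : (1 : L) ∈ V := Submodule.subset_span (Finset.mem_coe.2 (Finset.mem_insert_self _ _))
    have hTV : ∀ t ∈ T, t ∈ V ∧ lev 1 < lev t := by
      intro t ht
      refine hF t ht V lev hA hB h1V fun f hf' => Submodule.subset_span (Finset.mem_coe.2 ?_)
      exact Finset.mem_insert_of_mem (Finset.mem_biUnion.2 ⟨t, ht, hf'⟩)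
    obtain ⟨U, hU⟩ := hA (lev 1 + 1)
    have hTU : Submodule.span C (T : Set L) ≤ U := by
      rw [Submodule.span_le]
      intro t ht
      exact (hU t (hTV t ht).1).2 (Or.inr (hTV t ht).2)
    rcases (hU 1 h1V).1 (hTU h1T) with h3 | h3
    · exact one_ne_zero h3
    · omega
  obtain ⟨O, hO1, hO2⟩ := Ideal.image_subset_nonunits_valuationSubring I hI
  refine ⟨O, fun c hc => hO1 (Subring.subset_closure (Or.inl hc)), fun w hw hw0 => ?_⟩
  have hwN : w ∈ N := by
    rw [hN]
    exact ⟨hw, hw0⟩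
  have h4 : w ∈ O.nonunits := hO2 ⟨⟨w, hNR w hwN⟩, Ideal.subset_span hwN, rfl⟩
  rw [ValuationSubring.mem_nonunits_iff] at h4
  refine ⟨(O.valuation_le_one_iff w).1 h4.le, fun h5 => ?_⟩
  have h6 := (O.valuation_le_one_iff w⁻¹).2 h5
  rw [map_inv₀] at h6
  have h7 : O.valuation w ≠ 0 := (Valuation.ne_zero_iff _).2 hw0
  have h8 : 1 < (O.valuation w)⁻¹ := (one_lt_inv₀ (zero_lt_iff.2 h7)).2 h4
  exact absurd h6 (not_le.2 h8)

end Pool.Agent.SB
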