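import Pool.Agent.Helper79.SV.V3a

set_option autoImplicit false

/-!
# SB-V-06: the coarse valuation ring of a flag character

Let `O` be as in `exists_flag_ring`, `N = flagN C χ`.
(0) `x ≠ 0`, `χ x ≠ 0` implies `x ∈ N` or `x⁻¹ ∈ N`: `x ∉ C`.  Apply `IsFlag` to `u = x⁻¹`... : the points of the line
`span {1, x}` are `1`, and `x - c`.  First alternative for `u = x`: `χ (x - c) = 0` for `c ≠ e`, `c ∈ C`.  As `χ (x - 0) ≠ 0`,
`e = 0`: `χ (x - c) = 0` for all `c ≠ 0`, so `χ (1 + c x) = χ c + χ (x + 1/c) = 0` for `c ≠ 0`, and `χ 1 = 0`: `x ∈ N`.  Second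
alternative: `χ (x - c) = a = χ x` for all `c ∈ C`: `χ (1 + c x⁻¹) = χ (x + c) - χ x = 0`: `x⁻¹ ∈ N`.
(1) Let `O'` be the union of all valuation subrings `O'' ≥ O` with `w⁻¹ ∉ O''` for all `w ∈ N`, `w ≠ 0` (overrings of a
valuation ring are totally ordered, so the union is a ring; it contains `O`, so it is a valuation ring).  Then
`w ∈ O'`, `w⁻¹ ∉ O'` for `w ∈ N`, `w ≠ 0`, and `O'` is the largest such ring.
(2) units: `u, u⁻¹ ∈ O'`, `χ u ≠ 0`: by (0) `u` or `u⁻¹` is in `N`, contradiction to (1).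
(3) coarse: let `x ∈ O'`, `x ≠ 0`, `x⁻¹ ∉ O'`, `χ x = 0` and suppose there is no `z` as wanted.  Let `z ∈ O'`, `z⁻¹ ∉ O'`,
`χ z ≠ 0`.  Then not `v(z) < v(x)`, i.e. `z/x ∈ O'`; `χ (z/x) = χ z ≠ 0`, so `z/x` is not a unit (2): `(z/x)⁻¹ ∉ O'`, and `z/x`
again satisfies the hypotheses on `z`.  By induction `z/x^n ∈ O'` and `(z/x^n)⁻¹ ∉ O'` for all `n`.  The valuation
subring `O'[1/x]` (= `{y : ∃ n, x^n y ∈ O'}`) is strictly larger than `O'` (contains `x⁻¹`) and does not contain `w⁻¹`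
for `w ∈ N`, `w ≠ 0` (`x^n w⁻¹ ∈ O'` contradicts `(w/x^n)⁻¹ ∉ O'`).  Contradiction to maximality.
If `N` has no nonzero element then `χ = 0` on `L^*` by (0) and `O' = ⊤`; the statement is trivially true.
-/

namespace Pool.Agent.SB

private theorem V3b_or {L : Type} [Field L] {ℓ : ℕ} (C : Subfield L) (χ : L → ZMod ℓ)
    (hχ : IsChar C χ) (hf : IsFlag C χ) {x : L} (hx : x ≠ 0) (hx' : χ x ≠ 0) :
    x ∈ flagN C χ ∨ x⁻¹ ∈ flagN C χ := by
  have h1 : χ 1 = 0 := hχ.const 1 C.one_mem one_ne_zero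
  have hxC : x ∉ C := fun h => hx' (hχ.const x h hx)
  have hxc : ∀ c ∈ C, x - c ≠ 0 := by
    intro c hc h0
    rw [sub_eq_zero] at h0
    exact hxC (h0 ▸ hc)
  rcases hf x hxC with ⟨e, he, h⟩ | ⟨a, ha⟩
  · left
    have he0 : e = 0 := by
      by_contra hne
      have h2 := h 0 C.zero_mem (fun h0 => hne h0.symm)
      rw [sub_zero] at h2
      exact hx' h2
    refine ⟨hx', fun c hc => ?_⟩
    by_cases hc0 : c = 0
    · rw [hc0, zero_mul, add_zero, h1]
    · have h3 : 1 + c * x = c * (x - -c⁻¹) := by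
        field_simp
        ring
      have h4 : -c⁻¹ ∈ C := C.neg_mem (C.inv_mem hc)
      have h5 : -c⁻¹ ≠ e := by
        rw [he0]
        exact neg_ne_zero.2 (inv_ne_zero hc0)
      rw [h3, hχ.mul _ _ hc0 (hxc _ h4), hχ.const c hc hc0, h _ h4 h5, add_zero]
  · right
    have ha0 : χ x = a := by
      have h2 := ha 0 C.zero_mem
      rwa [sub_zero] at h2
    have hinv : χ x⁻¹ = -χ x := by
      have h2 := hχ.mul x x⁻¹ hx (inv_ne_zero hx)
      rw [mul_inv_cancel₀ hx, h1] at h2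
      exact (neg_eq_of_add_eq_zero_right h2.symm).symm
    refine ⟨by rw [hinv]; exact neg_ne_zero.2 hx', fun c hc => ?_⟩
    have h4 : -c ∈ C := C.neg_mem hc
    have h3 : 1 + c * x⁻¹ = (x - -c) * x⁻¹ := by
      field_simp
      ring
    rw [h3, hχ.mul _ _ (hxc _ h4) (inv_ne_zero hx), ha _ h4, hinv, ha0, add_neg_cancel]

/-- the coarse ring as a subring -/
private def V3b_sub {L : Type} [Field L] (O : ValuationSubring L) (N : Set L)
    (hN : ∀ w ∈ N, w ≠ 0 → O.valuation w < 1) : Subring L where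
  carrier := {y | ∀ n : ℕ, ∀ w ∈ N, w ≠ 0 → O.valuation y ^ n * O.valuation w < 1}
  mul_mem' := by
    intro a b ha hb n w hw hw0
    rw [map_mul]
    rcases le_total (O.valuation a) (O.valuation b) with h | h
    · refine lt_of_le_of_lt ?_ (hb (2 * n) w hw hw0)
      rw [pow_mul, pow_two]
      gcongr
    · refine lt_of_le_of_lt ?_ (ha (2 * n) w hw hw0)
      rw [pow_mul, pow_two]
      gcongr
  one_mem' := by
    intro n w hw hw0
    rw [map_one, one_pow, one_mul]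
    exact hN w hw hw0
  add_mem' := by
    intro a b ha hb n w hw hw0
    rcases le_total (O.valuation a) (O.valuation b) with h | h
    · refine lt_of_le_of_lt ?_ (hb n w hw hw0)
      gcongr
      exact (O.valuation.map_add_le h le_rfl)
    · refine lt_of_le_of_lt ?_ (ha n w hw hw0)
      gcongr
      exact (O.valuation.map_add_le le_rfl h)
  zero_mem' := by
    intro n w hw hw0
    rw [map_zero]
    refine lt_of_le_of_lt ?_ (hN w hw hw0)
    have h1 : (0 : O.ValueGroup) ^ n ≤ 1 := pow_le_one₀ zero_le zero_le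
    calc (0 : O.ValueGroup) ^ n * O.valuation w ≤ 1 * O.valuation w := by gcongr
      _ = O.valuation w := one_mul _
  neg_mem' := by
    intro a ha n w hw hw0
    rw [Valuation.map_neg]
    exact ha n w hw hw0

theorem exists_coarse_ring {L : Type} [Field L] {ℓ : ℕ} (hℓ : ℓ.Prime) (C : Subfield L)
    (hC : (C : Set L).Infinite) (χ : L → ZMod ℓ) (hχ : IsChar C χ) (hf : IsFlag C χ) :
    ∃ O : ValuationSubring L, (∀ c ∈ C, c ∈ O) ∧
      (∀ u, u ≠ 0 → u ∈ O → u⁻¹ ∈ O → χ u = 0) ∧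
      (∀ x, x ≠ 0 → x ∈ O → x⁻¹ ∉ O → χ x = 0 →
        ∃ z, z ≠ 0 ∧ z ∈ O ∧ z⁻¹ ∉ O ∧ χ z ≠ 0 ∧ x / z ∈ O ∧ z / x ∉ O) := by
  obtain ⟨O, hOC, hON⟩ := exists_flag_ring hℓ C hC χ hχ hf
  have hN : ∀ w ∈ flagN C χ, w ≠ 0 → O.valuation w < 1 := by
    intro w hw hw0
    rw [← O.mem_nonunits_iff, ValuationSubring.mem_nonunits_iff_or]
    exact Or.inr (hON w hw hw0).2
  have hOle : ∀ y ∈ O, y ∈ V3b_sub O (flagN C χ) hN := by
    intro y hy n w hw hw0
    refine lt_of_le_of_lt ?_ (hN w hw hw0)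
    have h1 : O.valuation y ≤ 1 := (O.valuation_le_one_iff y).2 hy
    calc O.valuation y ^ n * O.valuation w ≤ 1 * O.valuation w := by
          gcongr
          exact pow_le_one₀ zero_le h1
      _ = O.valuation w := one_mul _
  let O' : ValuationSubring L := ValuationSubring.ofSubring (V3b_sub O (flagN C χ) hN)
    (fun x => (O.mem_or_inv_mem x).imp (hOle x) (hOle x⁻¹))
  have hmem : ∀ y, y ∈ O' ↔ ∀ n : ℕ, ∀ w ∈ flagN C χ, w ≠ 0 →
      O.valuation y ^ n * O.valuation w < 1 := fun y => Iff.rfl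
  have hOO' : ∀ y ∈ O, y ∈ O' := hOle
  have hninv : ∀ w ∈ flagN C χ, w ≠ 0 → w⁻¹ ∉ O' := by
    intro w hw hw0 h
    have h1 := (hmem _).1 h 1 w hw hw0
    rw [pow_one, ← map_mul, inv_mul_cancel₀ hw0, map_one] at h1
    exact lt_irrefl _ h1
  have hun : ∀ u, u ≠ 0 → u ∈ O' → u⁻¹ ∈ O' → χ u = 0 := by
    intro u hu h1 h2
    by_contra h3
    rcases V3b_or C χ hχ hf hu h3 with h4 | h4
    · exact hninv u h4 hu h2
    · apply hninv u⁻¹ h4 (inv_ne_zero hu)
      rw [inv_inv]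
      exact h1
  refine ⟨O', fun c hc => hOO' c (hOC c hc), hun, ?_⟩
  intro x hx0 hx hxi hχx
  by_contra hcon
  push Not at hcon
  have step : ∀ z, z ≠ 0 → z ∈ O' → z⁻¹ ∉ O' → χ z ≠ 0 →
      z / x ≠ 0 ∧ z / x ∈ O' ∧ (z / x)⁻¹ ∉ O' ∧ χ (z / x) ≠ 0 := by
    intro z hz0 hz hzi hχz
    have h1 : z / x ∈ O' := by
      rcases O'.mem_or_inv_mem (x / z) with h2 | h2
      · exact hcon z hz0 hz hzi hχz h2
      · rwa [inv_div] at h2
    have hne : z / x ≠ 0 := div_ne_zero hz0 hx0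
    have h2 : χ (z / x) = χ z := by
      have h3 := hχ.mul (z / x) x hne hx0
      rw [div_mul_cancel₀ _ hx0, hχx, add_zero] at h3
      exact h3.symm
    refine ⟨hne, h1, fun h3 => hχz ?_, by rw [h2]; exact hχz⟩
    rw [← h2]
    exact hun _ hne h1 h3
  have iter : ∀ n : ℕ, ∀ w ∈ flagN C χ, w ≠ 0 →
      w / x ^ n ≠ 0 ∧ w / x ^ n ∈ O' ∧ (w / x ^ n)⁻¹ ∉ O' ∧ χ (w / x ^ n) ≠ 0 := by
    intro n w hw hw0
    induction n with
    | zero =>
      rw [pow_zero, div_one]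
      exact ⟨hw0, hOO' w (hON w hw hw0).1, hninv w hw hw0, hw.1⟩
    | succ n ih =>
      have h1 : w / x ^ (n + 1) = w / x ^ n / x := by
        rw [pow_succ, div_mul_eq_div_div]
      rw [h1]
      exact step _ ih.1 ih.2.1 ih.2.2.1 ih.2.2.2
  apply hxi
  rw [hmem]
  intro n w hw hw0
  by_contra h1
  push Not at h1
  obtain ⟨-, -, h2, -⟩ := iter n w hw hw0
  apply h2
  apply hOO'
  rw [← O.valuation_le_one_iff, inv_div, map_div₀, map_pow]
  rw [map_inv₀, inv_pow] at h1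
  have hvx : 0 < O.valuation x ^ n := by
    rw [← map_pow]
    exact zero_lt_iff.2 ((Valuation.ne_zero_iff _).2 (pow_ne_zero n hx0))
  have hvw : 0 < O.valuation w := zero_lt_iff.2 ((Valuation.ne_zero_iff _).2 hw0)
  rw [div_le_one₀ hvw]
  calc O.valuation x ^ n = O.valuation x ^ n * 1 := (mul_one _).symm
    _ ≤ O.valuation x ^ n * ((O.valuation x ^ n)⁻¹ * O.valuation w) := by gcongr
    _ = O.valuation w := by rw [mul_inv_cancel_left₀ hvx.ne']

end Pool.Agent.SB
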