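import Pool.Agent.Helper79.SV.Pair

set_option autoImplicit false

/-!
# SB-V-08: the Steinberg relation for a tame pair

`τ y = ζ y` with `ζ` a primitive `ℓ`-th root of unity (`τ y ≠ y`, both are `ℓ`-th roots of `x`).  `σ y = ζ ^ m y`,
`σ b = ζ ^ n b`.  CLAIM `ζ ^ n = 1`; then `σ b = b`, `τ b = b`, so `b ∈ L` (`fix`), `r = b`.
Let `P_j = ∏_{i < j} (1 - ζ ^ i y)`, so `P_ℓ = 1 - x` (`∏_{i<ℓ} (1 - ζ^i y) = 1 - y^ℓ`), `β = ∏_{i < ℓ} (1 - ζ ^ i y) ^ i` and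
`θ ^ ℓ = β` (`Ω` algebraically closed).  All factors are nonzero (`x ≠ 1`).  `σ ζ = ζ`, `τ ζ = ζ`.
`τ β = ∏ (1 - ζ^(i+1) y)^i = β (1 - x)⁻¹ (1 - y)^ℓ`, so `τ θ = ζ^r θ b⁻¹ (1 - y)` for some `r`.
`σ β = ∏ (1 - ζ^(i+m) y)^i = β (1 - x)^(-m) P_m^ℓ`, so `σ θ = ζ^s θ b^(-m) P_m` for some `s`.
(For `0 ≤ m < ℓ`; in general `τ^j θ = ζ^(jr) θ b^(-j) P_j(y)`, in particular `τ^ℓ θ = θ`.)
`τ^ℓ` fixes `θ, b, y, ζ`, so it fixes `σ θ`.  Relation `rel` at the element `σ θ`: choose `N` and `q` with `σ ζ' = ζ'^q` on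
`ℓ^N`-th roots of unity (enlarge `N`, `N ≥ 1`: then `q ≡ 1 mod ℓ` by `mu`): `σ τ θ = (σ τ σ⁻¹)(σ θ) = τ^q (σ θ) = τ (σ θ)`.
LHS: `σ (ζ^r θ b⁻¹ (1-y)) = ζ^r ζ^s θ b^(-m) P_m(y) ζ^(-n) b⁻¹ (1 - ζ^m y)`.
RHS: `τ (ζ^s θ b^(-m) P_m(y)) = ζ^s ζ^r θ b⁻¹ (1 - y) b^(-m) P_m(ζ y)` and `(1-y) P_m(ζ y) = P_(m+1)(y) = P_m(y)(1 - ζ^m y)`.
So `ζ^(-n) = 1`.
-/

namespace Pool.Agent.SB

open Finset in
private theorem v4_shift {Ω : Type} [Field Ω] (ℓ : ℕ) (f : ℕ → Ω) (h0 : f 0 ≠ 0)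
    (hp : f ℓ = f 0) :
    (∏ i ∈ range ℓ, f (i + 1) ^ i) * ∏ i ∈ range ℓ, f i =
      (∏ i ∈ range ℓ, f i ^ i) * f 0 ^ ℓ := by
  have h1 : ∏ i ∈ range ℓ, f (i + 1) = ∏ i ∈ range ℓ, f i := by
    have h2 := prod_range_succ f ℓ
    rw [prod_range_succ', hp] at h2
    exact mul_right_cancel₀ h0 h2
  have h3 := prod_range_succ (fun i => f i ^ i) ℓ
  rw [prod_range_succ', pow_zero, mul_one, hp] at h3
  rw [← h1, ← prod_mul_distrib, ← h3]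
  exact prod_congr rfl fun i _ => (pow_succ _ _).symm

private theorem v4_prim {Ω : Type} [Field Ω] {ℓ : ℕ} (hℓ : ℓ.Prime) {ζ : Ω} (h : ζ ^ ℓ = 1)
    (h1 : ζ ≠ 1) : IsPrimitiveRoot ζ ℓ := by
  have h2 := IsPrimitiveRoot.orderOf ζ
  have h3 : orderOf ζ ∣ ℓ := orderOf_dvd_of_pow_eq_one h
  rcases (Nat.dvd_prime hℓ).1 h3 with h4 | h4
  · exact absurd (orderOf_eq_one_iff.1 h4) h1
  · rwa [h4] at h2

private theorem v4_ratio {Ω : Type} [Field Ω] {ℓ : ℕ} [NeZero ℓ] {ζ : Ω}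
    (hζ : IsPrimitiveRoot ζ ℓ) {u v : Ω} (hv : v ≠ 0) (h : u ^ ℓ = v ^ ℓ) :
    ∃ r : ℕ, u = ζ ^ r * v := by
  obtain ⟨r, -, hr⟩ := hζ.eq_pow_of_pow_eq_one (ξ := u / v)
    (by rw [div_pow, h, div_self (pow_ne_zero _ hv)])
  exact ⟨r, by rw [hr, div_mul_cancel₀ _ hv]⟩

open Finset in
private theorem v4_iter {L Ω : Type} [Field L] [Field Ω] [Algebra L Ω] {τ : Ω ≃ₐ[L] Ω}
    {ζ y b θ : Ω} (hζ : τ ζ = ζ) (hy : τ y = ζ * y) (hb : τ b = b) {r : ℕ}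
    (hθ : τ θ = ζ ^ r * (θ * b⁻¹ * (1 - y))) (j : ℕ) :
    (τ ^ j) y = ζ ^ j * y ∧
      (τ ^ j) θ = ζ ^ (j * r) * (θ * b⁻¹ ^ j * ∏ i ∈ range j, (1 - ζ ^ i * y)) := by
  induction j with
  | zero =>
    refine ⟨?_, ?_⟩
    · rw [pow_zero, pow_zero, one_mul]
      rfl
    · rw [pow_zero, zero_mul, pow_zero, pow_zero, range_zero, prod_empty, one_mul, mul_one,
        mul_one]
      rfl
  | succ j ih =>
    obtain ⟨h1, h2⟩ := ih
    refine ⟨?_, ?_⟩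
    · rw [pow_succ', AlgEquiv.mul_apply, h1, map_mul, map_pow, hζ, hy, pow_succ]
      ring
    · rw [pow_succ', AlgEquiv.mul_apply, h2, map_mul, map_mul, map_mul, map_pow, map_pow,
        map_inv₀, hζ, hb, hθ, map_prod, prod_range_succ']
      have h3 : ∀ i ∈ range j, τ (1 - ζ ^ i * y) = 1 - ζ ^ (i + 1) * y := fun i _ => by
        rw [map_sub, map_one, map_mul, map_pow, hζ, hy, pow_succ]
        ring
      rw [prod_congr rfl h3, pow_zero, one_mul, add_mul, one_mul, pow_add, pow_succ]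
      ring

theorem steinberg (k : Type) [Field k] [CharZero k] {L Ω : Type} [Field L] [Field Ω]
    [Algebra k L] [Algebra L Ω] [Algebra k Ω] [IsScalarTower k L Ω] [IsAlgClosed Ω]
    [Algebra.IsAlgebraic L Ω] {ℓ : ℕ} (hℓ : ℓ.Prime) {σ τ : Ω ≃ₐ[L] Ω} (P : TPair k ℓ σ τ)
    (x : L) (hx : x ≠ 1) (y b : Ω) (hy : y ^ ℓ = algebraMap L Ω x) (hτy : τ y ≠ y)
    (hb : b ^ ℓ = algebraMap L Ω (1 - x)) (hτb : τ b = b) : ∃ r : L, r ^ ℓ = 1 - x := by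
  have hℓ0 : NeZero ℓ := ⟨hℓ.ne_zero⟩
  have hchar : CharZero Ω := charZero_of_injective_algebraMap (algebraMap k Ω).injective
  have hy0 : y ≠ 0 := by
    rintro rfl
    exact hτy (map_zero τ)
  have hx1 : algebraMap L Ω (1 - x) ≠ 0 := by
    rw [Ne, map_eq_zero, sub_eq_zero]
    exact fun h => hx h.symm
  have hb0 : b ≠ 0 := by
    rintro rfl
    rw [zero_pow hℓ.ne_zero] at hb
    exact hx1 hb.symm
  -- the root of unity
  obtain ⟨ζ, hζdef⟩ : ∃ ζ, ζ = τ y / y := ⟨_, rfl⟩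
  have hτy' : τ y = ζ * y := by rw [hζdef, div_mul_cancel₀ _ hy0]
  have hζℓ : ζ ^ ℓ = 1 := by
    rw [hζdef, div_pow, ← map_pow, hy, AlgEquiv.commutes]
    refine div_self ?_
    rw [← hy]
    exact pow_ne_zero _ hy0
  have hζ1 : ζ ≠ 1 := by
    intro h
    rw [h, one_mul] at hτy'
    exact hτy hτy'
  have hprim := v4_prim hℓ hζℓ hζ1
  have hσζ : σ ζ = ζ := P.mu ζ hζℓ
  have hτζ : τ ζ = ζ := P.bar ζ (by
    have h1 : IsIntegral k (ζ ^ ℓ) := by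
      rw [hζℓ]
      exact isIntegral_one
    exact (IsIntegral.of_pow hℓ.pos h1).isAlgebraic)
  have hζ0 : ζ ≠ 0 := hprim.ne_zero hℓ.ne_zero
  -- `σ`
  obtain ⟨m, hm⟩ := v4_ratio hprim hy0 (u := σ y) (by rw [← map_pow, hy, AlgEquiv.commutes])
  obtain ⟨c, hc⟩ := v4_ratio hprim hb0 (u := σ b) (by rw [← map_pow, hb, AlgEquiv.commutes])
  -- the product
  have hprod : ∏ i ∈ Finset.range ℓ, (1 - ζ ^ i * y) = algebraMap L Ω (1 - x) := by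
    have h1 := congrArg (Polynomial.eval 1) (X_pow_sub_C_eq_prod hprim hℓ.pos hy)
    rw [Polynomial.eval_sub, Polynomial.eval_pow, Polynomial.eval_X, Polynomial.eval_C,
      Polynomial.eval_prod, one_pow] at h1
    rw [map_sub, map_one, h1]
    refine Finset.prod_congr rfl fun i _ => ?_
    rw [Polynomial.eval_sub, Polynomial.eval_X, Polynomial.eval_C]
  have hfac : ∀ i ∈ Finset.range ℓ, 1 - ζ ^ i * y ≠ 0 := by
    intro i hi h0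
    rw [Finset.prod_eq_zero hi h0] at hprod
    exact hx1 hprod.symm
  have hy1 : 1 - y ≠ 0 := by
    have h1 := hfac 0 (Finset.mem_range.2 hℓ.pos)
    rwa [pow_zero, one_mul] at h1
  obtain ⟨β, hβ⟩ : ∃ β, β = ∏ i ∈ Finset.range ℓ, (1 - ζ ^ i * y) ^ i := ⟨_, rfl⟩
  have hβ0 : β ≠ 0 := by
    rw [hβ]
    exact Finset.prod_ne_zero_iff.2 fun i hi => pow_ne_zero _ (hfac i hi)
  obtain ⟨θ, hθ⟩ := IsAlgClosed.exists_pow_nat_eq β hℓ.pos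
  have hθ0 : θ ≠ 0 := by
    rintro rfl
    rw [zero_pow hℓ.ne_zero] at hθ
    exact hβ0 hθ.symm
  have hτβ : τ β * algebraMap L Ω (1 - x) = β * (1 - y) ^ ℓ := by
    have h1 := v4_shift ℓ (fun i => 1 - ζ ^ i * y) (by
      change 1 - ζ ^ 0 * y ≠ 0
      rw [pow_zero, one_mul]
      exact hy1) (by
      change 1 - ζ ^ ℓ * y = 1 - ζ ^ 0 * y
      rw [hζℓ, pow_zero])
    have h2 : τ β = ∏ i ∈ Finset.range ℓ, (1 - ζ ^ (i + 1) * y) ^ i := by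
      rw [hβ, map_prod]
      refine Finset.prod_congr rfl fun i _ => ?_
      rw [map_pow, map_sub, map_one, map_mul, map_pow, hτζ, hτy', pow_succ]
      congr 2
      ring
    rw [h2, ← hprod, hβ]
    have h3 : (1 - y) = 1 - ζ ^ 0 * y := by rw [pow_zero, one_mul]
    rw [h3]
    exact h1
  have hu0 : θ * b⁻¹ * (1 - y) ≠ 0 := mul_ne_zero (mul_ne_zero hθ0 (inv_ne_zero hb0)) hy1
  obtain ⟨r, hr⟩ := v4_ratio hprim hu0 (u := τ θ) (by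
    rw [← map_pow, hθ, mul_pow, mul_pow, inv_pow, hb, hθ]
    have h1 : τ β = β * (1 - y) ^ ℓ * (algebraMap L Ω (1 - x))⁻¹ := by
      rw [← hτβ, mul_inv_cancel_right₀ hx1]
    rw [h1]
    ring)
  have hiter := v4_iter hτζ hτy' hτb hr
  have hτb' : ∀ j : ℕ, (τ ^ j) b = b := fun j => by
    induction j with
    | zero => rfl
    | succ j ih => rw [pow_succ', AlgEquiv.mul_apply, ih, hτb]
  have hτζ' : ∀ j : ℕ, (τ ^ j) ζ = ζ := fun j => by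
    induction j with
    | zero => rfl
    | succ j ih => rw [pow_succ', AlgEquiv.mul_apply, ih, hτζ]
  have hτℓ : (τ ^ ℓ) θ = θ := by
    rw [(hiter ℓ).2, hprod, pow_mul, hζℓ, one_pow, one_mul, inv_pow, hb,
      inv_mul_cancel_right₀ hx1]
  -- `σ β = τ ^ m β`
  have hσβ : σ β = (τ ^ m) β := by
    rw [hβ, map_prod, map_prod]
    refine Finset.prod_congr rfl fun i _ => ?_
    rw [map_pow, map_pow, map_sub, map_sub, map_one, map_one, map_mul, map_mul, map_pow, map_pow,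
      hσζ, hτζ', hm, (hiter m).1]
  have hτmθ0 : (τ ^ m) θ ≠ 0 := by rw [Ne, map_eq_zero_iff _ (τ ^ m).injective]; exact hθ0
  obtain ⟨s, hs⟩ := v4_ratio hprim hτmθ0 (u := σ θ) (by
    rw [← map_pow, ← map_pow, hθ, hσβ])
  have hℓσθ : (τ ^ ℓ) (σ θ) = σ θ := by
    rw [hs, map_mul, map_pow, hτζ', ← AlgEquiv.mul_apply, ← pow_add, add_comm, pow_add,
      AlgEquiv.mul_apply, hτℓ]
  -- the relation
  have hrel : σ (τ θ) = τ (σ θ) := by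
    obtain ⟨N, hN⟩ := P.rel (σ θ)
    have hpos : 0 < ℓ ^ (N + 1) := pow_pos hℓ.pos _
    have hNe : NeZero (ℓ ^ (N + 1)) := ⟨hpos.ne'⟩
    obtain ⟨z, hz⟩ := HasEnoughRootsOfUnity.exists_primitiveRoot Ω (ℓ ^ (N + 1))
    obtain ⟨q, -, hq⟩ := hz.eq_pow_of_pow_eq_one (ξ := σ z) (by
      rw [← map_pow, hz.pow_eq_one, map_one])
    have hall : ∀ w : Ω, w ^ ℓ ^ (N + 1) = 1 → σ w = w ^ q := by
      intro w hw
      obtain ⟨i, -, hi⟩ := hz.eq_pow_of_pow_eq_one hw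
      rw [← hi, map_pow, ← hq, ← pow_mul, ← pow_mul, mul_comm]
    have h1 := hN q fun w hw => hall w (by rw [pow_succ, pow_mul, hw, one_pow])
    rw [AlgEquiv.mul_apply, AlgEquiv.mul_apply] at h1
    have h2 : σ⁻¹ (σ θ) = θ := σ.symm_apply_apply θ
    rw [h2] at h1
    have h3 : ζ ^ q = ζ := by
      rw [← hall ζ (by rw [pow_succ', pow_mul, hζℓ, one_pow]), hσζ]
    have h4 : q % ℓ = 1 := by
      refine hprim.pow_inj (Nat.mod_lt _ hℓ.pos) hℓ.one_lt ?_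
      rw [← pow_eq_pow_mod q hζℓ, h3, pow_one]
    have h5 : ∀ t : ℕ, (τ ^ (ℓ * t)) (σ θ) = σ θ := fun t => by
      induction t with
      | zero => rfl
      | succ t ih => rw [mul_add, mul_one, pow_add, AlgEquiv.mul_apply, hℓσθ, ih]
    rw [h1]
    conv_lhs => rw [← Nat.div_add_mod q ℓ, h4, add_comm, pow_add, AlgEquiv.mul_apply, h5, pow_one]
  -- comparison
  have h1 : σ (τ θ) = ζ ^ r * (ζ ^ s * (τ ^ m) θ * (ζ ^ c * b)⁻¹ * (1 - ζ ^ m * y)) := by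
    rw [hr, map_mul, map_pow, hσζ, map_mul, map_mul, map_inv₀, hc, hs, map_sub, map_one, hm]
  have h2 : τ (σ θ) = ζ ^ s * (ζ ^ r * ((τ ^ m) θ * b⁻¹ * (1 - ζ ^ m * y))) := by
    rw [hs, map_mul, map_pow, hτζ]
    congr 1
    rw [← AlgEquiv.mul_apply, ← pow_succ', pow_succ, AlgEquiv.mul_apply, hr, map_mul, map_pow,
      hτζ', map_mul, map_mul, map_inv₀, hτb', map_sub, map_one, (hiter m).1]
  have hfm : 1 - ζ ^ m * y ≠ 0 := by
    rw [pow_eq_pow_mod m hζℓ]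
    exact hfac _ (Finset.mem_range.2 (Nat.mod_lt _ hℓ.pos))
  have hζc : ζ ^ c = 1 := by
    rw [h1, h2] at hrel
    have hA : ζ ^ r * ζ ^ s * (τ ^ m) θ * b⁻¹ * (1 - ζ ^ m * y) ≠ 0 :=
      mul_ne_zero (mul_ne_zero (mul_ne_zero (mul_ne_zero (pow_ne_zero _ hζ0)
        (pow_ne_zero _ hζ0)) hτmθ0) (inv_ne_zero hb0)) hfm
    have h3 : (ζ ^ c)⁻¹ * (ζ ^ r * ζ ^ s * (τ ^ m) θ * b⁻¹ * (1 - ζ ^ m * y)) =
        1 * (ζ ^ r * ζ ^ s * (τ ^ m) θ * b⁻¹ * (1 - ζ ^ m * y)) := by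
      rw [mul_inv] at hrel
      linear_combination hrel
    have h4 := mul_right_cancel₀ hA h3
    rwa [inv_eq_one] at h4
  have hσb : σ b = b := by rw [hc, hζc, one_mul]
  obtain ⟨r', hr'⟩ := P.fix b hσb hτb
  refine ⟨r', (algebraMap L Ω).injective ?_⟩
  rw [map_pow, hr', hb]

end Pool.Agent.SB
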