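import Pool.Agent.Helper79.SV.V0
import Pool.Agent.Helper79.SV.V3b
import Pool.Agent.Helper79.SV.V4

set_option autoImplicit false

/-!
# SB-V-09: a valuation ring of `L` with `1 + m` contained in the `ℓ`-th powers

Take `ζ, χ` from `pair_flag` and `O` from `exists_coarse_ring` for `C = consts k L`.
units: `u ∈ O` unit: `χ u = 0`, so `τ` fixes the `ℓ`-th roots of `u` (`IsKummer`).
`1 - x` for `x` a nonunit of `O`, `x ≠ 0`: `1 - x` is a unit of `O`, `χ (1 - x) = 0`.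
(i) if `χ x ≠ 0`: `y ^ ℓ = x`, `b ^ ℓ = 1 - x`: `τ y ≠ y`, `τ b = b`; `steinberg`.
(ii) if `χ x = 0`: let `z` be as in `exists_coarse_ring`.  `x'' = (x - z)/(1 - z)` is a nonunit of `O`, `x - z = -z (1 - x/z)`,
`x/z` is a nonunit, so `χ x'' = χ z + 0 - 0 ≠ 0` (`-1` is a constant).  By (i) `1 - z` and `1 - x''` are `ℓ`-th powers, and
`(1 - z)(1 - x'') = 1 - z - x + z = 1 - x`.
-/

namespace Pool.Agent.SB

private theorem v5_iff {L : Type} [Field L] (O : ValuationSubring L) {x : L} (hx : x ≠ 0) :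
    x⁻¹ ∉ O ↔ O.valuation x < 1 := by
  have hv : O.valuation x ≠ 0 := (Valuation.ne_zero_iff _).2 hx
  rw [← ValuationSubring.valuation_le_one_iff O x⁻¹, map_inv₀, not_le]
  exact one_lt_inv₀ (zero_lt_iff.2 hv)

private theorem v5_val {L : Type} [Field L] (O : ValuationSubring L) {x : L} (hx : x ≠ 0)
    (h : x⁻¹ ∉ O) : O.valuation (1 - x) = 1 := by
  rw [v5_iff O hx] at h
  rw [sub_eq_add_neg]
  apply Valuation.map_one_add_of_lt
  rwa [Valuation.map_neg]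

private theorem v5_unit {L : Type} [Field L] (O : ValuationSubring L) {u : L}
    (h : O.valuation u = 1) : u ≠ 0 ∧ u ∈ O ∧ u⁻¹ ∈ O := by
  refine ⟨?_, (ValuationSubring.valuation_le_one_iff _ _).1 h.le,
    (ValuationSubring.valuation_le_one_iff _ _).1 (by rw [map_inv₀, h, inv_one])⟩
  rintro rfl
  rw [map_zero] at h
  exact zero_ne_one h

theorem exists_pair_ring (k : Type) [Field k] [CharZero k] {L Ω : Type} [Field L] [Field Ω]
    [Algebra k L] [Algebra L Ω] [Algebra k Ω] [IsScalarTower k L Ω] [IsAlgClosed Ω]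
    [Algebra.IsAlgebraic L Ω] {ℓ : ℕ} (hℓ : ℓ.Prime) {σ τ : Ω ≃ₐ[L] Ω} (P : TPair k ℓ σ τ)
    (hW : WeightProp k ℓ τ) :
    ∃ O : ValuationSubring L, (∀ c : L, IsAlgebraic k c → c ∈ O) ∧
      (∀ (u : L) (y : Ω), u ≠ 0 → u ∈ O → u⁻¹ ∈ O → y ^ ℓ = algebraMap L Ω u → τ y = y) ∧
      (∀ x : L, x ∈ O → x⁻¹ ∉ O → ∃ r : L, r ^ ℓ = 1 - x) := by
  obtain ⟨ζ, χ, hζ, hK, hC, hF⟩ := pair_flag k hℓ P hW
  have hinf : ((consts k L : Subfield L) : Set L).Infinite := by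
    haveI : CharZero L := charZero_of_injective_algebraMap (algebraMap k L).injective
    refine Set.infinite_of_injective_forall_mem (f := fun n : ℕ => (n : L)) Nat.cast_injective ?_
    intro n
    exact natCast_mem (consts k L) n
  obtain ⟨O, h1, h2, h3⟩ := exists_coarse_ring hℓ (consts k L) hinf χ hC hF
  have hfix : ∀ (u : L) (y : Ω), u ≠ 0 → u ∈ O → u⁻¹ ∈ O → y ^ ℓ = algebraMap L Ω u →
      τ y = y := by
    intro u y hu hu1 hu2 hy
    have h4 := hK u y hu hy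
    rw [h2 u hu hu1 hu2, ZMod.val_zero, pow_zero, one_mul] at h4
    exact h4
  have hchi : ∀ x : L, x ≠ 0 → x⁻¹ ∉ O → χ x ≠ 0 → ∃ r : L, r ^ ℓ = 1 - x := by
    intro x hx0 hx hχ
    obtain ⟨hn, hm, hi⟩ := v5_unit O (v5_val O hx0 hx)
    obtain ⟨y, hy⟩ := IsAlgClosed.exists_pow_nat_eq (algebraMap L Ω x) hℓ.pos
    obtain ⟨b, hb⟩ := IsAlgClosed.exists_pow_nat_eq (algebraMap L Ω (1 - x)) hℓ.pos
    have hy0 : y ≠ 0 := by
      rintro rfl
      rw [zero_pow hℓ.ne_zero] at hy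
      exact hx0 ((map_eq_zero _).1 hy.symm)
    refine steinberg k hℓ P x (sub_ne_zero.1 hn).symm y b hy ?_ hb (hfix _ b hn hm hi hb)
    rw [hK x y hx0 hy]
    intro h4
    haveI : NeZero ℓ := ⟨hℓ.ne_zero⟩
    have h5 : ζ ^ (χ x).val = 1 := mul_right_cancel₀ hy0 (by rw [h4, one_mul])
    exact hζ.pow_ne_one_of_pos_of_lt (fun h6 => hχ ((ZMod.val_eq_zero _).1 h6)) (ZMod.val_lt _) h5
  refine ⟨O, fun c hc => h1 c ((mem_consts c).2 hc), hfix, ?_⟩
  intro x hxO hx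
  have hx0 : x ≠ 0 := by
    rintro rfl
    rw [inv_zero] at hx
    exact hx O.zero_mem
  by_cases hχ : χ x = 0
  · obtain ⟨z, hz0, hzO, hz, hχz, hxz, hzx⟩ := h3 x hx0 hxO hx hχ
    have hxz0 : x / z ≠ 0 := div_ne_zero hx0 hz0
    have hxz' : (x / z)⁻¹ ∉ O := by rwa [inv_div]
    obtain ⟨a1, a2, a3⟩ := v5_unit O (v5_val O hxz0 hxz')
    obtain ⟨b1, b2, b3⟩ := v5_unit O (v5_val O hz0 hz)
    have hneg : (-1 : L) ∈ consts k L := neg_mem (one_mem _)
    have hm1 : (-1 : L) ≠ 0 := neg_ne_zero.2 one_ne_zero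
    have heq : (x - z) / (1 - z) = (-1) * z * ((1 - x / z) * (1 - z)⁻¹) := by
      field_simp
      ring
    have hne : (x - z) / (1 - z) ≠ 0 := by
      rw [heq]
      exact mul_ne_zero (mul_ne_zero hm1 hz0) (mul_ne_zero a1 (inv_ne_zero b1))
    have hval : O.valuation ((x - z) / (1 - z)) < 1 := by
      rw [heq, map_mul, map_mul, map_mul, map_inv₀, Valuation.map_neg, map_one, one_mul,
        v5_val O hxz0 hxz', v5_val O hz0 hz, inv_one, mul_one, mul_one]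
      exact (v5_iff O hz0).1 hz
    have hχ2 : χ ((x - z) / (1 - z)) ≠ 0 := by
      rw [heq, hC.mul _ _ (mul_ne_zero hm1 hz0) (mul_ne_zero a1 (inv_ne_zero b1)),
        hC.mul _ _ hm1 hz0, hC.mul _ _ a1 (inv_ne_zero b1), hC.const _ hneg hm1,
        h2 _ a1 a2 a3, h2 _ (inv_ne_zero b1) b3 (by rwa [inv_inv]), zero_add, add_zero, add_zero]
      exact hχz
    obtain ⟨r1, hr1⟩ := hchi z hz0 hz hχz
    obtain ⟨r2, hr2⟩ := hchi _ hne ((v5_iff O hne).2 hval) hχ2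
    refine ⟨r1 * r2, ?_⟩
    rw [mul_pow, hr1, hr2]
    field_simp
    ring
  · exact hchi x hx0 hx hχ

end Pool.Agent.SB
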