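import Mathlib

set_option autoImplicit false

/-!
# SB-V-10: uniqueness of the extension of `O` to a Galois `ℓ`-extension

`B = integralClosure O M`, `G = Gal(M/L)`.  `O` is integrally closed, `B^G = O`, so `G` acts transitively on the maximal
ideals of `B` (`Algebra.IsInvariant`; all of them lie over the maximal ideal of `O`; there are finitely many).  Suppose
there are two.  Let `D < G` be the stabiliser of one of them, `𝔫`.  `G` is an `ℓ`-group, so `D ≤ H` for some `H` normal of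
index `ℓ` (`IsPGroup`: maximal subgroups are normal of index `ℓ`; `Sylow`/`IsPGroup.exists..`).  Let `M' = M^H`, a cyclic
extension of `L` of degree `ℓ`, `ρ` a generator of `Gal(M'/L)`, `B' = integralClosure O M' = B ∩ M'`.  `ρ` extends to `g ∈ G`,
`g ∉ H`.  The primes `𝔫_i = g^i 𝔫 ∩ B'`, `0 ≤ i < ℓ`, are pairwise distinct: if `g^i 𝔫 ∩ B' = g^j 𝔫 ∩ B'`, then by transitivity of
`H = Gal(M/M')` on the primes of `B` over a prime of `B'`: `g^i 𝔫 = h g^j 𝔫`, so `g^(-i) h g^j ∈ D ≤ H`, `g^(j-i) ∈ H`, `i = j`.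
CRT: `b ∈ B'` with `b - 1 ∈ 𝔫_0`, `b ∈ 𝔫_i` for `0 < i < ℓ`.  Let `ζ' ` be a power of `ζ`; `y = ∑_(i<ℓ) ζ^(-i) ρ^i b ∈ B'`.  `ρ y = ζ y`.
`ρ^i b ≡ 1` mod `ρ^i 𝔫_0 = 𝔫_i`, and `ρ^i b ∈ 𝔫_j` for `j ≠ i`; so modulo `𝔫_0`: `y ≡ 1`; in particular `y ≠ 0`.  `a = y ^ ℓ` is
fixed by `ρ`, so `a ∈ L`, integral over `O`, `a ∈ O`, and `a - 1 ∈ 𝔫_0 ∩ O` = maximal ideal of `O`.  If `a = 1` put `r = 1`,
otherwise `x = 1 - a ∈ O`, `x⁻¹ ∉ O`, and `hO` gives `r ∈ L` with `r ^ ℓ = a = y ^ ℓ`.  So `y / r` is an `ℓ`-th root of unity, a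
power of `ζ`, so `y ∈ L` and `ρ y = y`, contradiction to `ρ y = ζ y`, `y ≠ 0`.
-/

namespace Pool.Agent.SB

namespace LocalPGroup

open scoped Pointwise

/-- In a finite `ℓ`-group a proper subgroup is contained in a normal subgroup of index `ℓ`. -/
theorem exists_normal_index {G : Type*} [Group G] [Finite G] {ℓ : ℕ} (hℓ : ℓ.Prime)
    (hG : IsPGroup ℓ G) (D : Subgroup G) (hD : D ≠ ⊤) :
    ∃ H : Subgroup G, D ≤ H ∧ H.Normal ∧ H.index = ℓ := by
  have := Fact.mk hℓ
  obtain ⟨n, hn⟩ := IsPGroup.iff_card.1 hG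
  obtain ⟨m, hm⟩ := IsPGroup.iff_card.1 (hG.to_subgroup D)
  have hmn : m < n := by
    have h1 : Nat.card D ∣ Nat.card G := Subgroup.card_subgroup_dvd_card D
    have h2 : m ≤ n := by
      rw [hm, hn] at h1
      exact (Nat.pow_dvd_pow_iff_le_right hℓ.one_lt).1 h1
    rcases lt_or_eq_of_le h2 with h | h
    · exact h
    · exfalso
      apply hD
      apply Subgroup.eq_top_of_card_eq
      rw [hm, hn, h]
  obtain ⟨k, rfl⟩ : ∃ k, n = k + 1 := ⟨n - 1, by omega⟩
  obtain ⟨H, hH1, hH2⟩ := Sylow.exists_subgroup_card_pow_prime_le (G := G) ℓ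
    (n := m) (m := k) (by rw [hn]; exact pow_dvd_pow _ (Nat.le_succ k)) D hm (by omega)
  have hidx : H.index = ℓ := by
    have h1 := H.card_mul_index
    rw [hH1, hn, pow_succ] at h1
    exact Nat.eq_of_mul_eq_mul_left (pow_pos hℓ.pos k) h1
  refine ⟨H, hH2, ?_, hidx⟩
  apply Subgroup.normal_of_index_eq_minFac_card
  rw [hidx, hn, Nat.Prime.pow_minFac hℓ (Nat.succ_ne_zero k)]

theorem smul_isMaximal {B G : Type*} [CommRing B] [Group G] [MulSemiringAction G B]
    (P : Ideal B) [P.IsMaximal] (g : G) : (g • P).IsMaximal := by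
  rw [Ideal.pointwise_smul_eq_comap]
  exact Ideal.comap_isMaximal_of_equiv _

/-- The element separating the cosets of `H`. -/
theorem exists_sep {B G : Type*} [CommRing B] [Group G] [Finite G] [MulSemiringAction G B]
    (P : Ideal B) [P.IsMaximal] (H : Subgroup G) (hH : MulAction.stabilizer G P ≤ H) :
    ∃ b : B, (∀ h ∈ H, h • b = b) ∧ b - 1 ∈ P ∧ ∀ γ : G, γ ∉ H → b ∈ γ • P := by
  classical
  cases nonempty_fintype G
  have hmax : ∀ g : G, (g • P).IsMaximal := fun g => smul_isMaximal P g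
  have hne : ∀ γ ∈ H, ∀ δ ∉ H, γ • P ≠ δ • P := by
    intro γ hγ δ hδ h
    apply hδ
    have h1 : γ⁻¹ * δ ∈ MulAction.stabilizer G P := by
      rw [MulAction.mem_stabilizer_iff, mul_smul, ← h, inv_smul_smul]
    have h2 := H.mul_mem hγ (hH h1)
    rwa [mul_inv_cancel_left] at h2
  have hcop : (⨅ γ ∈ (Finset.univ.filter (fun γ : G => γ ∈ H)), γ • P) ⊔
      (⨅ δ ∈ (Finset.univ.filter (fun δ : G => δ ∉ H)), δ • P) = ⊤ := by
    apply Ideal.sup_iInf_eq_top
    intro δ hδ
    apply Ideal.iInf_sup_eq_top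
    intro γ hγ
    exact (Ideal.isCoprime_iff_sup_eq).1
      (Ideal.isCoprime_of_isMaximal (hne γ (by simpa using hγ) δ (by simpa using hδ)))
  obtain ⟨c, hc, b0, hb0, hcb⟩ := Submodule.mem_sup.1
    ((Ideal.eq_top_iff_one _).1 hcop)
  have hc' : ∀ γ ∈ H, c ∈ γ • P := by
    intro γ hγ
    have := hc
    simp only [Ideal.mem_iInf, Finset.mem_filter, Finset.mem_univ, true_and] at this
    exact this γ hγ
  have hb' : ∀ γ ∉ H, b0 ∈ γ • P := by
    intro γ hγ
    have := hb0
    simp only [Ideal.mem_iInf, Finset.mem_filter, Finset.mem_univ, true_and] at this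
    exact this γ hγ
  refine ⟨∏ h : H, (h : G) • b0, ?_, ?_, ?_⟩
  · intro h hh
    rw [Finset.smul_prod']
    refine Fintype.prod_equiv (Equiv.mulLeft (⟨h, hh⟩ : H)) _ _ ?_
    intro x
    rw [smul_smul]
    rfl
  · rw [← Ideal.Quotient.eq, map_prod, map_one]
    apply Finset.prod_eq_one
    intro h _
    rw [← map_one (Ideal.Quotient.mk P), Ideal.Quotient.eq]
    have h1 : b0 - 1 ∈ (h : G)⁻¹ • P := by
      have : b0 - 1 = - c := by rw [← hcb]; ring
      rw [this]
      exact neg_mem (hc' _ (H.inv_mem h.2))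
    rw [Ideal.mem_inv_pointwise_smul_iff, smul_sub, smul_one] at h1
    exact h1
  · intro γ hγ
    have h1 : (1 : H) ∈ (Finset.univ : Finset H) := Finset.mem_univ _
    have h2 := Finset.dvd_prod_of_mem (fun h : H => (h : G) • b0) h1
    apply Ideal.mem_of_dvd _ h2
    simpa using hb' γ hγ

/-- `g ^ i ∈ H` iff `ℓ ∣ i`. -/
theorem pow_mem_iff {G : Type*} [Group G] {ℓ : ℕ} (hℓ : ℓ.Prime) (H : Subgroup G)
    (hHn : H.Normal) (hH : H.index = ℓ) (g : G) (hg : g ∉ H) (i : ℕ) : g ^ i ∈ H ↔ ℓ ∣ i := by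
  have := Fact.mk hℓ
  have h1 : (QuotientGroup.mk' H g) ^ ℓ = 1 := by
    have h := pow_card_eq_one' (x := QuotientGroup.mk' H g)
    rwa [show Nat.card (G ⧸ H) = ℓ from hH] at h
  have h2 : QuotientGroup.mk' H g ≠ 1 := by
    intro h
    exact hg ((QuotientGroup.eq_one_iff g).1 h)
  have h3 := orderOf_eq_prime h1 h2
  rw [← h3, orderOf_dvd_iff_pow_eq_one, ← map_pow]
  exact (QuotientGroup.eq_one_iff _).symm

theorem local_of_invariant {A B G : Type*} [CommRing A] [IsDomain A] [IsLocalRing A]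
    [CommRing B] [IsDomain B] [Algebra A B] [FaithfulSMul A B] [Group G] [Finite G]
    [MulSemiringAction G B] [SMulCommClass G A B] [Algebra.IsInvariant A B G]
    {ℓ : ℕ} (hℓ : ℓ.Prime) (hG : IsPGroup ℓ G) (ζ : A) (hζ : IsPrimitiveRoot ζ ℓ)
    (hO : ∀ x ∈ IsLocalRing.maximalIdeal A, ∃ r : A, r ^ ℓ = 1 - x) : IsLocalRing B := by
  classical
  have hint : Algebra.IsIntegral A B := Algebra.IsInvariant.isIntegral A B G
  have hinj : Function.Injective (algebraMap A B) := FaithfulSMul.algebraMap_injective A B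
  obtain ⟨P, hP⟩ := Ideal.exists_maximal B
  apply IsLocalRing.of_unique_max_ideal
  refine ⟨P, hP, ?_⟩
  intro Q hQ
  by_contra hQP
  have hover : ∀ Q : Ideal B, Q.IsMaximal → Q.under A = IsLocalRing.maximalIdeal A := by
    intro Q hQ
    exact IsLocalRing.eq_maximalIdeal (Ideal.isMaximal_comap_of_isIntegral_of_isMaximal Q)
  have hPp : P.IsPrime := hP.isPrime
  have hQp : Q.IsPrime := hQ.isPrime
  obtain ⟨g0, hg0⟩ := Algebra.IsInvariant.exists_smul_of_under_eq A B G P Q
    ((hover P hP).trans (hover Q hQ).symm)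
  have hD : MulAction.stabilizer G P ≠ ⊤ := by
    intro h
    apply hQP
    have h1 : g0 ∈ MulAction.stabilizer G P := by rw [h]; exact Subgroup.mem_top _
    rw [hg0]
    exact h1
  obtain ⟨H, hDH, hHn, hHi⟩ := exists_normal_index hℓ hG _ hD
  have hHtop : H ≠ ⊤ := by
    intro h
    rw [h, Subgroup.index_top] at hHi
    exact hℓ.one_lt.ne hHi
  obtain ⟨g, hg⟩ : ∃ g, g ∉ H := by
    by_contra hcon
    push Not at hcon
    exact hHtop ((Subgroup.eq_top_iff' H).2 hcon)
  obtain ⟨b, hb1, hb2, hb3⟩ := exists_sep P H hDH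
  set ξ : A := ζ ^ (ℓ - 1) with hξ
  have hζℓ : ζ ^ ℓ = 1 := hζ.pow_eq_one
  have hξζ : ζ * ξ = 1 := by
    rw [hξ, ← pow_succ', Nat.sub_add_cancel hℓ.one_lt.le, hζℓ]
  have hξℓ : ξ ^ ℓ = 1 := by
    rw [hξ, ← pow_mul, mul_comm, pow_mul, hζℓ, one_pow]
  set f : ℕ → B := fun i => (ξ ^ i) • (g ^ i • b) with hf
  set y : B := ∑ i ∈ Finset.range ℓ, f i with hy
  have hfℓ : f ℓ = f 0 := by
    simp only [hf, hξℓ, pow_zero, one_smul]
    exact hb1 _ ((pow_mem_iff hℓ H hHn hHi g hg ℓ).2 dvd_rfl)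
  have hgy : g • y = ζ • y := by
    have h1 : g • y = ζ • ∑ i ∈ Finset.range ℓ, f (i + 1) := by
      rw [hy, Finset.smul_sum, Finset.smul_sum]
      apply Finset.sum_congr rfl
      intro i _
      simp only [hf]
      rw [smul_comm g, ← mul_smul, ← pow_succ', pow_succ' ξ i, ← mul_smul ζ, ← mul_assoc, hξζ,
        one_mul]
    have h2 : ∑ i ∈ Finset.range ℓ, f (i + 1) = y := by
      have h3 := Finset.sum_range_succ f ℓ
      rw [Finset.sum_range_succ' f ℓ, hfℓ] at h3
      exact add_right_cancel h3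
    rw [h1, h2]
  have hhy : ∀ h ∈ H, h • y = y := by
    intro h hh
    rw [hy, Finset.smul_sum]
    apply Finset.sum_congr rfl
    intro i _
    simp only [hf]
    rw [smul_comm h]
    congr 1
    have h1 : (g ^ i)⁻¹ * h * g ^ i ∈ H := by
      have := hHn.conj_mem h hh (g ^ i)⁻¹
      rwa [inv_inv] at this
    have h2 := hb1 _ h1
    calc h • g ^ i • b = g ^ i • (((g ^ i)⁻¹ * h * g ^ i) • b) := by
          rw [← mul_smul, ← mul_smul]
          congr 1
          group
      _ = g ^ i • b := by rw [h2]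
  have hyP : y - 1 ∈ P := by
    obtain ⟨k, hk⟩ : ∃ k, ℓ = k + 1 := ⟨ℓ - 1, (Nat.sub_add_cancel hℓ.one_lt.le).symm⟩
    have h1 : y = (∑ i ∈ Finset.range k, f (i + 1)) + f 0 := by
      rw [hy, hk, Finset.sum_range_succ']
    have h2 : f 0 = b := by simp [hf]
    rw [h1, h2, add_sub_assoc]
    apply P.add_mem _ hb2
    apply P.sum_mem
    intro i hi
    simp only [hf]
    rw [Algebra.smul_def]
    apply P.mul_mem_left
    have h3 : (g ^ (i + 1))⁻¹ ∉ H := by
      intro h
      have h4 := (pow_mem_iff hℓ H hHn hHi g hg (i + 1)).1 (by simpa using H.inv_mem h)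
      have h5 := Nat.le_of_dvd (Nat.succ_pos i) h4
      have h6 := Finset.mem_range.1 hi
      omega
    have h4 := hb3 _ h3
    rwa [Ideal.mem_inv_pointwise_smul_iff] at h4
  have hfix : ∀ σ : G, σ • y ^ ℓ = y ^ ℓ := by
    have hHK : H ≤ MulAction.stabilizer G (y ^ ℓ) := by
      intro h hh
      rw [MulAction.mem_stabilizer_iff, smul_pow', hhy h hh]
    have hgK : g ∈ MulAction.stabilizer G (y ^ ℓ) := by
      rw [MulAction.mem_stabilizer_iff, smul_pow', hgy, smul_pow, hζℓ, one_smul]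
    have h1 := Subgroup.relIndex_mul_index hHK
    rw [hHi] at h1
    have h2 : (MulAction.stabilizer G (y ^ ℓ)).index = 1 := by
      rcases (Nat.dvd_prime hℓ).1 (Dvd.intro_left _ h1) with h | h
      · exact h
      · exfalso
        rw [h] at h1
        have h3 : H.relIndex (MulAction.stabilizer G (y ^ ℓ)) = 1 :=
          Nat.eq_of_mul_eq_mul_right hℓ.pos (by rw [h1, one_mul])
        exact hg ((Subgroup.relIndex_eq_one.1 h3) hgK)
    intro σ
    have h3 : σ ∈ MulAction.stabilizer G (y ^ ℓ) := by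
      rw [Subgroup.index_eq_one.1 h2]
      exact Subgroup.mem_top _
    exact h3
  obtain ⟨a, ha⟩ := Algebra.IsInvariant.isInvariant (A := A) (y ^ ℓ) hfix
  have hx : 1 - a ∈ IsLocalRing.maximalIdeal A := by
    rw [← hover P hP, Ideal.under_def, Ideal.mem_comap, map_sub, map_one, ha]
    rw [← Ideal.Quotient.eq, map_one, map_pow]
    rw [← Ideal.Quotient.eq, map_one] at hyP
    rw [hyP, one_pow]
  obtain ⟨r, hr⟩ := hO _ hx
  rw [sub_sub_cancel] at hr
  have hpow : y ^ ℓ = (algebraMap A B r) ^ ℓ := by rw [← map_pow, hr, ha]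
  have hζB : IsPrimitiveRoot (algebraMap A B ζ) ℓ := hζ.map_of_injective hinj
  have hprod := hζB.pow_sub_pow_eq_prod_sub_mul y (algebraMap A B r) hℓ.pos
  rw [hpow, sub_self] at hprod
  obtain ⟨η, hη, hη2⟩ := Finset.prod_eq_zero_iff.1 hprod.symm
  rw [Polynomial.mem_nthRootsFinset hℓ.pos] at hη
  have := NeZero.mk hℓ.ne_zero
  obtain ⟨i, -, hi⟩ := hζB.eq_pow_of_pow_eq_one hη
  have hyr : y = algebraMap A B (ζ ^ i * r) := by
    rw [map_mul, map_pow, hi]
    exact sub_eq_zero.1 hη2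
  have hgy2 : g • y = y := by
    rw [hyr]
    exact smul_algebraMap g _
  rw [hgy, Algebra.smul_def] at hgy2
  have hy0 : y = 0 := by
    by_contra hy0
    have h1 : algebraMap A B ζ = 1 := mul_right_cancel₀ hy0 (by rw [hgy2, one_mul])
    exact hζB.ne_one hℓ.one_lt h1
  rw [hy0, zero_sub] at hyP
  exact hP.ne_top ((Ideal.eq_top_iff_one _).2 (by simpa using P.neg_mem hyP))

end LocalPGroup

theorem local_of_pgroup {L M : Type} [Field L] [Field M] [Algebra L M] [FiniteDimensional L M]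
    [IsGalois L M] {ℓ : ℕ} (hℓ : ℓ.Prime) (hG : IsPGroup ℓ (M ≃ₐ[L] M)) (ζ : L)
    (hζ : IsPrimitiveRoot ζ ℓ) (O : ValuationSubring L)
    (hO : ∀ x : L, x ∈ O → x⁻¹ ∉ O → ∃ r : L, r ^ ℓ = 1 - x) :
    IsLocalRing (integralClosure O M) := by
  have hle : ∀ r : L, r ^ ℓ ∈ O → r ∈ O := by
    intro r hr
    rw [← ValuationSubring.valuation_le_one_iff, map_pow] at hr
    rw [← ValuationSubring.valuation_le_one_iff]
    exact (pow_le_one_iff hℓ.ne_zero).1 hr
  have hζO : ζ ∈ O := hle ζ (by rw [hζ.pow_eq_one]; exact O.one_mem)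
  have hinjO : Function.Injective (algebraMap O L) := IsFractionRing.injective O L
  have hfr : IsFractionRing (integralClosure O M) M :=
    integralClosure.isFractionRing_of_finite_extension L M
  let := IsIntegralClosure.MulSemiringAction O L M (integralClosure O M)
  have hinv : Algebra.IsInvariant O (integralClosure O M) (M ≃ₐ[L] M) :=
    Algebra.isInvariant_of_isGalois O L M (integralClosure O M)
  have hcomm : SMulCommClass (M ≃ₐ[L] M) O (integralClosure O M) := by
    refine ⟨fun g a b => ?_⟩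
    exact map_smul (galRestrict O L M (integralClosure O M) g) a b
  have hfaith : FaithfulSMul O (integralClosure O M) := by
    rw [faithfulSMul_iff_algebraMap_injective]
    have h1 : Function.Injective (algebraMap O M) := by
      rw [IsScalarTower.algebraMap_eq O L M]
      exact (algebraMap L M).injective.comp hinjO
    intro a b hab
    apply h1
    rw [IsScalarTower.algebraMap_apply O (integralClosure O M) M a,
      IsScalarTower.algebraMap_apply O (integralClosure O M) M b, hab]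
  refine LocalPGroup.local_of_invariant (A := O) (B := integralClosure O M)
    (G := M ≃ₐ[L] M) hℓ hG ⟨ζ, hζO⟩ ?_ ?_
  · exact IsPrimitiveRoot.of_map_of_injective (f := algebraMap O L) hζ hinjO
  · intro x hx
    by_cases hx0 : x = 0
    · exact ⟨1, by rw [hx0, one_pow, sub_zero]⟩
    · have hx1 : ((x : L))⁻¹ ∉ O := by
        intro h
        rw [IsLocalRing.mem_maximalIdeal, mem_nonunits_iff] at hx
        apply hx
        refine IsUnit.of_mul_eq_one ⟨(x : L)⁻¹, h⟩ ?_
        apply Subtype.ext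
        exact mul_inv_cancel₀ (fun h0 => hx0 (Subtype.ext h0))
      obtain ⟨r, hr⟩ := hO x x.2 hx1
      refine ⟨⟨r, hle r ?_⟩, ?_⟩
      · rw [hr]
        exact O.sub_mem O.one_mem x.2
      · apply Subtype.ext
        exact hr

end Pool.Agent.SB
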