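import Mathlib

set_option autoImplicit false

/-!
# SB-V-11: if the integral closure of a valuation ring in an algebraic extension is local, it is
a valuation ring

Let `B = integralClosure O M`, local.  Let `x ∈ M`; we show `x ∈ B` or `x⁻¹ ∈ B`.  `x` is algebraic over `L`, so there are
`a_0, .., a_n ∈ O`, not all nonunits, with `∑ a_i x^i = 0` (clear denominators by the coefficient of largest valuation).
Let `j` be the largest index with `a_j` a unit.  `u = ∑_(i ≥ j) a_i x^(i-j)`, so `u x^j = -∑_(i<j) a_i x^i`.
Both `u` and `u x` are integral over `O`: a valuation ring `W` of `M` containing `O` contains `x` or `x⁻¹`; if `x ∈ W` then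
`u, u x ∈ W`; if `x⁻¹ ∈ W` then `u = -∑_(i<j) a_i x^(i-j) ∈ W` and `u x = -∑_(i<j) a_i x^(i-j+1) ∈ W` (for `j = 0`: `u = 0`, but then
`1 = -a_0⁻¹ ∑_(i>0) a_i x^i` with `a_i` nonunits... see below); the integral closure is the intersection of the valuation
rings containing `O` (Mathlib: `LocalSubring`/`bijective_rangeRestrict_comp_of_valuationRing` or
`Subring.exists_le_valuationSubring_of_isIntegrallyClosedIn`, any form), or show it directly: the `O`-module generated by
`1, x⁻¹ .. ` etc.
Now if `u ∈ B` is a unit of `B` then `x = (u x) u⁻¹ ∈ B`.  If `u` is a nonunit of the local ring `B`: if `u x` is a unit of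
`B`, then `x⁻¹ = u (u x)⁻¹ ∈ B`.  If both are nonunits of `B`: let `W` be a valuation ring of `M` dominating `B` (its maximal
ideal contains that of `B`, and meets `O` in the maximal ideal of `O`).  If `x ∈ W`: `u ≡ a_j` modulo the maximal ideal of `W` (as `a_i` are nonunits
for `i > j`), so `u` is a unit of `W`, contradiction.  If `x⁻¹ ∈ W`, `x ∉ W`: `x⁻¹` is in the maximal ideal of `W`; with `j' ` = the SMALLEST index with `a_j'` a unit and the
symmetric elements one gets the same contradiction; so do the argument as follows: choose `W` first; if `x ∈ W` then `u` is a unit of `W`, so it is not in the maximal ideal of `B`, so it is a unit of the local ring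
`B`, so `x ∈ B`.  If `x⁻¹ ∈ W` apply this to `x⁻¹`: `x⁻¹ ∈ B`.
(`j = 0`, `x ∈ W`: `u = 0` is impossible since `u` is a unit of `W`.)
-/

namespace Pool.Agent.SB

/-- The numbers `u k = ∑_(i ≥ k) a i x ^ (i - k)` of a normalised algebraic equation. -/
private theorem v6b_seq {L M : Type} [Field L] [Field M] [Algebra L M] (O : ValuationSubring L) {x : M}
    (hx : IsAlgebraic L x) : ∃ (a : ℕ → L) (u : ℕ → M) (n : ℕ), (∀ i, a i ∈ O) ∧ (∃ i, a i ∉ O.nonunits) ∧
      u 0 = 0 ∧ (∀ k, u k = algebraMap L M (a k) + x * u (k + 1)) ∧ (∀ k, n < k → u k = 0) ∧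
      ∀ k, n < k → a k = 0 := by
  obtain ⟨p, hp, hpx⟩ := hx
  obtain ⟨i0, hi0, hmax⟩ := Finset.exists_max_image p.support (fun i => O.valuation (p.coeff i))
    (Polynomial.support_nonempty.2 hp)
  have hc : p.coeff i0 ≠ 0 := Polynomial.mem_support_iff.1 hi0
  have hv : O.valuation (p.coeff i0) ≠ 0 := (Valuation.ne_zero_iff _).2 hc
  set q := Polynomial.C (p.coeff i0)⁻¹ * p with hq
  have hqc : ∀ i, q.coeff i = (p.coeff i0)⁻¹ * p.coeff i := fun i => by rw [hq, Polynomial.coeff_C_mul]
  have hq1 : q.coeff i0 = 1 := by rw [hqc, inv_mul_cancel₀ hc]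
  have hqx : Polynomial.aeval x q = 0 := by rw [hq, map_mul, hpx, mul_zero]
  have hcoef : ∀ k i, (Polynomial.divX^[k] q).coeff i = q.coeff (i + k) := by
    intro k
    induction k with
    | zero => intro i; rfl
    | succ k ih =>
      intro i
      rw [Function.iterate_succ_apply', Polynomial.coeff_divX, ih]
      congr 1
      omega
  refine ⟨q.coeff, fun k => Polynomial.aeval x (Polynomial.divX^[k] q), q.natDegree, ?_, ⟨i0, ?_⟩, ?_, ?_, ?_, ?_⟩
  · intro i
    rw [hqc, ← O.valuation_le_one_iff, map_mul, map_inv₀]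
    by_cases hi : i ∈ p.support
    · have h1 := hmax i hi
      rw [inv_mul_le_one₀ (zero_lt_iff.2 hv)]
      exact h1
    · rw [Polynomial.notMem_support_iff.1 hi, map_zero, mul_zero]
      exact zero_le_one
  · rw [hq1, O.mem_nonunits_iff, map_one]
    exact lt_irrefl _
  · exact hqx
  · intro k
    have h1 := Polynomial.divX_mul_X_add (Polynomial.divX^[k] q)
    have h2 := congrArg (Polynomial.aeval x) h1
    rw [map_add, map_mul, Polynomial.aeval_X, Polynomial.aeval_C, hcoef k 0, zero_add] at h2
    change Polynomial.aeval x (Polynomial.divX^[k] q) = _ + x * Polynomial.aeval x (Polynomial.divX^[k + 1] q)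
    rw [Function.iterate_succ_apply', ← h2]
    ring
  · intro k hk
    have h1 : Polynomial.divX^[k] q = 0 := by
      ext i
      rw [hcoef, Polynomial.coeff_zero]
      exact Polynomial.coeff_eq_zero_of_natDegree_lt (by omega)
    change Polynomial.aeval x (Polynomial.divX^[k] q) = 0
    rw [h1, map_zero]
  · intro k hk
    exact Polynomial.coeff_eq_zero_of_natDegree_lt hk

private theorem v6b_int {L M : Type} [Field L] [Field M] [Algebra L M] (O : ValuationSubring L) {x : M}
    {a : ℕ → L} {u : ℕ → M} {n : ℕ} (ha : ∀ i, a i ∈ O) (hu0 : u 0 = 0)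
    (hu : ∀ k, u k = algebraMap L M (a k) + x * u (k + 1)) (hun : ∀ k, n < k → u k = 0) (k : ℕ) :
    IsIntegral O (u k) := by
  have hcl : IsIntegrallyClosedIn (integralClosure O M).toSubring M := by
    have h1 : IsIntegrallyClosedIn (integralClosure O M) M := .of_isIntegralClosure O
    exact h1
  by_contra hcon
  have hcon' : u k ∉ (integralClosure O M).toSubring := hcon
  obtain ⟨W, hW, hW2⟩ := Subring.exists_le_valuationSubring_of_isIntegrallyClosedIn hcon'
  apply hW2
  have haW : ∀ i, algebraMap L M (a i) ∈ W := by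
    intro i
    apply hW
    have h1 : IsIntegral O (algebraMap O M ⟨a i, ha i⟩) := isIntegral_algebraMap
    exact h1
  by_cases hxW : x ∈ W
  · have key : ∀ d k, n < k + d → u k ∈ W := by
      intro d
      induction d with
      | zero =>
        intro k hk
        rw [hun k (by omega)]
        exact W.zero_mem
      | succ d ih =>
        intro k hk
        rw [hu k]
        exact W.add_mem _ _ (haW k) (W.mul_mem _ _ hxW (ih (k + 1) (by omega)))
    exact key (n + 1) k (by omega)
  · have hxi : x⁻¹ ∈ W := (W.mem_or_inv_mem x).resolve_left hxW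
    have hx0 : x ≠ 0 := by
      rintro rfl
      exact hxW W.zero_mem
    have key : ∀ k, u k ∈ W := by
      intro k
      induction k with
      | zero =>
        rw [hu0]
        exact W.zero_mem
      | succ k ih =>
        have h1 : u (k + 1) = x⁻¹ * (u k - algebraMap L M (a k)) := by
          rw [hu k, add_sub_cancel_left, inv_mul_cancel_left₀ hx0]
        rw [h1]
        exact W.mul_mem _ _ hxi (sub_mem ih (haW k))
    exact key k

/-- The main step. -/
private theorem v6b_step {L M : Type} [Field L] [Field M] [Algebra L M] (O : ValuationSubring L)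
    (hloc : IsLocalRing (integralClosure O M)) (W : ValuationSubring M)
    (hW : (LocalSubring.mk (integralClosure O M).toSubring (isLocalRing := hloc)) ≤ W.toLocalSubring) {x : M}
    (hx : IsAlgebraic L x) (hxW : x ∈ W) : IsIntegral O x := by
  obtain ⟨hle, hhom⟩ := hW
  -- elements of `O` and `W`
  have hmem : ∀ y : M, IsIntegral O y → y ∈ W := fun y hy => hle hy
  have hunit : ∀ y : M, IsIntegral O y → W.valuation y = 1 → IsIntegral O y⁻¹ := by
    intro y hy hv
    have h1 : IsUnit (⟨y, hmem y hy⟩ : W) := (W.valuation_eq_one_iff _).2 hv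
    have h2 : IsUnit (Subring.inclusion hle ⟨y, hy⟩) := h1
    have h3 : IsUnit (⟨y, hy⟩ : (integralClosure O M).toSubring) := hhom.map_nonunit _ h2
    obtain ⟨⟨z, hz⟩, hzy⟩ := h3.exists_right_inv
    have h4 : y * z = 1 := congrArg Subtype.val hzy
    have h5 : y⁻¹ = z := inv_eq_of_mul_eq_one_right h4
    rw [h5]
    exact hz
  have hO : ∀ b : L, b ∈ O → IsIntegral O (algebraMap L M b) := fun b hb =>
    (isIntegral_algebraMap : IsIntegral O (algebraMap O M ⟨b, hb⟩))
  have hOn : ∀ b : L, b ∈ O.nonunits → W.valuation (algebraMap L M b) < 1 := by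
    intro b hb
    have hbO : b ∈ O := ValuationSubring.nonunits_le hb
    refine lt_of_le_of_ne ((W.valuation_le_one_iff _).2 (hmem _ (hO b hbO))) fun h1 => ?_
    have h2 := hunit _ (hO b hbO) h1
    rw [← map_inv₀] at h2
    have h3 : IsIntegral O (b⁻¹ : L) := (isIntegral_algebraMap_iff (algebraMap L M).injective).1 h2
    obtain ⟨c, hc⟩ := IsIntegrallyClosed.algebraMap_eq_of_integral h3
    have h4 : b⁻¹ ∈ O := by
      rw [← hc]
      exact c.2
    rw [ValuationSubring.mem_nonunits_iff_or] at hb
    rcases hb with h5 | h5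
    · rw [h5, map_zero, map_zero] at h1
      exact zero_ne_one h1
    · exact h5 h4
  have hOu : ∀ b : L, b ∈ O → b ∉ O.nonunits → W.valuation (algebraMap L M b) = 1 := by
    intro b hb hbn
    have h1 : O.valuation b = 1 := le_antisymm ((O.valuation_le_one_iff _).2 hb)
      (not_lt.1 (fun h => hbn (O.mem_nonunits_iff.2 h)))
    have h2 : IsUnit (⟨b, hb⟩ : O) := (O.valuation_eq_one_iff _).2 h1
    obtain ⟨⟨c, hc⟩, hbc⟩ := h2.exists_right_inv
    have h3 : b * c = 1 := congrArg Subtype.val hbc
    have h4 : W.valuation (algebraMap L M b) * W.valuation (algebraMap L M c) = 1 := by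
      rw [← map_mul, ← map_mul, h3, map_one, map_one]
    have h5 := (W.valuation_le_one_iff _).2 (hmem _ (hO b hb))
    have h6 := (W.valuation_le_one_iff _).2 (hmem _ (hO c hc))
    refine le_antisymm h5 ?_
    rw [← h4]
    exact mul_le_of_le_one_right' h6
  obtain ⟨a, u, n, ha, ⟨i, hi⟩, hu0, hu, hun, han⟩ := v6b_seq O hx
  have hint := v6b_int O ha hu0 hu hun
  classical
  -- the largest index of a unit
  have hin : i ≤ n := by
    by_contra hcon
    rw [han i (by omega)] at hi
    apply hi
    rw [O.mem_nonunits_iff, map_zero]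
    exact zero_lt_one
  set j := Nat.findGreatest (fun i => a i ∉ O.nonunits) n with hj
  have hj1 : a j ∉ O.nonunits := Nat.findGreatest_spec (P := fun i => a i ∉ O.nonunits) hin hi
  have hj2 : ∀ k, j < k → a k ∈ O.nonunits := by
    intro k hk
    rcases le_or_gt k n with hkn | hkn
    · by_contra hcon
      exact Nat.findGreatest_is_greatest hk hkn hcon
    · rw [han k hkn, O.mem_nonunits_iff, map_zero]
      exact zero_lt_one
  have hxv : W.valuation x ≤ 1 := (W.valuation_le_one_iff _).2 hxW
  have hsmall : ∀ d k, n < k + d → j < k → W.valuation (u k) < 1 := by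
    intro d
    induction d with
    | zero =>
      intro k hk _
      rw [hun k (by omega), map_zero]
      exact zero_lt_one
    | succ d ih =>
      intro k hk hjk
      rw [hu k]
      refine W.valuation.map_add_lt (hOn _ (hj2 k hjk)) ?_
      rw [map_mul]
      exact (mul_le_of_le_one_left' hxv).trans_lt (ih (k + 1) (by omega) (by omega))
  have hs1 : W.valuation (x * u (j + 1)) < 1 := by
    rw [map_mul]
    exact (mul_le_of_le_one_left' hxv).trans_lt (hsmall (n + 1) (j + 1) (by omega) (by omega))
  have hv1 : W.valuation (u j) = 1 := by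
    rw [hu j, ← hOu _ (ha j) hj1]
    refine Valuation.map_add_eq_of_lt_left W.valuation ?_
    rw [hOu _ (ha j) hj1]
    exact hs1
  have hinv := hunit _ (hint j) hv1
  have huj : u j ≠ 0 := by
    intro h0
    rw [h0, map_zero] at hv1
    exact zero_ne_one hv1
  have hj0 : j ≠ 0 := by
    intro h0
    rw [h0] at huj
    exact huj hu0
  obtain ⟨j', hj'⟩ := Nat.exists_eq_succ_of_ne_zero hj0
  have hxu : IsIntegral O (x * u j) := by
    have h1 : x * u j = u j' - algebraMap L M (a j') := by
      rw [hu j', add_sub_cancel_left, hj']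
    rw [h1]
    exact (hint j').sub (hO _ (ha j'))
  have h2 : x = x * u j * (u j)⁻¹ := by
    rw [mul_inv_cancel_right₀ huj]
  rw [h2]
  exact hxu.mul hinv

theorem isIntegral_or_of_local {L M : Type} [Field L] [Field M] [Algebra L M]
    [Algebra.IsAlgebraic L M] (O : ValuationSubring L)
    (hloc : IsLocalRing (integralClosure O M)) :
    ∃ V : ValuationSubring M, ∀ x : M, x ∈ V ↔ IsIntegral O x := by
  obtain ⟨W, hW⟩ := LocalSubring.exists_le_valuationSubring
    (LocalSubring.mk (integralClosure O M).toSubring (isLocalRing := hloc))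
  refine ⟨ValuationSubring.ofSubring (integralClosure O M).toSubring fun x => ?_, fun x => Iff.rfl⟩
  rcases W.mem_or_inv_mem x with hx | hx
  · exact Or.inl (v6b_step O hloc W hW (Algebra.IsAlgebraic.isAlgebraic x) hx)
  · exact Or.inr (v6b_step O hloc W hW (Algebra.IsAlgebraic.isAlgebraic x⁻¹) hx)

end Pool.Agent.SB
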