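import Pool.Agent.Helper79.SV.Pair
import Pool.Agent.Helper79.SV.V6a
import Pool.Agent.Helper79.SV.V6b

set_option autoImplicit false

/-!
# SB-V-12: the valuation ring `O` of `L` has a unique extension to `Ω`

By `isIntegral_or_of_local` it is enough that `B = integralClosure O Ω` is local.  Let `a, b ∈ B` be nonunits with `a + b` a unit
(or: `a + b = 1`).  Let `M/L` be a finite Galois subextension of `Ω` containing `a, b`; a unit of `B` lying in `M` has its inverse
in `B ∩ M`, so `a, b` are nonunits of `integralClosure O M` (transport along `M ⊆ Ω`), which is local by `local_of_pgroup`: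
contradiction.  `Gal(M/L)` is an `ℓ`-group: let `H` be the subgroup generated by `σ|M`, `τ|M`; its fixed field in `M` is `L` by `fix`, so
`H = Gal(M/L)`.  `σ|M` and `τ|M` have `ℓ`-power order (`pσ`, `pτ` on a finite set of generators of `M`), and by `rel` (for
finitely many elements, `N` large, `q` chosen with `σ ζ = ζ^q` on `ℓ^N`-th roots of unity) `σ|M τ|M σ|M⁻¹` is a power of `τ|M`: so
`⟨τ|M⟩` is a normal `ℓ`-subgroup with quotient cyclic generated by the image of `σ|M`, an `ℓ`-group.  `ζ ∈ L`: a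
primitive `ℓ`-th root of unity is fixed by `σ` (`mu`) and `τ` (`bar`).
-/

namespace Pool.Agent.SB

open IntermediateField in
private theorem v6_restrict_ext {L Ω : Type} [Field L] [Field Ω] [Algebra L Ω] (M : IntermediateField L Ω) [Normal L M]
    (pb : PowerBasis L M) (g₁ g₂ : Ω ≃ₐ[L] Ω) (h : g₁ (pb.gen : Ω) = g₂ (pb.gen : Ω)) :
    AlgEquiv.restrictNormalHom M g₁ = AlgEquiv.restrictNormalHom M g₂ := by
  have h1 : (AlgEquiv.restrictNormalHom M g₁ : M →ₐ[L] M) = (AlgEquiv.restrictNormalHom M g₂ : M →ₐ[L] M) := by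
    apply pb.algHom_ext
    apply Subtype.ext
    have e1 := AlgEquiv.restrictNormal_commutes g₁ M pb.gen
    have e2 := AlgEquiv.restrictNormal_commutes g₂ M pb.gen
    exact (e1.trans h).trans e2.symm
  ext x
  have h2 := congrArg (fun f : M →ₐ[L] M => ((f x : M) : Ω)) h1
  exact h2

private theorem v6_pgroup (k : Type) [Field k] [CharZero k] {L Ω : Type} [Field L] [Field Ω]
    [Algebra k L] [Algebra L Ω] [Algebra k Ω] [IsScalarTower k L Ω] [IsAlgClosed Ω]
    {ℓ : ℕ} (hℓ : ℓ.Prime) {σ τ : Ω ≃ₐ[L] Ω} (P : TPair k ℓ σ τ) [CharZero L] [CharZero Ω]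
    (M : IntermediateField L Ω) [FiniteDimensional L M] [IsGalois L M] : IsPGroup ℓ (M ≃ₐ[L] M) := by
  classical
  have := Fact.mk hℓ
  let pb : PowerBasis L M := Field.powerBasisOfFiniteOfSeparable L M
  let r := AlgEquiv.restrictNormalHom (F := L) (K₁ := Ω) M
  have hr : ∀ (g : Ω ≃ₐ[L] Ω) (x : M), ((r g x : M) : Ω) = g x := fun g x => AlgEquiv.restrictNormal_commutes g M x
  -- the group is generated by the two restrictions
  have htop : Subgroup.closure {r σ, r τ} = ⊤ := by
    have h1 : IntermediateField.fixedField (Subgroup.closure {r σ, r τ}) = ⊥ := by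
      rw [eq_bot_iff]
      intro x hx
      have h2 : ∀ g ∈ Subgroup.closure {r σ, r τ}, g x = x := fun g hg => hx ⟨g, hg⟩
      have hσ : σ (x : Ω) = x := by
        rw [← hr, h2 _ (Subgroup.subset_closure (by simp))]
      have hτ : τ (x : Ω) = x := by
        rw [← hr, h2 _ (Subgroup.subset_closure (by simp))]
      obtain ⟨y, hy⟩ := P.fix _ hσ hτ
      rw [IntermediateField.mem_bot]
      exact ⟨y, Subtype.ext hy⟩
    have h2 := IntermediateField.fixingSubgroup_fixedField (Subgroup.closure {r σ, r τ})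
    rw [h1, IntermediateField.fixingSubgroup_bot] at h2
    exact h2.symm
  -- orders
  have hordσ : ∃ n : ℕ, (r σ) ^ (ℓ ^ n) = 1 := by
    obtain ⟨n, hn⟩ := P.pσ (pb.gen : Ω)
    refine ⟨n, ?_⟩
    rw [← map_pow, ← map_one r]
    exact v6_restrict_ext M pb _ _ hn
  have hordτ : ∃ n : ℕ, (r τ) ^ (ℓ ^ n) = 1 := by
    obtain ⟨n, hn⟩ := P.pτ (pb.gen : Ω)
    refine ⟨n, ?_⟩
    rw [← map_pow, ← map_one r]
    exact v6_restrict_ext M pb _ _ hn
  -- the relation
  have hrel : ∃ q : ℕ, r σ * r τ * (r σ)⁻¹ = (r τ) ^ q := by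
    obtain ⟨N, hN⟩ := P.rel (pb.gen : Ω)
    have hpos : 0 < ℓ ^ N := pow_pos hℓ.pos N
    have : NeZero (ℓ ^ N) := ⟨hpos.ne'⟩
    obtain ⟨ζ, hζ⟩ : ∃ ζ : Ω, IsPrimitiveRoot ζ (ℓ ^ N) := by
      have hne : ((ℓ ^ N : ℕ) : Ω) ≠ 0 := Nat.cast_ne_zero.2 hpos.ne'
      have : NeZero ((ℓ ^ N : ℕ) : Ω) := ⟨hne⟩
      obtain ⟨ζ, hζ⟩ := IsAlgClosed.exists_root (Polynomial.cyclotomic (ℓ ^ N) Ω)
        (Polynomial.degree_cyclotomic_pos _ _ hpos).ne'
      exact ⟨ζ, Polynomial.isRoot_cyclotomic_iff.1 hζ⟩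
    have h1 : (σ ζ) ^ (ℓ ^ N) = 1 := by rw [← map_pow, hζ.pow_eq_one, map_one]
    obtain ⟨q, -, hq⟩ := hζ.eq_pow_of_pow_eq_one h1
    refine ⟨q, ?_⟩
    have h2 := hN q (fun ξ hξ => by
      obtain ⟨i, -, hi⟩ := hζ.eq_pow_of_pow_eq_one hξ
      rw [← hi, map_pow, ← hq, ← pow_mul, ← pow_mul, mul_comm])
    rw [← map_inv, ← map_mul, ← map_mul, ← map_pow]
    exact v6_restrict_ext M pb _ _ h2
  obtain ⟨q, hq⟩ := hrel
  obtain ⟨n, hn⟩ := hordσ
  obtain ⟨m, hm⟩ := hordτ
  -- the subgroup generated by the second one is normal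
  have hnorm : (Subgroup.zpowers (r τ)).Normal := by
    rw [← Subgroup.normalizer_eq_top_iff, eq_top_iff, ← htop, Subgroup.closure_le]
    have key : ∀ g : M ≃ₐ[L] M, g * r τ * g⁻¹ ∈ Subgroup.zpowers (r τ) →
        g ∈ Subgroup.normalizer (Subgroup.zpowers (r τ)) := by
      intro g hg
      have h1 : ∀ x ∈ Subgroup.zpowers (r τ), g * x * g⁻¹ ∈ Subgroup.zpowers (r τ) := by
        intro x hx
        obtain ⟨i, rfl⟩ := Subgroup.mem_zpowers_iff.1 hx
        rw [← conj_zpow]
        exact Subgroup.zpow_mem _ hg i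
      exact Subgroup.mem_normalizer_fintype h1
    intro g hg
    rcases hg with rfl | hg
    · apply key
      rw [hq]
      exact Subgroup.npow_mem_zpowers _ _
    · rw [Set.mem_singleton_iff] at hg
      subst hg
      apply key
      rw [mul_inv_cancel_right]
      exact Subgroup.mem_zpowers _
  -- conclusion
  have hN : IsPGroup ℓ (Subgroup.zpowers (r τ)) := by
    intro x
    obtain ⟨i, hi⟩ := Subgroup.mem_zpowers_iff.1 x.2
    refine ⟨m, ?_⟩
    apply Subtype.ext
    rw [Subgroup.coe_pow, ← hi, ← zpow_natCast, ← zpow_mul, mul_comm, zpow_mul, zpow_natCast, hm, one_zpow]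
    rfl
  have hQ : IsPGroup ℓ ((M ≃ₐ[L] M) ⧸ Subgroup.zpowers (r τ)) := by
    intro x
    obtain ⟨g, rfl⟩ := QuotientGroup.mk_surjective x
    have h1 : ∀ g : M ≃ₐ[L] M, QuotientGroup.mk' (Subgroup.zpowers (r τ)) g ∈
        Subgroup.zpowers (QuotientGroup.mk' (Subgroup.zpowers (r τ)) (r σ)) := by
      have h2 : Subgroup.closure {r σ, r τ} ≤ (Subgroup.zpowers (QuotientGroup.mk' (Subgroup.zpowers (r τ))
          (r σ))).comap (QuotientGroup.mk' (Subgroup.zpowers (r τ))) := by
        rw [Subgroup.closure_le]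
        intro g hg
        rcases hg with rfl | hg
        · exact Subgroup.mem_zpowers _
        · rw [Set.mem_singleton_iff] at hg
          subst hg
          have h3 : QuotientGroup.mk' (Subgroup.zpowers (r τ)) (r τ) = 1 :=
            (QuotientGroup.eq_one_iff _).2 (Subgroup.mem_zpowers _)
          refine Subgroup.mem_comap.2 ?_
          rw [h3]
          exact Subgroup.one_mem _
      intro g
      exact h2 (by rw [htop]; exact Subgroup.mem_top _)
    obtain ⟨i, hi⟩ := Subgroup.mem_zpowers_iff.1 (h1 g)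
    refine ⟨n, ?_⟩
    show (QuotientGroup.mk' (Subgroup.zpowers (r τ)) g) ^ (ℓ ^ n) = 1
    rw [← hi, ← zpow_natCast, ← zpow_mul, mul_comm, zpow_mul, zpow_natCast, ← map_pow, hn, map_one, one_zpow]
  have hfin := (hQ.of_surjective (MonoidHom.id _) Function.surjective_id)
  have h5 : IsPGroup ℓ (⊤ : Subgroup ((M ≃ₐ[L] M) ⧸ Subgroup.zpowers (r τ))) := hQ.to_subgroup _
  have h6 := h5.comap_of_ker_isPGroup (QuotientGroup.mk' (Subgroup.zpowers (r τ)))
    (by rw [QuotientGroup.ker_mk']; exact hN)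
  rw [Subgroup.comap_top] at h6
  exact h6.of_equiv Subgroup.topEquiv

theorem exists_inv_ring (k : Type) [Field k] [CharZero k] {L Ω : Type} [Field L] [Field Ω]
    [Algebra k L] [Algebra L Ω] [Algebra k Ω] [IsScalarTower k L Ω] [IsAlgClosed Ω]
    [Algebra.IsAlgebraic L Ω] {ℓ : ℕ} (hℓ : ℓ.Prime) {σ τ : Ω ≃ₐ[L] Ω} (P : TPair k ℓ σ τ)
    (O : ValuationSubring L) (hO : ∀ x : L, x ∈ O → x⁻¹ ∉ O → ∃ r : L, r ^ ℓ = 1 - x) :
    ∃ V : ValuationSubring Ω, ∀ x : Ω, x ∈ V ↔ IsIntegral O x := by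
  classical
  have hk : Function.Injective (algebraMap k L) := (algebraMap k L).injective
  have : CharZero L := charZero_of_injective_algebraMap hk
  have : CharZero Ω := charZero_of_injective_algebraMap (algebraMap L Ω).injective
  have := Fact.mk hℓ
  apply isIntegral_or_of_local O
  -- the root of unity
  obtain ⟨ζ, hζ⟩ : ∃ ζ : L, IsPrimitiveRoot ζ ℓ := by
    have hne : ((ℓ : ℕ) : Ω) ≠ 0 := Nat.cast_ne_zero.2 hℓ.ne_zero
    have : NeZero ((ℓ : ℕ) : Ω) := ⟨hne⟩
    obtain ⟨ζ, hζ⟩ := IsAlgClosed.exists_root (Polynomial.cyclotomic ℓ Ω)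
      (Polynomial.degree_cyclotomic_pos _ _ hℓ.pos).ne'
    have hζ' : IsPrimitiveRoot ζ ℓ := Polynomial.isRoot_cyclotomic_iff.1 hζ
    have h1 := P.mu ζ hζ'.pow_eq_one
    have h2 := P.bar ζ (by
      refine ⟨Polynomial.X ^ ℓ - 1, ?_, ?_⟩
      · exact Polynomial.X_pow_sub_C_ne_zero hℓ.pos (1 : k)
      · simp [hζ'.pow_eq_one])
    obtain ⟨z, hz⟩ := P.fix ζ h1 h2
    refine ⟨z, IsPrimitiveRoot.of_map_of_injective (f := algebraMap L Ω) ?_ (algebraMap L Ω).injective⟩
    rw [hz]
    exact hζ'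
  have hcl : IsAlgClosure L Ω := ⟨inferInstance, inferInstance⟩
  have hnormal : Normal L Ω := IsAlgClosure.normal L Ω
  have hnt : Nontrivial (integralClosure O Ω) := inferInstance
  refine { toNontrivial := hnt, isUnit_or_isUnit_of_add_one := ?_ }
  intro a b hab
  -- the finite Galois extension
  let M₀ : IntermediateField L Ω := IntermediateField.adjoin L {(a : Ω), (b : Ω)}
  have hfin₀ : FiniteDimensional L M₀ := by
    apply IntermediateField.finiteDimensional_adjoin
    intro x _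
    exact (Algebra.IsAlgebraic.isAlgebraic (R := L) x).isIntegral
  let M : IntermediateField L Ω := IntermediateField.normalClosure L M₀ Ω
  have hMfin : FiniteDimensional L M := normalClosure.is_finiteDimensional L M₀ Ω
  have hMnorm : Normal L M := normalClosure.normal L M₀ Ω
  have hGal : IsGalois L M := { }
  have hle : M₀ ≤ M := IntermediateField.le_normalClosure M₀
  have haM : (a : Ω) ∈ M := hle (IntermediateField.subset_adjoin _ _ (by simp))
  have hbM : (b : Ω) ∈ M := hle (IntermediateField.subset_adjoin _ _ (by simp))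
  have hloc := local_of_pgroup (M := M) hℓ (v6_pgroup k hℓ P M) ζ hζ O hO
  have hinj : Function.Injective (algebraMap M Ω) := (algebraMap M Ω).injective
  have hint : ∀ x : M, IsIntegral O (x : Ω) → IsIntegral O x := by
    intro x hx
    exact (isIntegral_algebraMap_iff hinj).1 hx
  have h1 := hloc.isUnit_or_isUnit_of_add_one (a := ⟨⟨a, haM⟩, hint _ a.2⟩) (b := ⟨⟨b, hbM⟩, hint _ b.2⟩)
    (by
      apply Subtype.ext
      apply Subtype.ext
      have h0 : (a : Ω) + (b : Ω) = 1 := congrArg Subtype.val hab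
      exact h0)
  have hunit : ∀ (x : integralClosure O Ω) (hx : (x : Ω) ∈ M),
      IsUnit (⟨⟨x, hx⟩, hint _ x.2⟩ : integralClosure O M) → IsUnit x := by
    intro x hx hu
    obtain ⟨⟨y, hy⟩, hxy⟩ := hu.exists_right_inv
    have hy' : IsIntegral O (y : Ω) := (isIntegral_algebraMap_iff hinj).2 hy
    refine IsUnit.of_mul_eq_one ⟨(y : Ω), hy'⟩ ?_
    apply Subtype.ext
    have h2 := congrArg (fun z : integralClosure O M => ((z : M) : Ω)) hxy
    exact h2
  rcases h1 with h | h
  · exact Or.inl (hunit a haM h)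
  · exact Or.inr (hunit b hbM h)


end Pool.Agent.SB
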